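import Pool.Agent.TF.S2.Def

/-!
# The steps `J` on `C²` functions and `J~` on densities (StJc, StDj)
-/

set_option autoImplicit false

namespace Pool.Agent.TF.S2

open MeasureTheory Set Filter Topology Pool.Agent.TO Pool.Agent.TB
open scoped ENNReal NNReal Real InnerProductSpace

/-- chain rule, first and second order -/
theorem dj_comp {f : E3 → ℝ} {Y : E3 → E3} (hf : ContDiff ℝ 2 f) (hY : ContDiff ℝ 2 Y) (x : E3) :
    ‖fderiv ℝ (fun x => f (Y x)) x‖ ≤ ‖fderiv ℝ f (Y x)‖ * ‖fderiv ℝ Y x‖ ∧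
    ‖fderiv ℝ (fderiv ℝ (fun x => f (Y x))) x‖ ≤
      ‖fderiv ℝ (fderiv ℝ f) (Y x)‖ * ‖fderiv ℝ Y x‖ ^ 2 +
        ‖fderiv ℝ f (Y x)‖ * ‖fderiv ℝ (fderiv ℝ Y) x‖ := by
  have hf1 : Differentiable ℝ f := hf.differentiable (by norm_num)
  have hY1 : Differentiable ℝ Y := hY.differentiable (by norm_num)
  have hf2 : Differentiable ℝ (fderiv ℝ f) :=
    (hf.fderiv_right (m := 1) (by norm_num)).differentiable (by norm_num)
  have hY2 : Differentiable ℝ (fderiv ℝ Y) :=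
    (hY.fderiv_right (m := 1) (by norm_num)).differentiable (by norm_num)
  have e1 : fderiv ℝ (fun x => f (Y x)) = fun x => (fderiv ℝ f (Y x)).comp (fderiv ℝ Y x) := by
    funext x
    exact fderiv_comp x (hf1 (Y x)) (hY1 x)
  refine ⟨?_, ?_⟩
  · rw [e1]
    exact ContinuousLinearMap.opNorm_comp_le _ _
  · rw [e1]
    have h1 : HasFDerivAt (fun x => fderiv ℝ f (Y x))
        ((fderiv ℝ (fderiv ℝ f) (Y x)).comp (fderiv ℝ Y x)) x :=
      ((hf2 (Y x)).hasFDerivAt).comp x (hY1 x).hasFDerivAt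
    have h2 : HasFDerivAt (fderiv ℝ Y) (fderiv ℝ (fderiv ℝ Y) x) x := (hY2 x).hasFDerivAt
    rw [(h1.clm_comp h2).fderiv]
    apply ContinuousLinearMap.opNorm_le_bound _ (by positivity)
    intro v
    have hv : (((ContinuousLinearMap.compL ℝ E3 E3 ℝ) (fderiv ℝ f (Y x))).comp
          (fderiv ℝ (fderiv ℝ Y) x) +
        ((ContinuousLinearMap.compL ℝ E3 E3 ℝ).flip (fderiv ℝ Y x)).comp
          ((fderiv ℝ (fderiv ℝ f) (Y x)).comp (fderiv ℝ Y x))) v =
        (fderiv ℝ f (Y x)).comp (fderiv ℝ (fderiv ℝ Y) x v) +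
          (fderiv ℝ (fderiv ℝ f) (Y x) (fderiv ℝ Y x v)).comp (fderiv ℝ Y x) := rfl
    rw [hv]
    refine (norm_add_le _ _).trans ?_
    have n1 : ‖(fderiv ℝ f (Y x)).comp (fderiv ℝ (fderiv ℝ Y) x v)‖ ≤
        ‖fderiv ℝ f (Y x)‖ * (‖fderiv ℝ (fderiv ℝ Y) x‖ * ‖v‖) :=
      (ContinuousLinearMap.opNorm_comp_le _ _).trans
        (mul_le_mul_of_nonneg_left (ContinuousLinearMap.le_opNorm _ _) (norm_nonneg _))
    have n2 : ‖(fderiv ℝ (fderiv ℝ f) (Y x) (fderiv ℝ Y x v)).comp (fderiv ℝ Y x)‖ ≤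
        (‖fderiv ℝ (fderiv ℝ f) (Y x)‖ * (‖fderiv ℝ Y x‖ * ‖v‖)) * ‖fderiv ℝ Y x‖ := by
      refine (ContinuousLinearMap.opNorm_comp_le _ _).trans
        (mul_le_mul_of_nonneg_right ?_ (norm_nonneg _))
      exact (ContinuousLinearMap.le_opNorm _ _).trans
        (mul_le_mul_of_nonneg_left (ContinuousLinearMap.le_opNorm _ _) (norm_nonneg _))
    calc _ ≤ _ := add_le_add n1 n2
      _ = _ := by ring

/-- product rule, first and second order -/
theorem dj_mul {m q : E3 → ℝ} (hm : ContDiff ℝ 2 m) (hq : ContDiff ℝ 2 q) (x : E3) :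
    ‖fderiv ℝ (fun x => m x * q x) x‖ ≤ |m x| * ‖fderiv ℝ q x‖ + ‖fderiv ℝ m x‖ * |q x| ∧
    ‖fderiv ℝ (fderiv ℝ (fun x => m x * q x)) x‖ ≤ |m x| * ‖fderiv ℝ (fderiv ℝ q) x‖ +
      2 * ‖fderiv ℝ m x‖ * ‖fderiv ℝ q x‖ + ‖fderiv ℝ (fderiv ℝ m) x‖ * |q x| := by
  have hm1 : Differentiable ℝ m := hm.differentiable (by norm_num)
  have hq1 : Differentiable ℝ q := hq.differentiable (by norm_num)
  have hm2 : Differentiable ℝ (fderiv ℝ m) :=
    (hm.fderiv_right (m := 1) (by norm_num)).differentiable (by norm_num)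
  have hq2 : Differentiable ℝ (fderiv ℝ q) :=
    (hq.fderiv_right (m := 1) (by norm_num)).differentiable (by norm_num)
  have e1 : fderiv ℝ (fun x => m x * q x) = fun x => m x • fderiv ℝ q x + q x • fderiv ℝ m x := by
    funext x
    exact fderiv_fun_mul (hm1 x) (hq1 x)
  refine ⟨?_, ?_⟩
  · rw [e1]
    refine (norm_add_le _ _).trans ?_
    rw [norm_smul, norm_smul, Real.norm_eq_abs, Real.norm_eq_abs, mul_comm |q x|]
  · rw [e1]
    have h1 := ((hm1 x).hasFDerivAt.smul (hq2 x).hasFDerivAt)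
    have h2 := ((hq1 x).hasFDerivAt.smul (hm2 x).hasFDerivAt)
    have h3 : HasFDerivAt (fun x => m x • fderiv ℝ q x + q x • fderiv ℝ m x) _ x := h1.add h2
    rw [h3.fderiv]
    apply ContinuousLinearMap.opNorm_le_bound _ (by positivity)
    intro v
    have hv : ((m x • fderiv ℝ (fderiv ℝ q) x + (fderiv ℝ m x).smulRight (fderiv ℝ q x)) +
        (q x • fderiv ℝ (fderiv ℝ m) x + (fderiv ℝ q x).smulRight (fderiv ℝ m x))) v =
        (m x • fderiv ℝ (fderiv ℝ q) x v + fderiv ℝ m x v • fderiv ℝ q x) +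
        (q x • fderiv ℝ (fderiv ℝ m) x v + fderiv ℝ q x v • fderiv ℝ m x) := rfl
    rw [hv]
    refine (norm_add_le _ _).trans ?_
    have a1 := norm_add_le (m x • fderiv ℝ (fderiv ℝ q) x v) (fderiv ℝ m x v • fderiv ℝ q x)
    have a2 := norm_add_le (q x • fderiv ℝ (fderiv ℝ m) x v) (fderiv ℝ q x v • fderiv ℝ m x)
    rw [norm_smul, norm_smul, Real.norm_eq_abs] at a1 a2
    have b1 : ‖fderiv ℝ (fderiv ℝ q) x v‖ ≤ ‖fderiv ℝ (fderiv ℝ q) x‖ * ‖v‖ :=
      ContinuousLinearMap.le_opNorm _ _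
    have b2 : ‖fderiv ℝ (fderiv ℝ m) x v‖ ≤ ‖fderiv ℝ (fderiv ℝ m) x‖ * ‖v‖ :=
      ContinuousLinearMap.le_opNorm _ _
    have b3 : ‖fderiv ℝ m x v‖ ≤ ‖fderiv ℝ m x‖ * ‖v‖ := ContinuousLinearMap.le_opNorm _ _
    have b4 : ‖fderiv ℝ q x v‖ ≤ ‖fderiv ℝ q x‖ * ‖v‖ := ContinuousLinearMap.le_opNorm _ _
    have c1 := mul_le_mul_of_nonneg_left b1 (abs_nonneg (m x))
    have c2 := mul_le_mul_of_nonneg_left b2 (abs_nonneg (q x))
    have c3 := mul_le_mul_of_nonneg_right b3 (norm_nonneg (fderiv ℝ q x))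
    have c4 := mul_le_mul_of_nonneg_right b4 (norm_nonneg (fderiv ℝ m x))
    nlinarith [a1, a2, c1, c2, c3, c4]

/-- the map `x + s b(x)` -/
theorem dj_shift {b : E3 → E3} (hb : ContDiff ℝ 2 b) (s : ℝ) (x : E3) :
    ContDiff ℝ 2 (fun x => x + s • b x) ∧
    ‖fderiv ℝ (fun x => x + s • b x) x‖ ≤ 1 + |s| * ‖fderiv ℝ b x‖ ∧
    ‖fderiv ℝ (fderiv ℝ (fun x => x + s • b x)) x‖ ≤ |s| * ‖fderiv ℝ (fderiv ℝ b) x‖ := by
  have hb1 : Differentiable ℝ b := hb.differentiable (by norm_num)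
  have hb2 : Differentiable ℝ (fderiv ℝ b) :=
    (hb.fderiv_right (m := 1) (by norm_num)).differentiable (by norm_num)
  have e1 : fderiv ℝ (fun x => x + s • b x) =
      fun x => ContinuousLinearMap.id ℝ E3 + s • fderiv ℝ b x := by
    funext x
    exact ((hasFDerivAt_id x).add ((hb1 x).hasFDerivAt.const_smul s)).fderiv
  refine ⟨contDiff_id.add (hb.const_smul s), ?_, ?_⟩
  · rw [e1]
    refine (norm_add_le _ _).trans (add_le_add ContinuousLinearMap.norm_id_le ?_)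
    rw [norm_smul, Real.norm_eq_abs]
  · rw [e1]
    have h : HasFDerivAt (fun x => ContinuousLinearMap.id ℝ E3 + s • fderiv ℝ b x)
        (s • fderiv ℝ (fderiv ℝ b) x) x := by
      have := ((hb2 x).hasFDerivAt.const_smul s).const_add (ContinuousLinearMap.id ℝ E3)
      exact this
    rw [h.fderiv]
    apply ContinuousLinearMap.opNorm_le_bound _ (by positivity)
    intro v
    have e2 : (s • fderiv ℝ (fderiv ℝ b) x) v = s • fderiv ℝ (fderiv ℝ b) x v := rfl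
    rw [e2, norm_smul, Real.norm_eq_abs, mul_assoc]
    exact mul_le_mul_of_nonneg_left (ContinuousLinearMap.le_opNorm _ _) (abs_nonneg s)

/-- the factor `1 - d λ` -/
theorem dj_fac {lam : E3 → ℝ} (hl : ContDiff ℝ 2 lam) {d : ℝ} (hd : 0 ≤ d) (x : E3) :
    ContDiff ℝ 2 (fun x => 1 - d * lam x) ∧
    ‖fderiv ℝ (fun x => 1 - d * lam x) x‖ ≤ d * ‖fderiv ℝ lam x‖ ∧
    ‖fderiv ℝ (fderiv ℝ (fun x => 1 - d * lam x)) x‖ ≤ d * ‖fderiv ℝ (fderiv ℝ lam) x‖ := by
  have hl1 : Differentiable ℝ lam := hl.differentiable (by norm_num)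
  have hl2 : Differentiable ℝ (fderiv ℝ lam) :=
    (hl.fderiv_right (m := 1) (by norm_num)).differentiable (by norm_num)
  have e1 : fderiv ℝ (fun x => 1 - d * lam x) = fun x => -(d • fderiv ℝ lam x) := by
    funext x
    exact ((hl1 x).hasFDerivAt.const_mul d |>.const_sub 1).fderiv
  refine ⟨contDiff_const.sub (contDiff_const.mul hl), ?_, ?_⟩
  · rw [e1]
    rw [norm_neg, norm_smul, Real.norm_eq_abs, abs_of_nonneg hd]
  · rw [e1]
    have h : HasFDerivAt (fun x => -(d • fderiv ℝ lam x)) (-(d • fderiv ℝ (fderiv ℝ lam) x)) x :=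
      ((hl2 x).hasFDerivAt.const_smul d).neg
    rw [h.fderiv]
    apply ContinuousLinearMap.opNorm_le_bound _ (by positivity)
    intro v
    have e2 : (-(d • fderiv ℝ (fderiv ℝ lam) x)) v = -(d • fderiv ℝ (fderiv ℝ lam) x v) := rfl
    rw [e2, norm_neg, norm_smul, Real.norm_eq_abs, abs_of_nonneg hd, mul_assoc]
    exact mul_le_mul_of_nonneg_left (ContinuousLinearMap.le_opNorm _ _) hd

/-- the common form of `J` (`s = -d`) and `J~` (`s = d`) -/
theorem dj_main {Cb c t d : ℝ} {lam : E3 → ℝ} {b : E3 → E3} {f : E3 → ℝ}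
    (h : Co Cb c t d lam b) (hf : ContDiff ℝ 2 f) {s : ℝ} (hs : |s| = d) (x : E3) {P Q R : ℝ}
    (hP : |f (x + s • b x)| ≤ P) (hQ : ‖fderiv ℝ f (x + s • b x)‖ ≤ Q)
    (hR : ‖fderiv ℝ (fderiv ℝ f) (x + s • b x)‖ ≤ R) :
    (5 / 6 ≤ 1 - d * lam x ∧ 1 - d * lam x ≤ 1) ∧
    ContDiff ℝ 2 (fun x => (1 - d * lam x) * f (x + s • b x)) ∧
    ‖fderiv ℝ (fun x => (1 - d * lam x) * f (x + s • b x)) x‖ ≤
      (1 - d * lam x) * (Q * (1 + d * Cb / 8)) + d * Cb * P ∧
    ‖fderiv ℝ (fderiv ℝ (fun x => (1 - d * lam x) * f (x + s • b x))) x‖ ≤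
      (1 - d * lam x) * (R * (1 + d * Cb / 8) ^ 2 + Q * (d * Cb)) +
      2 * (d * Cb) * (Q * (1 + d * Cb / 8)) + d * Cb * P := by
  have hd := h.d0
  have hx0 : d * Cb ≤ 1 / 6 := h.dC
  have hlx : lam x ≤ Cb := by
    have := h.cl.b0 x
    rw [Real.norm_eq_abs] at this
    exact (le_abs_self _).trans this
  have hl0 := h.nn x
  have hdl0 : 0 ≤ d * lam x := by positivity
  have hdl1 : d * lam x ≤ d * Cb := mul_le_mul_of_nonneg_left hlx hd.le
  have hP0 : 0 ≤ P := (abs_nonneg _).trans hP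
  have hQ0 : 0 ≤ Q := (norm_nonneg _).trans hQ
  have hR0 : 0 ≤ R := (ContinuousLinearMap.opNorm_nonneg _).trans hR
  obtain ⟨yc, y1, y2⟩ := dj_shift h.cb.cd s x
  obtain ⟨mc, m1, m2⟩ := dj_fac h.cl.cd hd.le x
  rw [hs] at y1 y2
  have hY1 : ‖fderiv ℝ (fun x => x + s • b x) x‖ ≤ 1 + d * Cb / 8 := by
    refine y1.trans ?_
    have := mul_le_mul_of_nonneg_left (h.db x) hd.le
    linarith
  have hY2 : ‖fderiv ℝ (fderiv ℝ (fun x => x + s • b x)) x‖ ≤ d * Cb :=
    y2.trans (mul_le_mul_of_nonneg_left (h.cb.b2 x) hd.le)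
  have hm1 : ‖fderiv ℝ (fun x => 1 - d * lam x) x‖ ≤ d * Cb :=
    m1.trans (mul_le_mul_of_nonneg_left (h.cl.b1 x) hd.le)
  have hm2 : ‖fderiv ℝ (fderiv ℝ (fun x => 1 - d * lam x)) x‖ ≤ d * Cb :=
    m2.trans (mul_le_mul_of_nonneg_left (h.cl.b2 x) hd.le)
  have hm0 : |1 - d * lam x| = 1 - d * lam x := abs_of_nonneg (by linarith)
  obtain ⟨q1, q2⟩ := dj_comp hf yc x
  have qc : ContDiff ℝ 2 (fun x => f (x + s • b x)) := hf.comp yc
  obtain ⟨p1, p2⟩ := dj_mul mc qc x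
  have hq1 : ‖fderiv ℝ (fun x => f (x + s • b x)) x‖ ≤ Q * (1 + d * Cb / 8) :=
    q1.trans (mul_le_mul hQ hY1 (norm_nonneg _) hQ0)
  have hq2 : ‖fderiv ℝ (fderiv ℝ (fun x => f (x + s • b x))) x‖ ≤
      R * (1 + d * Cb / 8) ^ 2 + Q * (d * Cb) :=
    q2.trans (add_le_add (mul_le_mul hR (pow_le_pow_left₀ (norm_nonneg _) hY1 2) (by positivity)
      hR0) (mul_le_mul hQ hY2 (ContinuousLinearMap.opNorm_nonneg _) hQ0))
  have hx00 : 0 ≤ d * Cb := hdl0.trans hdl1
  refine ⟨⟨by linarith, by linarith⟩, mc.mul qc, ?_, ?_⟩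
  · refine p1.trans ?_
    rw [hm0]
    exact add_le_add (mul_le_mul_of_nonneg_left hq1 (by linarith))
      (mul_le_mul hm1 hP (abs_nonneg _) hx00)
  · refine p2.trans ?_
    rw [hm0]
    refine add_le_add (add_le_add (mul_le_mul_of_nonneg_left hq2 (by linarith)) ?_)
      (mul_le_mul hm2 hP (abs_nonneg _) hx00)
    have h1 : 2 * ‖fderiv ℝ (fun x => 1 - d * lam x) x‖ ≤ 2 * (d * Cb) := by linarith
    exact mul_le_mul h1 hq1 (norm_nonneg _) (by positivity)

/-- (S2-Jc) -/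
theorem stJc : StJc := by
  intro Cb c t d B lam b f h hf
  have hd := h.d0
  have hx0 : d * Cb ≤ 1 / 6 := h.dC
  have hCb := h.Cb1
  have hx00 : 0 ≤ d * Cb := by positivity
  have hB : 0 ≤ B := (norm_nonneg _).trans (hf.b0 0)
  have hs : |-d| = d := by rw [abs_neg, abs_of_pos hd]
  have eJ : J d lam b f = fun x => (1 - d * lam x) * f (x + (-d) • b x) := by
    funext x
    rw [neg_smul, ← sub_eq_add_neg]
    rfl
  have key := fun x => dj_main h hf.cd hs x (by simpa using hf.b0 (x + (-d) • b x)) (hf.b1 _)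
    (hf.b2 _)
  set y := d * Cb with hy
  rw [eJ]
  refine ⟨(key 0).2.1, ?_, ?_, ?_⟩
  · intro x
    obtain ⟨⟨h1, h2⟩, -⟩ := key x
    rw [norm_mul, Real.norm_eq_abs, abs_of_nonneg (by linarith)]
    have h3 := hf.b0 (x + (-d) • b x)
    calc (1 - d * lam x) * ‖f (x + (-d) • b x)‖ ≤ 1 * B :=
          mul_le_mul h2 h3 (norm_nonneg _) zero_le_one
      _ ≤ B * (1 + 12 * y) := by nlinarith
  · intro x
    obtain ⟨⟨h1, h2⟩, -, h3, -⟩ := key x
    refine h3.trans ?_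
    have h5 : (1 - d * lam x) * (B * (1 + y / 8)) ≤ 1 * (B * (1 + y / 8)) :=
      mul_le_mul_of_nonneg_right h2 (by positivity)
    have hBy : 0 ≤ B * y := by positivity
    nlinarith
  · intro x
    obtain ⟨⟨h1, h2⟩, -, -, h3⟩ := key x
    refine h3.trans ?_
    have h5 : (1 - d * lam x) * (B * (1 + y / 8) ^ 2 + B * y) ≤
        1 * (B * (1 + y / 8) ^ 2 + B * y) := mul_le_mul_of_nonneg_right h2 (by positivity)
    have hBy : 0 ≤ B * y := by positivity
    have hByy : B * y * y ≤ B * y * (1 / 6) := mul_le_mul_of_nonneg_left hx0 hBy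
    nlinarith

/-- log-Lipschitz bound of a density -/
theorem dj_log {M : ℝ} {ρ : E3 → ℝ} (h : Den M ρ) (x v : E3) :
    ρ (x + v) ≤ Real.exp (M * ‖v‖) * ρ x := by
  have h1 : Differentiable ℝ ρ := h.cd.differentiable (by norm_num)
  have hl : ∀ y, HasFDerivAt (fun z => Real.log (ρ z)) ((ρ y)⁻¹ • fderiv ℝ ρ y) y :=
    fun y => (h1 y).hasFDerivAt.log (h.pos y).ne'
  have hb : ‖Real.log (ρ (x + v)) - Real.log (ρ x)‖ ≤ M * ‖x + v - x‖ := by
    refine Convex.norm_image_sub_le_of_norm_hasFDerivWithin_le (s := univ)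
      (f := fun z => Real.log (ρ z)) (fun y _ => (hl y).hasFDerivWithinAt) ?_ convex_univ
      (mem_univ _) (mem_univ _)
    intro y _
    rw [norm_smul, norm_inv, Real.norm_eq_abs, abs_of_pos (h.pos y), ← div_eq_inv_mul,
      div_le_iff₀ (h.pos y)]
    exact h.d1 y
  rw [add_sub_cancel_left, Real.norm_eq_abs] at hb
  have h2 : Real.log (ρ (x + v)) ≤ M * ‖v‖ + Real.log (ρ x) := by
    have := (le_abs_self _).trans hb
    linarith
  calc ρ (x + v) = Real.exp (Real.log (ρ (x + v))) := (Real.exp_log (h.pos _)).symm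
    _ ≤ Real.exp (M * ‖v‖ + Real.log (ρ x)) := Real.exp_le_exp.2 h2
    _ = _ := by rw [Real.exp_add, Real.exp_log (h.pos _)]

/-- (S2-Dj) -/
theorem stDj : StDj := by
  intro Cb c t d M lam b ρ h hρ
  have hd := h.d0
  have hx0 : d * Cb ≤ 1 / 6 := h.dC
  have hCb := h.Cb1
  have hx00 : 0 ≤ d * Cb := by positivity
  have hM := hρ.one
  have hs : |d| = d := abs_of_pos hd
  have eJ : Jt d lam b ρ = fun x => (1 - d * lam x) * ρ (x + d • b x) := rfl
  have key := fun x => dj_main h hρ.cd hs x (le_of_eq (abs_of_pos (hρ.pos (x + d • b x))))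
    (hρ.d1 _) (hρ.d2 _)
  have hpos : ∀ x, 0 < Jt d lam b ρ x := fun x =>
    mul_pos (by linarith [(key x).1.1]) (hρ.pos _)
  set y := d * Cb with hy
  refine ⟨?_, hpos, ?_, ?_, ?_, ?_, ?_⟩
  · rw [eJ]
    exact (key 0).2.1
  · have hc : Continuous (Jt d lam b ρ) := by
      rw [eJ]
      exact (key 0).2.1.continuous
    refine Integrable.mono' (hρ.int.const_mul (Real.exp (M * y))) hc.aestronglyMeasurable
      (Eventually.of_forall fun x => ?_)
    rw [Real.norm_eq_abs, abs_of_pos (hpos x)]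
    have h1 : ρ (x + d • b x) ≤ Real.exp (M * y) * ρ x := by
      refine (dj_log hρ x _).trans (mul_le_mul_of_nonneg_right ?_ (hρ.pos x).le)
      apply Real.exp_le_exp.2
      refine mul_le_mul_of_nonneg_left ?_ (by linarith)
      rw [norm_smul, Real.norm_eq_abs, hs]
      exact mul_le_mul_of_nonneg_left (h.cb.b0 x) hd.le
    calc (1 - d * lam x) * ρ (x + d • b x) ≤ 1 * ρ (x + d • b x) :=
          mul_le_mul_of_nonneg_right (key x).1.2 (hρ.pos _).le
      _ ≤ _ := by rw [one_mul]; exact h1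
  · obtain ⟨B, hB⟩ := hρ.bdd
    refine ⟨B, fun x => ?_⟩
    calc (1 - d * lam x) * ρ (x + d • b x) ≤ 1 * ρ (x + d • b x) :=
          mul_le_mul_of_nonneg_right (key x).1.2 (hρ.pos _).le
      _ ≤ B := by rw [one_mul]; exact hB _
  · nlinarith
  · intro x
    obtain ⟨⟨h1, h2⟩, -, h3, -⟩ := key x
    rw [eJ]
    refine h3.trans ?_
    set m := 1 - d * lam x with hm
    set r := ρ (x + d • b x) with hr
    have hr0 : 0 < r := hρ.pos _
    have h4 : y * r ≤ 6 / 5 * y * (m * (M * r)) := by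
      have h5 : r ≤ M * r := by nlinarith
      have h6 : M * r ≤ 6 / 5 * (m * (M * r)) := by
        have : 0 ≤ M * r := by positivity
        nlinarith
      calc y * r ≤ y * (6 / 5 * (m * (M * r))) := mul_le_mul_of_nonneg_left (h5.trans h6) hx00
        _ = _ := by ring
    have h7 : 0 ≤ y * (m * (M * r)) := by positivity
    calc m * (M * r * (1 + y / 8)) + y * r ≤ m * (M * r * (1 + y / 8)) +
          6 / 5 * y * (m * (M * r)) := by linarith
      _ ≤ M * (1 + 12 * y) * (m * r) := by nlinarith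
  · intro x
    obtain ⟨⟨h1, h2⟩, -, -, h3⟩ := key x
    rw [eJ]
    refine h3.trans ?_
    set m := 1 - d * lam x with hm
    set r := ρ (x + d • b x) with hr
    have hr0 : 0 < r := hρ.pos _
    have hMr : 0 ≤ M * r := by positivity
    have h6 : M * r ≤ 6 / 5 * (m * (M * r)) := by nlinarith
    have h5 : r ≤ 6 / 5 * (m * (M * r)) := le_trans (by nlinarith) h6
    set K := m * (M * r) with hK
    have hK0 : 0 ≤ K := by positivity
    have h4 : y * r ≤ 6 / 5 * y * K := by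
      calc y * r ≤ y * (6 / 5 * K) := mul_le_mul_of_nonneg_left h5 hx00
        _ = _ := by ring
    have h8 : 2 * y * (M * r * (1 + y / 8)) ≤ 2 * y * (6 / 5 * K * (1 + y / 8)) :=
      mul_le_mul_of_nonneg_left (mul_le_mul_of_nonneg_right h6 (by positivity)) (by positivity)
    have e1 : m * (M * r * (1 + y / 8) ^ 2 + M * r * y) = K * ((1 + y / 8) ^ 2 + y) := by
      rw [hK]; ring
    have hKy : 0 ≤ K * y := by positivity
    have hKyy : K * y * y ≤ K * y * (1 / 6) := mul_le_mul_of_nonneg_left hx0 hKy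
    calc m * (M * r * (1 + y / 8) ^ 2 + M * r * y) + 2 * y * (M * r * (1 + y / 8)) + y * r
        ≤ K * ((1 + y / 8) ^ 2 + y) + 2 * y * (6 / 5 * K * (1 + y / 8)) + 6 / 5 * y * K := by
          rw [e1]; linarith
      _ ≤ (1 + 12 * y) * K := by nlinarith
      _ = M * (1 + 12 * y) * (m * r) := by rw [hK]; ring

end Pool.Agent.TF.S2
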