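import Pool.Agent.TF.S2.Ch
import Pool.Agent.TF.S2.Dj

/-!
# Block S2, row Ad: `J~` is the adjoint of `J` up to `O(d²)` (StAd)
-/

set_option autoImplicit false

namespace Pool.Agent.TF.S2

open MeasureTheory Set Filter Topology Pool.Agent.TO Pool.Agent.TB
open scoped ENNReal NNReal Real InnerProductSpace

/-- Taylor's formula of order two -/
theorem ad_taylor {f : E3 → ℝ} (hf : ContDiff ℝ 2 f) (x v : E3) {K : ℝ}
    (hK : ∀ s ∈ Icc (0 : ℝ) 1, ‖fderiv ℝ (fderiv ℝ f) (x + s • v)‖ ≤ K) :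
    |f (x + v) - f x - fderiv ℝ f x v| ≤ K * ‖v‖ ^ 2 / 2 := by
  have hf1 : Differentiable ℝ f := hf.differentiable (by norm_num)
  have hf2 : Differentiable ℝ (fderiv ℝ f) :=
    (hf.fderiv_right (m := 1) (by norm_num)).differentiable (by norm_num)
  have hline : ∀ s : ℝ, HasDerivAt (fun s : ℝ => x + s • v) v s := fun s => by
    simpa using ((hasDerivAt_id s).smul_const v).const_add x
  have h1 : ∀ s : ℝ, HasDerivAt (fun s : ℝ => f (x + s • v)) (fderiv ℝ f (x + s • v) v) s :=
    fun s => (hf1 _).hasFDerivAt.comp_hasDerivAt s (hline s)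
  have h2 : ∀ s : ℝ, HasDerivAt (fun s : ℝ => fderiv ℝ f (x + s • v) v)
      (fderiv ℝ (fderiv ℝ f) (x + s • v) v v) s := fun s => by
    have h := (hf2 (x + s • v)).hasFDerivAt.comp_hasDerivAt s (hline s)
    have h' := h.clm_apply (hasDerivAt_const s v)
    simpa using h'
  have b1 : ∀ s ∈ Icc (0 : ℝ) 1, ‖fderiv ℝ f (x + s • v) v - fderiv ℝ f x v‖ ≤
      K * ‖v‖ ^ 2 * s := by
    refine image_norm_le_of_norm_deriv_right_le_deriv_boundary
      (f := fun s : ℝ => fderiv ℝ f (x + s • v) v - fderiv ℝ f x v)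
      (f' := fun s : ℝ => fderiv ℝ (fderiv ℝ f) (x + s • v) v v)
      (B := fun s => K * ‖v‖ ^ 2 * s) (B' := fun _ => K * ‖v‖ ^ 2)
      (fun s _ => ((h2 s).sub_const _).continuousAt.continuousWithinAt)
      (fun s _ => ((h2 s).sub_const _).hasDerivWithinAt) (by simp)
      (fun s => by simpa using (hasDerivAt_id s).const_mul (K * ‖v‖ ^ 2)) ?_
    intro s hs
    refine (ContinuousLinearMap.le_opNorm₂ _ v v).trans ?_
    rw [mul_assoc, ← pow_two]
    exact mul_le_mul_of_nonneg_right (hK s ⟨hs.1, hs.2.le⟩) (by positivity)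
  have b2 : ∀ s ∈ Icc (0 : ℝ) 1, ‖f (x + s • v) - f x - s * fderiv ℝ f x v‖ ≤
      K * ‖v‖ ^ 2 * s ^ 2 / 2 := by
    have h3 : ∀ s : ℝ, HasDerivAt (fun s : ℝ => f (x + s • v) - f x - s * fderiv ℝ f x v)
        (fderiv ℝ f (x + s • v) v - fderiv ℝ f x v) s := fun s => by
      have h4 := ((h1 s).sub_const (f x)).sub ((hasDerivAt_id s).mul_const (fderiv ℝ f x v))
      rw [one_mul] at h4
      exact h4
    refine image_norm_le_of_norm_deriv_right_le_deriv_boundary
      (f := fun s : ℝ => f (x + s • v) - f x - s * fderiv ℝ f x v)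
      (f' := fun s : ℝ => fderiv ℝ f (x + s • v) v - fderiv ℝ f x v)
      (B := fun s => K * ‖v‖ ^ 2 * s ^ 2 / 2) (B' := fun s => K * ‖v‖ ^ 2 * s)
      (fun s _ => (h3 s).continuousAt.continuousWithinAt)
      (fun s _ => (h3 s).hasDerivWithinAt) (by simp) (fun s => ?_) ?_
    · have h4 := (((hasDerivAt_id s).pow 2).const_mul (K * ‖v‖ ^ 2)).div_const 2
      refine h4.congr_deriv ?_
      simp only [id]
      push_cast
      ring
    · intro s hs
      exact b1 s ⟨hs.1, hs.2.le⟩
  have h5 := b2 1 ⟨zero_le_one, le_rfl⟩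
  simpa using h5

/-- **(S2-Ad)** -/
theorem stAd : StAd := by
  intro Cb c t d M B lam b ρ f h hρ hf hM6
  have hd := h.d0
  have hCb : 0 ≤ Cb := zero_le_one.trans h.Cb1
  have hM := hρ.one
  have hB : 0 ≤ B := (norm_nonneg _).trans (hf.b0 0)
  set y := d * Cb with hy
  have hy0 : 0 ≤ y := mul_nonneg hd.le hCb
  have hy6 : y ≤ 1 / 6 := h.dC
  have hlam : ∀ x, 0 ≤ d * lam x ∧ d * lam x ≤ 1 / 6 := fun x => by
    refine ⟨mul_nonneg hd.le (h.nn x), le_trans (mul_le_mul_of_nonneg_left ?_ hd.le) hy6⟩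
    have := h.cl.b0 x
    rwa [Real.norm_eq_abs, abs_of_nonneg (h.nn x)] at this
  have hv : ∀ x, ‖d • b x‖ ≤ y := fun x => by
    rw [norm_smul, Real.norm_eq_abs, abs_of_pos hd]
    exact mul_le_mul_of_nonneg_left (h.cb.b0 x) hd.le
  have hexp : Real.exp (M * y) ≤ 6 / 5 := by
    have h1 : Real.exp (M * y) ≤ 1 / (1 - M * y) := by
      rw [le_div_iff₀ (by linarith)]
      have h2 := Real.add_one_le_exp (-(M * y))
      have h3 : Real.exp (M * y) * Real.exp (-(M * y)) = 1 := by
        rw [← Real.exp_add]; simp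
      nlinarith [Real.exp_pos (M * y)]
    refine h1.trans ?_
    rw [div_le_iff₀ (by linarith)]
    linarith
  -- Taylor
  have hR1 : ∀ x, |ρ (x + d • b x) - ρ x - fderiv ℝ ρ x (d • b x)| ≤
      3 / 5 * M * y ^ 2 * ρ x := by
    intro x
    have hK : ∀ s ∈ Icc (0 : ℝ) 1, ‖fderiv ℝ (fderiv ℝ ρ) (x + s • (d • b x))‖ ≤
        M * (6 / 5 * ρ x) := by
      intro s hs
      refine (hρ.d2 _).trans (mul_le_mul_of_nonneg_left ?_ (by linarith))
      refine (dj_log hρ x _).trans (mul_le_mul_of_nonneg_right ?_ (hρ.pos x).le)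
      refine (Real.exp_le_exp.2 (mul_le_mul_of_nonneg_left ?_ (by linarith))).trans hexp
      rw [norm_smul, Real.norm_eq_abs, abs_of_nonneg hs.1]
      calc s * ‖d • b x‖ ≤ 1 * y := mul_le_mul hs.2 (hv x) (norm_nonneg _) zero_le_one
        _ = y := one_mul y
    refine (ad_taylor hρ.cd x _ hK).trans ?_
    have h1 : ‖d • b x‖ ^ 2 ≤ y ^ 2 := pow_le_pow_left₀ (norm_nonneg _) (hv x) 2
    have h2 : 0 ≤ M * (6 / 5 * ρ x) := by have := hρ.pos x; positivity
    calc M * (6 / 5 * ρ x) * ‖d • b x‖ ^ 2 / 2 ≤ M * (6 / 5 * ρ x) * y ^ 2 / 2 := by gcongr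
      _ = _ := by ring
  have hR2 : ∀ x, |f (x - d • b x) - f x + fderiv ℝ f x (d • b x)| ≤ B * y ^ 2 / 2 := by
    intro x
    have h0 := ad_taylor hf.cd x (-(d • b x)) (K := B) (fun s _ => hf.b2 _)
    rw [norm_neg, map_neg, sub_neg_eq_add, ← sub_eq_add_neg] at h0
    refine h0.trans ?_
    have h1 : ‖d • b x‖ ^ 2 ≤ y ^ 2 := pow_le_pow_left₀ (norm_nonneg _) (hv x) 2
    gcongr
  -- continuity and integrability
  have clam : Continuous lam := h.cl.cd.continuous
  have cb : Continuous b := h.cb.cd.continuous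
  have cρ : Continuous ρ := hρ.cd.continuous
  have cf : Continuous f := hf.cd.continuous
  have dlam : Differentiable ℝ lam := h.cl.cd.differentiable (by norm_num)
  have db : Differentiable ℝ b := h.cb.cd.differentiable (by norm_num)
  have dρ : Differentiable ℝ ρ := hρ.cd.differentiable (by norm_num)
  have df : Differentiable ℝ f := hf.cd.differentiable (by norm_num)
  have hint : ∀ (F : E3 → ℝ) (C : ℝ), Continuous F → (∀ x, |F x| ≤ C * ρ x) → Integrable F :=
    fun F C hF hC => (hρ.int.const_mul C).mono' hF.aestronglyMeasurable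
      (Eventually.of_forall fun x => by rw [Real.norm_eq_abs]; exact hC x)
  -- the product
  let g : E3 → ℝ := fun x => (1 - d * lam x) * ρ x * f x
  have hg2 : ContDiff ℝ 2 g :=
    ((contDiff_const.sub (contDiff_const.mul h.cl.cd)).mul hρ.cd).mul hf.cd
  have hgd : Differentiable ℝ g := hg2.differentiable (by norm_num)
  have hgf : ∀ x v, fderiv ℝ g x v = (1 - d * lam x) * (fderiv ℝ ρ x v * f x +
      ρ x * fderiv ℝ f x v) - d * fderiv ℝ lam x v * (ρ x * f x) := by
    intro x v
    have h1 : HasFDerivAt (fun x => 1 - d * lam x) (-(d • fderiv ℝ lam x)) x :=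
      ((dlam x).hasFDerivAt.const_mul d).const_sub 1
    have h2 := (h1.mul (dρ x).hasFDerivAt).mul (df x).hasFDerivAt
    have h3 : fderiv ℝ g x = _ := h2.fderiv
    rw [h3]
    simp only [add_apply, smul_apply, neg_apply, smul_eq_mul, Pi.mul_apply]
    ring
  have hgb : ∀ x, ‖fderiv ℝ g x‖ ≤ (B * M + B + y * B) * ρ x := by
    intro x
    have hρx := hρ.pos x
    apply ContinuousLinearMap.opNorm_le_bound _ (by positivity)
    intro v
    rw [hgf, Real.norm_eq_abs]
    have a1 : |fderiv ℝ ρ x v| ≤ M * ρ x * ‖v‖ :=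
      ((fderiv ℝ ρ x).le_opNorm v).trans (mul_le_mul_of_nonneg_right (hρ.d1 x) (norm_nonneg _))
    have a2 : |fderiv ℝ f x v| ≤ B * ‖v‖ :=
      ((fderiv ℝ f x).le_opNorm v).trans (mul_le_mul_of_nonneg_right (hf.b1 x) (norm_nonneg _))
    have a3 : |fderiv ℝ lam x v| ≤ Cb * ‖v‖ :=
      ((fderiv ℝ lam x).le_opNorm v).trans
        (mul_le_mul_of_nonneg_right (h.cl.b1 x) (norm_nonneg _))
    have a4 : |f x| ≤ B := hf.b0 x
    have a5 : |1 - d * lam x| ≤ 1 := by
      rw [abs_le]; constructor <;> linarith [(hlam x).1, (hlam x).2]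
    have a6 : |ρ x| = ρ x := abs_of_pos hρx
    have n1 : |(1 - d * lam x) * (fderiv ℝ ρ x v * f x + ρ x * fderiv ℝ f x v)| ≤
        1 * (M * ρ x * ‖v‖ * B + ρ x * (B * ‖v‖)) := by
      rw [abs_mul]
      refine mul_le_mul a5 ((abs_add_le _ _).trans (add_le_add ?_ ?_)) (abs_nonneg _) zero_le_one
      · rw [abs_mul]
        exact mul_le_mul a1 a4 (abs_nonneg _) (by positivity)
      · rw [abs_mul, a6]
        exact mul_le_mul_of_nonneg_left a2 hρx.le
    have n2 : |d * fderiv ℝ lam x v * (ρ x * f x)| ≤ d * (Cb * ‖v‖) * (ρ x * B) := by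
      rw [abs_mul, abs_mul, abs_mul, abs_of_pos hd, a6]
      exact mul_le_mul (mul_le_mul_of_nonneg_left a3 hd.le) (mul_le_mul_of_nonneg_left a4 hρx.le)
        (by positivity) (by positivity)
    refine (abs_sub _ _).trans ((add_le_add n1 n2).trans (le_of_eq ?_))
    rw [hy]
    ring
  have hg0 : ∀ x, |g x| ≤ B * ρ x := by
    intro x
    have hρx := hρ.pos x
    have a5 : |1 - d * lam x| ≤ 1 := by
      rw [abs_le]; constructor <;> linarith [(hlam x).1, (hlam x).2]
    change |(1 - d * lam x) * ρ x * f x| ≤ _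
    rw [abs_mul, abs_mul, abs_of_pos hρx]
    have a4 : |f x| ≤ B := hf.b0 x
    calc |1 - d * lam x| * ρ x * |f x| ≤ 1 * ρ x * B := by gcongr
      _ = _ := by ring
  have cg : Continuous g := hg2.continuous
  have cg' : Continuous (fderiv ℝ g) := hg2.continuous_fderiv (by norm_num)
  have cb' : Continuous (fderiv ℝ b) := h.cb.cd.continuous_fderiv (by norm_num)
  -- integration by parts
  have hbi : ∀ i x, HasFDerivAt (fun x => b x i)
      ((EuclideanSpace.proj i : E3 →L[ℝ] ℝ).comp (fderiv ℝ b x)) x := fun i x =>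
    (EuclideanSpace.proj i : E3 →L[ℝ] ℝ).hasFDerivAt.comp x (db x).hasFDerivAt
  have hbi' : ∀ i x v, fderiv ℝ (fun x => b x i) x v = fderiv ℝ b x v i := fun i x v => by
    rw [(hbi i x).fderiv]
    rfl
  have hbn : ∀ i x, |b x i| ≤ Cb := fun i x => (ch_abs_coord _ i).trans (h.cb.b0 x)
  have hbn' : ∀ i x, |fderiv ℝ b x (ee i) i| ≤ Cb := fun i x => by
    refine (ch_abs_coord _ i).trans (((fderiv ℝ b x).le_opNorm (ee i)).trans ?_)
    rw [ch_norm_ee, mul_one]
    exact h.cb.b1 x
  have cbi : ∀ i, Continuous fun x => b x i := fun i =>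
    (EuclideanSpace.proj i : E3 →L[ℝ] ℝ).continuous.comp cb
  have cbi' : ∀ i, Continuous fun x => fderiv ℝ b x (ee i) i := fun i =>
    (EuclideanSpace.proj i : E3 →L[ℝ] ℝ).continuous.comp (cb'.clm_apply continuous_const)
  set C1 := B * M + B + y * B with hC1
  have hC10 : 0 ≤ C1 := by positivity
  have i1 : ∀ i, Integrable fun x => b x i * fderiv ℝ g x (ee i) := fun i => by
    refine hint _ (Cb * C1) ((cbi i).mul (cg'.clm_apply continuous_const)) fun x => ?_
    rw [abs_mul, mul_assoc]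
    refine mul_le_mul (hbn i x) ?_ (abs_nonneg _) hCb
    refine ((fderiv ℝ g x).le_opNorm (ee i)).trans ?_
    rw [ch_norm_ee, mul_one]
    exact hgb x
  have i2 : ∀ i, Integrable fun x => fderiv ℝ b x (ee i) i * g x := fun i => by
    refine hint _ (Cb * B) ((cbi' i).mul cg) fun x => ?_
    rw [abs_mul, mul_assoc]
    exact mul_le_mul (hbn' i x) (hg0 x) (abs_nonneg _) hCb
  have i3 : ∀ i, Integrable fun x => b x i * g x := fun i => by
    refine hint _ (Cb * B) ((cbi i).mul cg) fun x => ?_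
    rw [abs_mul, mul_assoc]
    exact mul_le_mul (hbn i x) (hg0 x) (abs_nonneg _) hCb
  have ibp : ∀ i, ∫ x, b x i * fderiv ℝ g x (ee i) = -∫ x, fderiv ℝ b x (ee i) i * g x := by
    intro i
    have h1 := integral_mul_fderiv_eq_neg_fderiv_mul_of_integrable (μ := (volume : Measure E3))
      (f := fun x => b x i) (g := g) (v := ee i) (by simpa only [hbi'] using i2 i) (i1 i) (i3 i)
      (fun x _ => (hbi i x).differentiableAt) (fun x _ => hgd x)
    simpa only [hbi'] using h1
  have hsum : ∀ x, fderiv ℝ g x (b x) = ∑ i, b x i * fderiv ℝ g x (ee i) := by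
    intro x
    have h1 : b x = ∑ i, b x i • (ee i : E3) := by
      have := (EuclideanSpace.basisFun (Fin 3) ℝ).sum_repr (b x)
      simpa [ee] using this.symm
    conv_lhs => rw [h1]
    rw [map_sum]
    simp only [map_smul, smul_eq_mul]
  have hzero : ∫ x, fderiv ℝ g x (b x) = 0 := by
    simp only [hsum]
    rw [integral_finsetSum _ fun i _ => i1 i]
    simp only [ibp]
    rw [Finset.sum_neg_distrib, ← integral_finsetSum _ fun i _ => i2 i]
    have : ∀ x, ∑ i, fderiv ℝ b x (ee i) i * g x = 0 := fun x => by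
      rw [← Finset.sum_mul, h.dv x, zero_mul]
    simp only [this]
    simp
  have hgbi : Integrable fun x => fderiv ℝ g x (b x) := by
    simp only [hsum]
    exact integrable_finsetSum _ fun i _ => i1 i
  -- the decomposition
  let rest : E3 → ℝ := fun x => d * (d * fderiv ℝ lam x (b x)) * (ρ x * f x) +
    (1 - d * lam x) * ((ρ (x + d • b x) - ρ x - fderiv ℝ ρ x (d • b x)) * f x -
      ρ x * (f (x - d • b x) - f x + fderiv ℝ f x (d • b x)))
  have hdec : ∀ x, Jt d lam b ρ x * f x - ρ x * J d lam b f x =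
      d * fderiv ℝ g x (b x) + rest x := by
    intro x
    change (1 - d * lam x) * ρ (x + d • b x) * f x -
      ρ x * ((1 - d * lam x) * f (x - d • b x)) = d * fderiv ℝ g x (b x) +
      (d * (d * fderiv ℝ lam x (b x)) * (ρ x * f x) +
      (1 - d * lam x) * ((ρ (x + d • b x) - ρ x - fderiv ℝ ρ x (d • b x)) * f x -
      ρ x * (f (x - d • b x) - f x + fderiv ℝ f x (d • b x))))
    rw [hgf, map_smul, map_smul, smul_eq_mul, smul_eq_mul]
    ring
  have hrest : ∀ x, |rest x| ≤ 3 * M * B * y ^ 2 * ρ x := by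
    intro x
    have hρx := hρ.pos x
    have a1 : |fderiv ℝ lam x (b x)| ≤ Cb * Cb :=
      ((fderiv ℝ lam x).le_opNorm (b x)).trans
        (mul_le_mul (h.cl.b1 x) (h.cb.b0 x) (norm_nonneg _) hCb)
    have a4 : |f x| ≤ B := hf.b0 x
    have a5 : |1 - d * lam x| ≤ 1 := by
      rw [abs_le]; constructor <;> linarith [(hlam x).1, (hlam x).2]
    have n1 : |d * (d * fderiv ℝ lam x (b x)) * (ρ x * f x)| ≤
        d * (d * (Cb * Cb)) * (ρ x * B) := by
      rw [abs_mul, abs_mul, abs_mul, abs_mul, abs_of_pos hd, abs_of_pos hρx]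
      gcongr
    have n2 : |(1 - d * lam x) * ((ρ (x + d • b x) - ρ x - fderiv ℝ ρ x (d • b x)) * f x -
        ρ x * (f (x - d • b x) - f x + fderiv ℝ f x (d • b x)))| ≤
        1 * (3 / 5 * M * y ^ 2 * ρ x * B + ρ x * (B * y ^ 2 / 2)) := by
      rw [abs_mul]
      refine mul_le_mul a5 ((abs_sub _ _).trans (add_le_add ?_ ?_)) (abs_nonneg _) zero_le_one
      · rw [abs_mul]
        exact mul_le_mul (hR1 x) a4 (abs_nonneg _) (by positivity)
      · rw [abs_mul, abs_of_pos hρx]
        exact mul_le_mul_of_nonneg_left (hR2 x) hρx.le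
    refine (abs_add_le _ _).trans ((add_le_add n1 n2).trans ?_)
    have e1 : d * (d * (Cb * Cb)) = y ^ 2 := by rw [hy]; ring
    rw [e1]
    have hq : 0 ≤ y ^ 2 * ρ x * B := by positivity
    nlinarith
  have hJt : Integrable fun x => Jt d lam b ρ x * f x := by
    refine hint _ (6 / 5 * B) ?_ fun x => ?_
    · exact ((continuous_const.sub (continuous_const.mul clam)).mul
        (cρ.comp (continuous_id.add (cb.const_smul d)))).mul cf
    · have hρx := hρ.pos x
      have a4 : |f x| ≤ B := hf.b0 x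
      have a5 : |1 - d * lam x| ≤ 1 := by
        rw [abs_le]; constructor <;> linarith [(hlam x).1, (hlam x).2]
      have a7 : |ρ (x + d • b x)| ≤ 6 / 5 * ρ x := by
        rw [abs_of_pos (hρ.pos _)]
        refine (dj_log hρ x _).trans (mul_le_mul_of_nonneg_right ?_ hρx.le)
        exact (Real.exp_le_exp.2 (mul_le_mul_of_nonneg_left (hv x) (by linarith))).trans hexp
      change |(1 - d * lam x) * ρ (x + d • b x) * f x| ≤ _
      rw [abs_mul, abs_mul]
      calc |1 - d * lam x| * |ρ (x + d • b x)| * |f x| ≤ 1 * (6 / 5 * ρ x) * B := by gcongr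
        _ = _ := by ring
  have hJ : Integrable fun x => ρ x * J d lam b f x := by
    refine hint _ B ?_ fun x => ?_
    · exact cρ.mul ((continuous_const.sub (continuous_const.mul clam)).mul
        (cf.comp (continuous_id.sub (cb.const_smul d))))
    · have hρx := hρ.pos x
      have a4 : |f (x - d • b x)| ≤ B := hf.b0 _
      have a5 : |1 - d * lam x| ≤ 1 := by
        rw [abs_le]; constructor <;> linarith [(hlam x).1, (hlam x).2]
      change |ρ x * ((1 - d * lam x) * f (x - d • b x))| ≤ _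
      rw [abs_mul, abs_mul, abs_of_pos hρx]
      calc ρ x * (|1 - d * lam x| * |f (x - d • b x)|) ≤ ρ x * (1 * B) := by gcongr
        _ = _ := by ring
  have hrI : Integrable rest := by
    have h1 : Integrable fun x => (Jt d lam b ρ x * f x - ρ x * J d lam b f x) -
        d * fderiv ℝ g x (b x) := (hJt.sub hJ).sub (hgbi.const_mul d)
    refine h1.congr (Eventually.of_forall fun x => ?_)
    change (Jt d lam b ρ x * f x - ρ x * J d lam b f x) - d * fderiv ℝ g x (b x) = rest x
    rw [hdec]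
    ring
  rw [← integral_sub hJt hJ]
  simp only [hdec]
  rw [integral_add (hgbi.const_mul d) hrI, integral_const_mul, hzero, mul_zero, zero_add]
  have hfin : ‖∫ x, rest x‖ ≤ ∫ x, 3 * M * B * y ^ 2 * ρ x :=
    norm_integral_le_of_norm_le (hρ.int.const_mul _) (Eventually.of_forall fun x => hrest x)
  rw [integral_const_mul] at hfin
  exact hfin

end Pool.Agent.TF.S2
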