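import Pool.Agent.TF.S2.Def

/-!
# Block S2, row Be: Bessel's inequality for the Gaussian (helper63)
-/

set_option autoImplicit false

namespace Pool.Agent.TF.S2

open MeasureTheory Set Filter Topology Pool.Agent.TO Pool.Agent.TB
open scoped ENNReal NNReal Real InnerProductSpace

theorem be_integral {d : ℝ} (hd : 0 < d) (g : E3 → ℝ) :
    ∫ y, g y ∂(gam d) = ∫ y, hk d y * g y := by
  rw [gam, integral_withDensity_eq_integral_toReal_smul (meas_hk d)
    (Eventually.of_forall fun y => ENNReal.ofReal_lt_top)]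
  congr 1
  ext y
  rw [ENNReal.toReal_ofReal (hk_pos hd y).le, smul_eq_mul]

theorem be_integrable {d : ℝ} (hd : 0 < d) {g : E3 → ℝ} (hg : Integrable g (gam d)) :
    Integrable (fun y => hk d y * g y) := by
  rw [gam, integrable_withDensity_iff_integrable_smul' (meas_hk d)
    (Eventually.of_forall fun y => ENNReal.ofReal_lt_top)] at hg
  refine hg.congr (Eventually.of_forall fun y => ?_)
  simp only [ENNReal.toReal_ofReal (hk_pos hd y).le, smul_eq_mul]

theorem be_sq {d : ℝ} (hd : 0 < d) : Integrable (fun y : E3 => ‖y‖ ^ 2) (gam d) := by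
  refine ⟨by fun_prop, ?_⟩
  have h := second_moment hd
  refine lt_of_le_of_lt ?_ (lt_of_le_of_lt h ENNReal.ofReal_lt_top)
  apply lintegral_mono
  intro y
  simp only [enorm_pow, enorm_norm, le_refl]

theorem be_fderiv {d : ℝ} (hd : 0 < d) (y w : E3) :
    DifferentiableAt ℝ (hk d) y ∧ fderiv ℝ (hk d) y w = -(⟪y, w⟫_ℝ / (2 * d)) * hk d y := by
  have h1 : HasFDerivAt (fun y : E3 => ‖y‖ ^ 2) (2 • (innerSL ℝ y)) y :=
    (hasStrictFDerivAt_norm_sq y).hasFDerivAt
  have h0 : HasFDerivAt (fun y : E3 => -‖y‖ ^ 2 * (4 * d)⁻¹)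
      ((4 * d)⁻¹ • -(((2 : ℕ) • (innerSL ℝ y) : E3 →L[ℝ] ℝ))) y := h1.neg.mul_const (4 * d)⁻¹
  have h2 := (h0.exp).const_mul ((4 * π * d) ^ (-(3 / 2) : ℝ))
  have h3 : hk d = fun y => (4 * π * d) ^ (-(3 / 2) : ℝ) *
      Real.exp (-‖y‖ ^ 2 * (4 * d)⁻¹) := by
    ext y
    rfl
  rw [h3]
  refine ⟨h2.differentiableAt, ?_⟩
  rw [h2.fderiv]
  simp only [_root_.smul_apply, _root_.neg_apply, innerSL_apply_apply,
    smul_eq_mul, nsmul_eq_mul]
  push_cast
  field_simp
  ring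

/-- Gaussian integration by parts -/
theorem be_parts {d : ℝ} (hd : 0 < d) (w : E3) {F : E3 → ℝ} (hF : Differentiable ℝ F)
    (h1 : Integrable F (gam d)) (h2 : Integrable (fun y => F y * ⟪y, w⟫_ℝ) (gam d))
    (h3 : Integrable (fun y => fderiv ℝ F y w) (gam d)) :
    ∫ y, F y * ⟪y, w⟫_ℝ ∂(gam d) = 2 * d * ∫ y, fderiv ℝ F y w ∂(gam d) := by
  have hp := integral_mul_fderiv_eq_neg_fderiv_mul_of_integrable (μ := (volume : Measure E3))
    (f := F) (g := hk d) (v := w)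
    (by
      refine (be_integrable hd h3).congr (Eventually.of_forall fun y => ?_)
      simp only [mul_comm])
    (by
      refine ((be_integrable hd h2).const_mul (-(1 / (2 * d)))).congr
        (Eventually.of_forall fun y => ?_)
      simp only [(be_fderiv hd y w).2]
      ring)
    (by
      refine (be_integrable hd h1).congr (Eventually.of_forall fun y => ?_)
      simp only [mul_comm])
    (fun y _ => hF y) (fun y _ => (be_fderiv hd y w).1)
  rw [be_integral hd, be_integral hd]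
  have e1 : ∫ y, F y * fderiv ℝ (hk d) y w = -(1 / (2 * d)) * ∫ y, hk d y * (F y * ⟪y, w⟫_ℝ) := by
    rw [← integral_const_mul]
    congr 1
    ext y
    rw [(be_fderiv hd y w).2]
    ring
  have e2 : ∫ y, fderiv ℝ F y w * hk d y = ∫ y, hk d y * fderiv ℝ F y w := by
    congr 1
    ext y
    ring
  rw [e1, e2] at hp
  generalize (∫ y, hk d y * (F y * ⟪y, w⟫_ℝ)) = P at hp ⊢
  generalize (∫ y, hk d y * fderiv ℝ F y w) = Q at hp ⊢
  have hd' : d ≠ 0 := hd.ne'
  field_simp at hp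
  linarith

/-- **Row Be.** -/
theorem stBe (hAv : StAv) (hGa : StGa) : StBe := by
  intro B d f hd hf x
  obtain ⟨hS, hH⟩ := hGa d hd
  have hpr := hS.prob
  obtain ⟨hA1, -, -⟩ := hAv (gam d) hS
  obtain ⟨-, hd1, -⟩ := hA1 B f hf
  have hfc : Continuous f := hf.cd.continuous
  have hDc : Continuous (fderiv ℝ f) := hf.cd.continuous_fderiv (by norm_num)
  have hfd : Differentiable ℝ f := hf.cd.differentiable (by norm_num)
  have hB0 : 0 ≤ B := (norm_nonneg _).trans (hf.b0 0)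
  -- the gradient
  set L : E3 →L[ℝ] ℝ := fderiv ℝ (heat d f) x with hL
  set w : E3 := (InnerProductSpace.toDual ℝ E3).symm L with hw
  have hLw : ∀ h, L h = ⟪w, h⟫_ℝ := by
    intro h
    rw [hw, InnerProductSpace.toDual_symm_apply]
  have hnw : ‖w‖ = ‖L‖ := by rw [hw, LinearIsometryEquiv.norm_map]
  have hLi : L = ∫ y, fderiv ℝ f (x - y) ∂(gam d) := by rw [hL, hH f, hd1]
  have hDi : Integrable (fun y => fderiv ℝ f (x - y)) (gam d) := by
    refine Integrable.of_bound ?_ B (Eventually.of_forall fun y => hf.b1 _)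
    exact (hDc.comp (continuous_const.sub continuous_id)).aestronglyMeasurable
  have hLw2 : ∫ y, fderiv ℝ f (x - y) w ∂(gam d) = ‖w‖ ^ 2 := by
    rw [← ContinuousLinearMap.integral_apply hDi w, ← hLi, hLw, real_inner_self_eq_norm_sq]
  -- integrability
  set F : E3 → ℝ := fun y => f (x - y) with hF
  have hFc : Continuous F := hfc.comp (continuous_const.sub continuous_id)
  have hFd : Differentiable ℝ F := hfd.comp ((differentiable_const x).sub differentiable_id)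
  have hFb : ∀ y, ‖F y‖ ≤ B := fun y => hf.b0 _
  have i1 : Integrable F (gam d) :=
    Integrable.of_bound hFc.aestronglyMeasurable B (Eventually.of_forall hFb)
  have i2 : Integrable (fun y => F y ^ 2) (gam d) := by
    refine Integrable.of_bound (hFc.pow 2).aestronglyMeasurable (B ^ 2)
      (Eventually.of_forall fun y => ?_)
    rw [norm_pow]
    exact pow_le_pow_left₀ (norm_nonneg _) (hFb y) 2
  have hic : Continuous (fun y : E3 => ⟪y, w⟫_ℝ) := continuous_id.inner continuous_const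
  have i4 : Integrable (fun y : E3 => ⟪y, w⟫_ℝ * ⟪y, w⟫_ℝ) (gam d) := by
    refine ((be_sq hd).const_mul (‖w‖ ^ 2)).mono' (hic.mul hic).aestronglyMeasurable
      (Eventually.of_forall fun y => ?_)
    rw [norm_mul]
    have h := norm_inner_le_norm (𝕜 := ℝ) y w
    calc ‖⟪y, w⟫_ℝ‖ * ‖⟪y, w⟫_ℝ‖ ≤ (‖y‖ * ‖w‖) * (‖y‖ * ‖w‖) :=
          mul_le_mul h h (norm_nonneg _) (by positivity)
      _ = ‖w‖ ^ 2 * ‖y‖ ^ 2 := by ring
  have i3 : Integrable (fun y : E3 => ⟪y, w⟫_ℝ) (gam d) := by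
    refine ((integrable_const (1:ℝ)).add i4).mono' hic.aestronglyMeasurable
      (Eventually.of_forall fun y => ?_)
    simp only [Pi.add_apply, Real.norm_eq_abs]
    have := abs_mul_abs_self (⟪y, w⟫_ℝ)
    nlinarith [sq_nonneg (|⟪y, w⟫_ℝ| - 1)]
  have i5 : Integrable (fun y : E3 => F y * ⟪y, w⟫_ℝ) (gam d) :=
    i3.bdd_mul hFc.aestronglyMeasurable (Eventually.of_forall hFb)
  -- first moments
  have hFf : ∀ y, fderiv ℝ F y w = - fderiv ℝ f (x - y) w := by
    intro y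
    have h1 : HasFDerivAt F ((fderiv ℝ f (x - y)).comp (-(ContinuousLinearMap.id ℝ E3))) y :=
      (hfd (x - y)).hasFDerivAt.comp y ((hasFDerivAt_id y).const_sub x)
    rw [h1.fderiv]
    simp
  have hDiw : Integrable (fun y => fderiv ℝ f (x - y) w) (gam d) :=
    hDi.apply_continuousLinearMap w
  have m1 : ∫ y, F y * ⟪y, w⟫_ℝ ∂(gam d) = -(2 * d * ‖w‖ ^ 2) := by
    rw [be_parts hd w hFd i1 i5]
    · simp only [hFf]
      rw [integral_neg, hLw2]
      ring
    · simp only [hFf]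
      exact hDiw.neg
  have hwd : Differentiable ℝ (fun y : E3 => ⟪y, w⟫_ℝ) :=
    differentiable_id.inner ℝ (differentiable_const w)
  have hwf : ∀ y, fderiv ℝ (fun y : E3 => ⟪y, w⟫_ℝ) y w = ‖w‖ ^ 2 := by
    intro y
    have h1 : (fun y : E3 => ⟪y, w⟫_ℝ) = fun y => innerSL ℝ w y := by
      ext y
      rw [innerSL_apply_apply, real_inner_comm]
    rw [h1, ContinuousLinearMap.fderiv, innerSL_apply_apply, real_inner_self_eq_norm_sq]
  have m2 : ∫ y : E3, ⟪y, w⟫_ℝ * ⟪y, w⟫_ℝ ∂(gam d) = 2 * d * ‖w‖ ^ 2 := by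
    rw [be_parts hd w hwd i3 i4]
    · simp only [hwf]
      simp
    · simp only [hwf]
      exact integrable_const _
  have m3 : ∫ y : E3, ⟪y, w⟫_ℝ ∂(gam d) = 0 := by
    have h := be_parts hd w (F := fun _ => (1:ℝ)) (differentiable_const _) (integrable_const _)
      (by simpa using i3) (by simp)
    simpa using h
  -- conclusion
  set a : ℝ := ∫ y, F y ∂(gam d) with ha
  have hha : heat d f x = a := by rw [heat_eq hd]
  have hh2 : heat d (fun y => f y ^ 2) x = ∫ y, F y ^ 2 ∂(gam d) := by rw [heat_eq hd]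
  have hpos : 0 ≤ ∫ y, (F y - a + ⟪y, w⟫_ℝ) ^ 2 ∂(gam d) := integral_nonneg fun y => sq_nonneg _
  have hexp : ∫ y, (F y - a + ⟪y, w⟫_ℝ) ^ 2 ∂(gam d) =
      (∫ y, F y ^ 2 ∂(gam d)) + a ^ 2 + (∫ y : E3, ⟪y, w⟫_ℝ * ⟪y, w⟫_ℝ ∂(gam d)) -
      2 * a * (∫ y, F y ∂(gam d)) + 2 * (∫ y, F y * ⟪y, w⟫_ℝ ∂(gam d)) -
      2 * a * ∫ y : E3, ⟪y, w⟫_ℝ ∂(gam d) := by
    have e1 : ∀ y : E3, (F y - a + ⟪y, w⟫_ℝ) ^ 2 = F y ^ 2 + a ^ 2 + ⟪y, w⟫_ℝ * ⟪y, w⟫_ℝ -
        2 * a * F y + 2 * (F y * ⟪y, w⟫_ℝ) - 2 * a * ⟪y, w⟫_ℝ := fun y => by ring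
    simp only [e1]
    have j1 : Integrable (fun y : E3 => F y ^ 2 + a ^ 2) (gam d) := i2.add (integrable_const _)
    have j2 : Integrable (fun y : E3 => F y ^ 2 + a ^ 2 + ⟪y, w⟫_ℝ * ⟪y, w⟫_ℝ) (gam d) :=
      j1.add i4
    have j3 : Integrable (fun y : E3 => F y ^ 2 + a ^ 2 + ⟪y, w⟫_ℝ * ⟪y, w⟫_ℝ -
        2 * a * F y) (gam d) := j2.sub (i1.const_mul _)
    have j4 : Integrable (fun y : E3 => F y ^ 2 + a ^ 2 + ⟪y, w⟫_ℝ * ⟪y, w⟫_ℝ -
        2 * a * F y + 2 * (F y * ⟪y, w⟫_ℝ)) (gam d) := j3.add (i5.const_mul _)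
    rw [integral_sub j4 (i3.const_mul _), integral_add j3 (i5.const_mul _),
      integral_sub j2 (i1.const_mul _), integral_add j1 i4, integral_add i2 (integrable_const _),
      integral_const_mul, integral_const_mul, integral_const_mul]
    simp
  rw [hexp, m1, m2, m3, ← ha] at hpos
  rw [hha, hh2, ← hnw]
  nlinarith

end Pool.Agent.TF.S2
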