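import Pool.Agent.TF.S2.CcA

/-!
# Block S2: consequence of the commutator estimate for weighted norms
-/

set_option autoImplicit false

namespace Pool.Agent.TF.S2

open MeasureTheory Set Filter Topology Pool.Agent.TO Pool.Agent.TB Pool.Agent.TC Pool.Agent.TP
open scoped ENNReal NNReal Real InnerProductSpace SchwartzMap LineDeriv

/-- the estimate of (CC) for one word -/
def ccP (R : Fin 3 → V3 →L[ℝ] V3) (W : List (Fin 3)) (C : ℝ) : Prop :=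
  ∀ (n k : Fin 3) (g dg w : V3) (dw : Fin 3 → V3) (A : ℝ), 0 ≤ A → Bd g A →
  IsWeakDeriv k g dg → (∀ l, IsWeakDeriv l w (dw l)) → (∀ W', ∃ B, Bd (Wd R W' dg) B) →
  ‖tens n w (Wd R W dg) - Wd R W (tens n w dg)‖ ≤ C * A * √(∑ l, ‖dw l‖ ^ 2)

theorem cc_Wd {R : Fin 3 → V3 →L[ℝ] V3} (hR : RZ R) (W : List (Fin 3)) (F : V3) :
    ‖Wd R W F‖ ≤ ‖F‖ := by
  induction W with
  | nil => exact le_rfl
  | cons j W ih => exact (hR.le j _).trans ih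

theorem cc_sqrt {θ : E3 → ℝ} (h : ContDiff ℝ 1 θ)
    (hi : Integrable (fun x => ‖fderiv ℝ θ x‖ ^ 2)) {D : ℝ} (hD0 : 0 ≤ D)
    (hD : ∫ x, ‖fderiv ℝ θ x‖ ^ 2 ≤ D ^ 2) : √(∑ l, ‖vL (pd l (ccW θ))‖ ^ 2) ≤ 2 * D := by
  rw [Real.sqrt_le_left (by positivity)]
  calc ∑ l, ‖vL (pd l (ccW θ))‖ ^ 2 ≤ ∑ _l : Fin 3, D ^ 2 :=
        Finset.sum_le_sum fun l _ => (cc_pd_norm h hi l).trans hD
    _ ≤ (2 * D) ^ 2 := by
        simp
        nlinarith [sq_nonneg D]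

/-- one term of the field -/
theorem cc_term (hW : StWord) {R : Fin 3 → V3 →L[ℝ] V3} (hR : RZ R) {W : List (Fin 3)}
    {C K A S D : ℝ} (hC : ccP R W C) (hCK : C ≤ K) (hK : 0 ≤ K) (hA : 0 ≤ A) (hS0 : 0 ≤ S)
    (hD0 : 0 ≤ D) {θ : E3 → ℝ} (hθ : ContDiff ℝ 1 θ) (hi : Integrable (fun x => θ x ^ 2))
    (hi' : Integrable (fun x => ‖fderiv ℝ θ x‖ ^ 2)) (hD : ∫ x, ‖fderiv ℝ θ x‖ ^ 2 ≤ D ^ 2)
    (k : Fin 3) {f : E3 → E3} (hf : Nc f) (hfA : ∀ x, ‖f x‖ ≤ A)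
    (hfS : ∀ i : Fin 3, ∫ x, θ x ^ 2 * ‖fderiv ℝ (fun y => f y i) x‖ ^ 2 ≤ S ^ 2) :
    ccQ (vL (ccW θ)) (2 * S + 2 * K * A * D) (Wd R W (vL (pd k f))) := by
  obtain ⟨B, hB⟩ := hf.b2
  have hbd : ∀ W', ∃ B', Bd (Wd R W' (vL (pd k f))) B' := by
    intro W'
    obtain ⟨c', -, h'⟩ := hW W'
    exact ⟨_, h' R hR k f A B hf hfA hB 1 one_pos⟩
  refine ⟨hbd W, ?_⟩
  have h1 := hC 0 k (vL f) (vL (pd k f)) (vL (ccW θ)) (fun l => vL (pd l (ccW θ))) A hA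
    (cc_bd hf.m0 hfA) (cc_weak (hf.c2.of_le (by norm_num)) hf.m0 k (hf.m1 k))
    (fun l => cc_weak (cc_c1 hθ) (cc_mem hθ hi) l (cc_pd_mem hθ hi' l)) hbd
  have h2 := cc_Wd hR W (tens 0 (vL (ccW θ)) (vL (pd k f)))
  have h3 := cc_pdn hθ hi hf k hfS hS0
  have h4 : C * A * √(∑ l, ‖vL (pd l (ccW θ))‖ ^ 2) ≤ K * A * (2 * D) :=
    mul_le_mul (mul_le_mul_of_nonneg_right hCK hA) (cc_sqrt hθ hi' hD0 hD) (Real.sqrt_nonneg _)
      (mul_nonneg hK hA)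
  have h5 := norm_sub_norm_le (tens 0 (vL (ccW θ)) (Wd R W (vL (pd k f))))
    (Wd R W (tens 0 (vL (ccW θ)) (vL (pd k f))))
  have h6 : K * A * (2 * D) = 2 * K * A * D := by ring
  linarith

/-- all terms of the field -/
theorem cc_all {R : Fin 3 → V3 →L[ℝ] V3} (hR : RZ R) {w : V3} {M N : ℝ} {σ : Sta}
    (hg : ∀ k j, ccQ w M (To R j (vL (pd k (σ.g k j)))))
    (hh : ∀ k, ccQ w M (vL (pd k (σ.h k))))
    (hh2 : ∀ i l k, ccQ w M (Wd R [i, l] (vL (pd k (σ.h k))))) (hl : ccQ w N σ.l) :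
    ccQ w (42 * M + N) (Hh R σ) := by
  have q1 : ccQ w (3 * (4 * M)) (∑ k, ∑ j, To R j (vL (pd k (σ.g k j)))) := by
    have h1 : ∀ k, ccQ w (4 * M) (∑ j, To R j (vL (pd k (σ.g k j)))) := by
      intro k
      have := cc_sum fun j => hg k j
      simpa using this
    have := cc_sum h1
    simpa using this
  have q2 : ccQ w (3 * M) (∑ k, vL (pd k (σ.h k))) := by
    have := cc_sum fun k => hh k
    simpa using this
  have q3 : ∀ i l, ccQ w (3 * M) (R i (R l (PM l i (∑ k, vL (pd k (σ.h k)))))) := by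
    intro i l
    have e : R i (R l (PM l i (∑ k, vL (pd k (σ.h k))))) =
        ∑ k, PM l i (Wd R [i, l] (vL (pd k (σ.h k)))) := by
      rw [map_sum, map_sum, map_sum]
      refine Finset.sum_congr rfl fun k _ => ?_
      rw [hR.pm, hR.pm]
      rfl
    rw [e]
    have := cc_sum fun k => cc_PM l i (hh2 i l k)
    simpa using this
  have q4 : ccQ w (3 * M + 3 * (3 * (3 * M))) (LP R (∑ k, vL (pd k (σ.h k)))) := by
    refine cc_add q2 ?_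
    have h1 : ∀ i, ccQ w (3 * (3 * M)) (∑ l, R i (R l (PM l i (∑ k, vL (pd k (σ.h k)))))) := by
      intro i
      have := cc_sum fun l => q3 i l
      simpa using this
    have := cc_sum h1
    simpa using this
  have q := cc_add (cc_add q1 q4) hl
  refine cc_mono q (le_of_eq ?_)
  ring

theorem cc_low {θ : E3 → ℝ} (hθ : ContDiff ℝ 1 θ) (hi : Integrable (fun x => θ x ^ 2))
    {l : V3} {L T : ℝ} (hL : 0 ≤ L) (hl : Bd l L) (hT0 : 0 ≤ T) (hT : ∫ x, θ x ^ 2 ≤ T ^ 2) :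
    ccQ (vL (ccW θ)) (L * T) l := by
  refine ⟨⟨L, hl⟩, ?_⟩
  have h1 : ‖vL (ccW θ)‖ ≤ T := by
    refine le_of_sq_le_sq ?_ hT0
    rw [cc_int_sq (cc_mem hθ hi)]
    refine le_trans (le_of_eq (integral_congr_ae (Eventually.of_forall fun x => ?_))) hT
    simp [ccW, norm_smul]
  refine le_trans ?_ (mul_le_mul_of_nonneg_left h1 hL)
  apply Lp.norm_le_mul_norm_of_ae_le_mul
  filter_upwards [coe_tens_right 0 (vL (ccW θ)) hl, hl] with x e1 e2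
  rw [e1, norm_smul, mul_comm]
  exact mul_le_mul e2 (PiLp.norm_apply_le (vL (ccW θ) x) 0) (norm_nonneg _) hL

theorem cc_fin {K A S D L T : ℝ} :
    (42 * (2 * S + 2 * K * A * D) + L * T) ^ 2 ≤
      3 * 42 ^ 2 * (4 + 4 * K ^ 2) * (S ^ 2 + A ^ 2 * D ^ 2 + L ^ 2 * T ^ 2) := by
  have e1 : (42 * (2 * S + 2 * K * A * D) + L * T) ^ 2 ≤
      3 * ((84 * S) ^ 2 + (84 * (K * A * D)) ^ 2 + (L * T) ^ 2) := by
    have h : ∀ a b c : ℝ, (a + b + c) ^ 2 ≤ 3 * (a ^ 2 + b ^ 2 + c ^ 2) := by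
      intro a b c
      nlinarith [sq_nonneg (a - b), sq_nonneg (a - c), sq_nonneg (b - c)]
    have h' := h (84 * S) (84 * (K * A * D)) (L * T)
    have e : 42 * (2 * S + 2 * K * A * D) + L * T = 84 * S + 84 * (K * A * D) + L * T := by ring
    rwa [e]
  refine e1.trans ?_
  have e2 : 0 ≤ S ^ 2 * K ^ 2 := by positivity
  have e3 : 0 ≤ A ^ 2 * D ^ 2 := by positivity
  have e4 : 0 ≤ L ^ 2 * T ^ 2 := by positivity
  have e5 : 0 ≤ L ^ 2 * T ^ 2 * K ^ 2 := by positivity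
  have e6 : 3 * 42 ^ 2 * (4 + 4 * K ^ 2) * (S ^ 2 + A ^ 2 * D ^ 2 + L ^ 2 * T ^ 2) -
      3 * ((84 * S) ^ 2 + (84 * (K * A * D)) ^ 2 + (L * T) ^ 2) =
      21168 * (S ^ 2 * K ^ 2) + 21168 * (A ^ 2 * D ^ 2) + 21165 * (L ^ 2 * T ^ 2) +
        21168 * (L ^ 2 * T ^ 2 * K ^ 2) := by ring
  linarith

theorem cc_max (C : List (Fin 3) → ℝ) (pos : ∀ W, 0 < C W) : ∃ K : ℝ, 0 < K ∧ C [] ≤ K ∧
    (∀ j, C [j] ≤ K) ∧ ∀ i l, C [i, l] ≤ K := by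
  have s1 : 0 ≤ ∑ j, C [j] := Finset.sum_nonneg fun j _ => (pos _).le
  have s2 : 0 ≤ ∑ i, ∑ l, C [i, l] :=
    Finset.sum_nonneg fun i _ => Finset.sum_nonneg fun l _ => (pos _).le
  have p0 := pos []
  refine ⟨C [] + (∑ j, C [j]) + ∑ i, ∑ l, C [i, l], by linarith, by linarith, fun j => ?_,
    fun i l => ?_⟩
  · have h1 : C [j] ≤ ∑ j, C [j] := Finset.single_le_sum (f := fun j => C [j])
      (fun j _ => (pos _).le) (Finset.mem_univ j)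
    linarith
  · have h1 : C [i, l] ≤ ∑ l, C [i, l] := Finset.single_le_sum (f := fun l => C [i, l])
      (fun l _ => (pos _).le) (Finset.mem_univ l)
    have h2 : ∑ l, C [i, l] ≤ ∑ i, ∑ l, C [i, l] :=
      Finset.single_le_sum (f := fun i => ∑ l, C [i, l])
        (fun i _ => Finset.sum_nonneg fun l _ => (pos _).le) (Finset.mem_univ i)
    linarith

theorem stCc (hCC : StCC) (hW : StWord) : StCc := by
  choose C hC using hCC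
  obtain ⟨K, K0, k0, k1, k2⟩ := cc_max C fun W => (hC W).1
  refine ⟨3 * 42 ^ 2 * (4 + 4 * K ^ 2), by positivity, ?_⟩
  intro R hR σ A L hN hSup hA hL hl θ hθ _ hi hi'
  have hP : ∀ W, ccP R W (C W) := fun W => (hC W).2 R hR
  have nS2 : ∀ a, 0 ≤ ∫ x, θ x ^ 2 * ‖fderiv ℝ (pot σ a) x‖ ^ 2 := fun a =>
    integral_nonneg fun x => by positivity
  obtain ⟨S, hS0, hS⟩ : ∃ S : ℝ, 0 ≤ S ∧
      S ^ 2 = ∑ a, ∫ x, θ x ^ 2 * ‖fderiv ℝ (pot σ a) x‖ ^ 2 :=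
    ⟨√(∑ a, ∫ x, θ x ^ 2 * ‖fderiv ℝ (pot σ a) x‖ ^ 2), Real.sqrt_nonneg _,
      Real.sq_sqrt (Finset.sum_nonneg fun a _ => nS2 a)⟩
  obtain ⟨D, hD0, hD⟩ : ∃ D : ℝ, 0 ≤ D ∧ D ^ 2 = ∫ x, ‖fderiv ℝ θ x‖ ^ 2 :=
    ⟨√(∫ x, ‖fderiv ℝ θ x‖ ^ 2), Real.sqrt_nonneg _,
      Real.sq_sqrt (integral_nonneg fun x => by positivity)⟩
  obtain ⟨T, hT0, hT⟩ : ∃ T : ℝ, 0 ≤ T ∧ T ^ 2 = ∫ x, θ x ^ 2 :=
    ⟨√(∫ x, θ x ^ 2), Real.sqrt_nonneg _,
      Real.sq_sqrt (integral_nonneg fun x => by positivity)⟩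
  have hSa : ∀ a, ∫ x, θ x ^ 2 * ‖fderiv ℝ (pot σ a) x‖ ^ 2 ≤ S ^ 2 := by
    intro a
    rw [hS]
    exact Finset.single_le_sum (f := fun a => ∫ x, θ x ^ 2 * ‖fderiv ℝ (pot σ a) x‖ ^ 2)
      (fun a _ => nS2 a) (Finset.mem_univ a)
  have tg : ∀ (k : Fin 3) (j : Option (Fin 3)),
      ccQ (vL (ccW θ)) (2 * S + 2 * K * A * D) (To R j (vL (pd k (σ.g k j)))) := by
    intro k j
    cases j with
    | none =>
      exact cc_term hW hR (hP []) k0 K0.le hA hS0 hD0 hθ hi hi' hD.ge k (hN.1 k none)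
        (hSup.1 k none) fun i => hSa (Sum.inl (k, none, i))
    | some j =>
      exact cc_term hW hR (hP [j]) (k1 j) K0.le hA hS0 hD0 hθ hi hi' hD.ge k (hN.1 k (some j))
        (hSup.1 k (some j)) fun i => hSa (Sum.inl (k, some j, i))
  have th : ∀ (W : List (Fin 3)) (k : Fin 3), C W ≤ K →
      ccQ (vL (ccW θ)) (2 * S + 2 * K * A * D) (Wd R W (vL (pd k (σ.h k)))) := fun W k hCW =>
    cc_term hW hR (hP W) hCW K0.le hA hS0 hD0 hθ hi hi' hD.ge k (hN.2 k) (hSup.2 k)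
      fun i => hSa (Sum.inr (k, i))
  have q := cc_all hR tg (fun k => th [] k k0) (fun i l k => th [i, l] k (k2 i l))
    (cc_low hθ hi hL hl hT0 hT.ge)
  obtain ⟨⟨B, hB⟩, h1⟩ := q
  rw [← cc_tens hθ hi hB, ← hS, ← hD, ← hT]
  exact (pow_le_pow_left₀ (norm_nonneg _) h1 2).trans cc_fin

end Pool.Agent.TF.S2
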