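import Pool.Agent.TF.S2.Def
import Pool.Agent.TF.E.CoV

/-!
# Block S2, row Ch: the change of variables `x ↦ x + d b(x)` (helper72)
-/

set_option autoImplicit false

namespace Pool.Agent.TF.S2

open MeasureTheory Set Filter Topology Pool.Agent.TO Pool.Agent.TB
open scoped ENNReal NNReal Real InnerProductSpace

theorem ch_norm_ee (k : Fin 3) : ‖(ee k : E3)‖ = 1 := by
  simp [ee]

theorem ch_abs_coord (v : E3) (k : Fin 3) : |v k| ≤ ‖v‖ := by
  have := EuclideanSpace.norm_sq_eq v
  have h1 : |v k| ^ 2 ≤ ‖v‖ ^ 2 := by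
    rw [this]
    have h2 := Finset.single_le_sum (f := fun i => ‖v i‖ ^ 2) (fun i _ => by positivity)
      (Finset.mem_univ k)
    simpa [Real.norm_eq_abs] using h2
  exact abs_le_of_sq_le_sq' h1 (norm_nonneg _) |>.2

theorem stCh : StCh := by
  intro Cb c t d lam b F co hF hF0 hFi
  have hCb : (0 : ℝ) ≤ Cb := zero_le_one.trans co.Cb1
  have hd0 : 0 ≤ d * Cb := mul_nonneg co.d0.le hCb
  have hbd : Differentiable ℝ b := co.cb.cd.differentiable (by norm_num)
  have hfd : ∀ x, fderiv ℝ (fun x => d • b x) x = d • fderiv ℝ b x := fun x =>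
    fderiv_const_smul (hbd x) d
  have hb : ∀ x i k, |fderiv ℝ (fun x => d • b x) x (ee i) k| ≤ d * Cb := by
    intro x i k
    rw [hfd]
    refine (ch_abs_coord _ k).trans ?_
    refine ((d • fderiv ℝ b x).le_opNorm (ee i)).trans ?_
    rw [ch_norm_ee, mul_one, norm_smul, Real.norm_eq_abs, abs_of_pos co.d0]
    exact mul_le_mul_of_nonneg_left (co.cb.b1 x) co.d0.le
  have hdiv : ∀ x, ∑ i, fderiv ℝ (fun x => d • b x) x (ee i) i = 0 := by
    intro x
    have e : ∀ i : Fin 3, fderiv ℝ (fun x => d • b x) x (ee i) i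
        = d * fderiv ℝ b x (ee i) i := by
      intro i
      rw [hfd]
      rfl
    simp only [e]
    rw [← Finset.mul_sum, co.dv x, mul_zero]
  have key := lintegral_shift_le hd0 co.dC (hbd.const_smul d) hb hdiv
    (fun x => ENNReal.ofReal (F x))
  have hI : ∫⁻ x, ENNReal.ofReal (F x) = ENNReal.ofReal (∫ x, F x) :=
    (ofReal_integral_eq_lintegral_ofReal hFi (ae_of_all _ hF0)).symm
  have hcont : Continuous fun x => F (x + d • b x) :=
    hF.comp (continuous_id.add (hbd.continuous.const_smul d))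
  have hInt0 : 0 ≤ ∫ x, F x := integral_nonneg hF0
  have key2 : ∫⁻ x, ENNReal.ofReal (F (x + d • b x)) ≤
      ENNReal.ofReal ((1 + 14 * (d * Cb) ^ 2) * ∫ x, F x) := by
    rw [ENNReal.ofReal_mul (by positivity), ← hI]
    exact key
  have hint : Integrable fun x => F (x + d • b x) := by
    refine ⟨hcont.aestronglyMeasurable, ?_⟩
    rw [hasFiniteIntegral_iff_ofReal (ae_of_all _ fun x => hF0 _)]
    exact key2.trans_lt ENNReal.ofReal_lt_top
  refine ⟨hint, ?_⟩
  have h3 : ENNReal.ofReal (∫ x, F (x + d • b x)) ≤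
      ENNReal.ofReal ((1 + 14 * (d * Cb) ^ 2) * ∫ x, F x) := by
    rw [ofReal_integral_eq_lintegral_ofReal hint (ae_of_all _ fun x => hF0 _)]
    exact key2
  have h4 := (ENNReal.ofReal_le_ofReal_iff (by positivity)).1 h3
  refine h4.trans (mul_le_mul_of_nonneg_right ?_ hInt0)
  nlinarith [sq_nonneg (d * Cb)]

end Pool.Agent.TF.S2
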