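import Pool.Agent.TF.S2.Def

/-!
# Block S2: comparison of `e^{ηΔ} ρ` and `J~ ρ`
-/

set_option autoImplicit false

namespace Pool.Agent.TF.S2

open MeasureTheory Set Filter Topology Pool.Agent.TO Pool.Agent.TB
open scoped ENNReal NNReal Real InnerProductSpace

/-- densities with `|Dρ| ≤ M ρ` are log-Lipschitz -/
theorem cm_loglip {M : ℝ} {ρ : E3 → ℝ} (h : Den M ρ) (x z : E3) :
    ρ (x + z) ≤ Real.exp (M * ‖z‖) * ρ x := by
  have hd : ∀ s : ℝ, HasDerivAt (fun s : ℝ => ρ (x + s • z)) (fderiv ℝ ρ (x + s • z) z) s := by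
    intro s
    have h1 : HasDerivAt (fun s : ℝ => x + s • z) z s := by
      simpa using ((hasDerivAt_id s).smul_const z).const_add x
    have h2 : HasFDerivAt ρ (fderiv ℝ ρ (x + s • z)) (x + s • z) :=
      ((h.cd.differentiable (by norm_num)) _).hasFDerivAt
    exact h2.comp_hasDerivAt s h1
  have he : ∀ s : ℝ, HasDerivAt (fun s : ℝ => Real.exp (-(M * ‖z‖) * s))
      (Real.exp (-(M * ‖z‖) * s) * -(M * ‖z‖)) s := by
    intro s
    have h1 : HasDerivAt (fun s : ℝ => -(M * ‖z‖) * s) (-(M * ‖z‖)) s := by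
      simpa using (hasDerivAt_id s).const_mul (-(M * ‖z‖))
    exact h1.exp
  have hφ : ∀ s : ℝ, HasDerivAt (fun s : ℝ => ρ (x + s • z) * Real.exp (-(M * ‖z‖) * s))
      (fderiv ℝ ρ (x + s • z) z * Real.exp (-(M * ‖z‖) * s) +
        ρ (x + s • z) * (Real.exp (-(M * ‖z‖) * s) * -(M * ‖z‖))) s := fun s => (hd s).mul (he s)
  have hanti : Antitone fun s : ℝ => ρ (x + s • z) * Real.exp (-(M * ‖z‖) * s) := by
    refine antitone_of_deriv_nonpos (fun s => (hφ s).differentiableAt) fun s => ?_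
    rw [(hφ s).deriv]
    have h1 : fderiv ℝ ρ (x + s • z) z ≤ M * ρ (x + s • z) * ‖z‖ := by
      refine (le_abs_self _).trans ?_
      rw [← Real.norm_eq_abs]
      exact (ContinuousLinearMap.le_opNorm _ _).trans
        (mul_le_mul_of_nonneg_right (h.d1 _) (norm_nonneg _))
    have h2 : 0 < Real.exp (-(M * ‖z‖) * s) := Real.exp_pos _
    nlinarith
  have h1 := hanti (zero_le_one' ℝ)
  simp only [one_smul, zero_smul, add_zero, mul_zero, Real.exp_zero, mul_one] at h1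
  have h2 : ρ (x + z) = ρ (x + z) * Real.exp (-(M * ‖z‖)) * Real.exp (M * ‖z‖) := by
    rw [mul_assoc, ← Real.exp_add]
    simp
  rw [h2, mul_comm (Real.exp _) (ρ x)]
  exact mul_le_mul_of_nonneg_right h1 (Real.exp_pos _).le

theorem cm_kernel {M η : ℝ} (hη : 0 < η) (h : 2 * η * M ^ 2 ≤ 1 / 10) (y : E3) :
    hk η y * Real.exp (M * ‖y‖) ≤ 3 * Real.exp (1 / 10) * hk (2 * η) y := by
  have hp := Real.pi_pos
  have e1 : (4 * π * η) ^ (-(3 / 2) : ℝ) ≤ 3 * (4 * π * (2 * η)) ^ (-(3 / 2) : ℝ) := by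
    have : 4 * π * (2 * η) = 2 * (4 * π * η) := by ring
    rw [this, Real.mul_rpow (x := 2) (y := 4 * π * η) (by norm_num) (by positivity), ← mul_assoc]
    have h2 : (1:ℝ) ≤ 3 * 2 ^ (-(3 / 2) : ℝ) := by
      rw [Real.rpow_neg (by norm_num)]
      have h3 : (2:ℝ) ^ (3 / 2 : ℝ) ≤ 3 := by
        have h4 : ((2:ℝ) ^ (3 / 2 : ℝ)) ^ 2 = 8 := by
          rw [← Real.rpow_natCast, ← Real.rpow_mul (by norm_num)]
          norm_num
        nlinarith [Real.rpow_nonneg (by norm_num : (0:ℝ) ≤ 2) (3 / 2 : ℝ)]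
      rw [← div_eq_mul_inv, le_div_iff₀ (by positivity)]
      linarith
    calc (4 * π * η) ^ (-(3 / 2) : ℝ) = 1 * (4 * π * η) ^ (-(3 / 2) : ℝ) := (one_mul _).symm
      _ ≤ _ := by gcongr
  have e2 : Real.exp (-‖y‖ ^ 2 / (4 * η)) * Real.exp (M * ‖y‖) ≤
      Real.exp (1 / 10) * Real.exp (-‖y‖ ^ 2 / (4 * (2 * η))) := by
    rw [← Real.exp_add, ← Real.exp_add]
    apply Real.exp_le_exp.2
    have h3 : 0 ≤ (‖y‖ - 4 * η * M) ^ 2 / (8 * η) := by positivity
    have h4 : (‖y‖ - 4 * η * M) ^ 2 / (8 * η) =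
        ‖y‖ ^ 2 / (8 * η) - M * ‖y‖ + 2 * η * M ^ 2 := by
      field_simp
      ring
    have h5 : -‖y‖ ^ 2 / (4 * η) = -‖y‖ ^ 2 / (4 * (2 * η)) - ‖y‖ ^ 2 / (8 * η) := by
      field_simp
      ring
    rw [h5]
    linarith
  unfold hk
  calc (4 * π * η) ^ (-(3 / 2) : ℝ) * Real.exp (-‖y‖ ^ 2 / (4 * η)) * Real.exp (M * ‖y‖)
      = (4 * π * η) ^ (-(3 / 2) : ℝ) * (Real.exp (-‖y‖ ^ 2 / (4 * η)) * Real.exp (M * ‖y‖)) := by
        ring
    _ ≤ (3 * (4 * π * (2 * η)) ^ (-(3 / 2) : ℝ)) *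
        (Real.exp (1 / 10) * Real.exp (-‖y‖ ^ 2 / (4 * (2 * η)))) :=
      mul_le_mul e1 e2 (by positivity) (by positivity)
    _ = _ := by ring

theorem cm_heat {M η : ℝ} {ρ : E3 → ℝ} (h : Den M ρ) (hη : 0 < η) (hM : 2 * η * M ^ 2 ≤ 1 / 10)
    (x : E3) : heat η ρ x ≤ 3 * Real.exp (1 / 10) * ρ x := by
  unfold heat
  have hi : Integrable (fun y => 3 * Real.exp (1 / 10) * ρ x * hk (2 * η) y)
      (volume : Measure E3) := (integrable_hk (by linarith)).const_mul _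
  have h1 : ∫ y, hk η y • ρ (x - y) ≤ ∫ y, 3 * Real.exp (1 / 10) * ρ x * hk (2 * η) y := by
    apply integral_mono_of_nonneg _ hi
    · refine Eventually.of_forall fun y => ?_
      show hk η y • ρ (x - y) ≤ 3 * Real.exp (1 / 10) * ρ x * hk (2 * η) y
      rw [smul_eq_mul]
      have h2 := cm_loglip h x (-y)
      rw [norm_neg, ← sub_eq_add_neg] at h2
      calc hk η y * ρ (x - y) ≤ hk η y * (Real.exp (M * ‖y‖) * ρ x) :=
            mul_le_mul_of_nonneg_left h2 (hk_pos hη y).le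
        _ = hk η y * Real.exp (M * ‖y‖) * ρ x := by ring
        _ ≤ 3 * Real.exp (1 / 10) * hk (2 * η) y * ρ x :=
            mul_le_mul_of_nonneg_right (cm_kernel hη hM y) (h.pos x).le
        _ = _ := by ring
    · refine Eventually.of_forall fun y => ?_
      show 0 ≤ hk η y • ρ (x - y)
      exact mul_nonneg (hk_pos hη y).le (h.pos _).le
  rw [integral_const_mul, integral_hk (by linarith), mul_one] at h1
  exact h1

theorem cm_num : 3 * Real.exp (1 / 10) * Real.exp (1 / 6) ≤ 25 / 6 := by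
  rw [mul_assoc, ← Real.exp_add]
  have h1 : (1:ℝ) - 4 / 15 ≤ Real.exp (-(4 / 15)) := by
    have := Real.add_one_le_exp (-(4 / 15 : ℝ))
    linarith
  have h2 : Real.exp (1 / 10 + 1 / 6) * Real.exp (-(4 / 15)) = 1 := by
    rw [← Real.exp_add]
    norm_num
  have h3 : 0 < Real.exp (1 / 10 + 1 / 6) := Real.exp_pos _
  nlinarith

theorem stCm : StCm := by
  intro Cb c t d M η lam b ρ hco hρ hMd hη hM x
  have h1 := cm_heat hρ hη hM x
  have hlam : lam x ≤ Cb := by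
    have := hco.cl.b0 x
    rw [Real.norm_eq_abs] at this
    exact (le_abs_self _).trans this
  have hdl : d * lam x ≤ 1 / 6 := (mul_le_mul_of_nonneg_left hlam hco.d0.le).trans hco.dC
  have h2 : ρ x ≤ Real.exp (1 / 6) * ρ (x + d • b x) := by
    have h3 := cm_loglip hρ (x + d • b x) (-(d • b x))
    rw [add_neg_cancel_right, norm_neg, norm_smul, Real.norm_eq_abs, abs_of_pos hco.d0] at h3
    refine h3.trans (mul_le_mul_of_nonneg_right (Real.exp_le_exp.2 ?_) (hρ.pos _).le)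
    have hM0 : 0 ≤ M := zero_le_one.trans hρ.one
    calc M * (d * ‖b x‖) ≤ M * (d * Cb) := by
          have := hco.cb.b0 x
          have := hco.d0.le
          gcongr
      _ ≤ 1 / 6 := hMd
  unfold Jt
  have hpos := hρ.pos (x + d • b x)
  have hc0 : 0 < 3 * Real.exp (1 / 10) := by positivity
  calc heat η ρ x ≤ 3 * Real.exp (1 / 10) * ρ x := h1
    _ ≤ 3 * Real.exp (1 / 10) * (Real.exp (1 / 6) * ρ (x + d • b x)) :=
        mul_le_mul_of_nonneg_left h2 hc0.le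
    _ = (3 * Real.exp (1 / 10) * Real.exp (1 / 6)) * ρ (x + d • b x) := by ring
    _ ≤ 25 / 6 * ρ (x + d • b x) := mul_le_mul_of_nonneg_right cm_num hpos.le
    _ ≤ 5 * ((1 - d * lam x) * ρ (x + d • b x)) := by nlinarith

end Pool.Agent.TF.S2
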