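import Pool.Agent.TF.S2.Def2

/-!
# Block S2, row Co: the coefficients of Flow satisfy Co
-/

set_option autoImplicit false

namespace Pool.Agent.TF.S2

open MeasureTheory Set Filter Topology Pool.Agent.TO Pool.Agent.TB Pool.Agent.TC Pool.Agent.TP
open scoped ENNReal NNReal Real InnerProductSpace

section

variable {F : Type*} [NormedAddCommGroup F] [NormedSpace ℝ F]

theorem co_sum (x : E3) : x = ∑ i, x i • (ee i : E3) := by
  have h := (EuclideanSpace.basisFun (Fin 3) ℝ).sum_repr x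
  simpa [EuclideanSpace.basisFun_repr, EuclideanSpace.basisFun_apply] using h.symm

/-- the operator norm is at most the Hilbert–Schmidt norm -/
theorem co_op (T : E3 →L[ℝ] F) {B : ℝ} (hB : 0 ≤ B) (h : ∑ i, ‖T (ee i)‖ ^ 2 ≤ B ^ 2) :
    ‖T‖ ≤ B := by
  refine T.opNorm_le_bound hB fun x => ?_
  have h1 : ‖T x‖ ≤ ∑ i, ‖x i‖ * ‖T (ee i)‖ := by
    conv_lhs => rw [co_sum x]
    rw [map_sum]
    refine (norm_sum_le _ _).trans (le_of_eq ?_)
    exact Finset.sum_congr rfl fun i _ => by rw [map_smul, norm_smul]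
  have h2 : (∑ i, ‖x i‖ * ‖T (ee i)‖) ^ 2 ≤ (∑ i, ‖x i‖ ^ 2) * ∑ i, ‖T (ee i)‖ ^ 2 :=
    Finset.sum_mul_sq_le_sq_mul_sq _ _ _
  have h3 : ∑ i, ‖x i‖ ^ 2 = ‖x‖ ^ 2 := (EuclideanSpace.norm_sq_eq x).symm
  rw [h3] at h2
  have h4 : (∑ i, ‖x i‖ * ‖T (ee i)‖) ^ 2 ≤ (B * ‖x‖) ^ 2 := by
    calc (∑ i, ‖x i‖ * ‖T (ee i)‖) ^ 2 ≤ ‖x‖ ^ 2 * ∑ i, ‖T (ee i)‖ ^ 2 := h2
      _ ≤ ‖x‖ ^ 2 * B ^ 2 := by gcongr
      _ = (B * ‖x‖) ^ 2 := by ring
  exact h1.trans (abs_le_of_sq_le_sq' h4 (by positivity)).2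

theorem co_op1 {f : E3 → F} {x : E3} {B : ℝ} (hB : 0 ≤ B) (h : ∀ i, ‖pd i f x‖ ≤ B) :
    ‖fderiv ℝ f x‖ ≤ 3 * B := by
  refine co_op _ (by positivity) ?_
  calc ∑ i, ‖fderiv ℝ f x (ee i)‖ ^ 2 ≤ ∑ _i : Fin 3, B ^ 2 :=
        Finset.sum_le_sum fun i _ => pow_le_pow_left₀ (norm_nonneg _) (h i) 2
    _ = 3 * B ^ 2 := by simp
    _ ≤ (3 * B) ^ 2 := by nlinarith [sq_nonneg B]

theorem co_pd2 {f : E3 → F} (hf : ContDiff ℝ 2 f) (x : E3) (i j : Fin 3) :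
    fderiv ℝ (fderiv ℝ f) x (ee j) (ee i) = pd j (pd i f) x := by
  have h1 : DifferentiableAt ℝ (fderiv ℝ f) x :=
    (hf.fderiv_right (m := 1) (by norm_num)).differentiable (by norm_num) x
  have h2 : HasFDerivAt (fun y => fderiv ℝ f y (ee i))
      ((fderiv ℝ (fderiv ℝ f) x).flip (ee i)) x := by
    have h3 := h1.hasFDerivAt.clm_apply (hasFDerivAt_const (ee i : E3) x)
    refine h3.congr_fderiv ?_
    ext v
    simp
  unfold pd
  rw [h2.fderiv]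
  rfl

theorem co_op2 {f : E3 → F} (hf : ContDiff ℝ 2 f) {x : E3} {B : ℝ} (hB : 0 ≤ B)
    (h : ∀ i j, ‖pd i (pd j f) x‖ ≤ B) : ‖fderiv ℝ (fderiv ℝ f) x‖ ≤ 9 * B := by
  have h1 : ∀ j, ‖fderiv ℝ (fderiv ℝ f) x (ee j)‖ ≤ 3 * B := by
    intro j
    refine co_op _ (by positivity) ?_
    calc ∑ i, ‖fderiv ℝ (fderiv ℝ f) x (ee j) (ee i)‖ ^ 2 ≤ ∑ _i : Fin 3, B ^ 2 :=
          Finset.sum_le_sum fun i _ => pow_le_pow_left₀ (norm_nonneg _) (by
            rw [co_pd2 hf]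
            exact h j i) 2
      _ = 3 * B ^ 2 := by simp
      _ ≤ (3 * B) ^ 2 := by nlinarith [sq_nonneg B]
  refine co_op _ (by positivity) ?_
  calc ∑ j, ‖fderiv ℝ (fderiv ℝ f) x (ee j)‖ ^ 2 ≤ ∑ _j : Fin 3, (3 * B) ^ 2 :=
        Finset.sum_le_sum fun j _ => pow_le_pow_left₀ (norm_nonneg _) (h1 j) 2
    _ = 3 * (3 * B) ^ 2 := by simp
    _ ≤ (9 * B) ^ 2 := by nlinarith [sq_nonneg B]

end

/-- (S2-Co) the coefficients of `Flow` -/
theorem stCo : StCo := by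
  intro c s Λ hc hs hΛ
  have hs' : 0 < √s := Real.sqrt_pos.2 hs
  refine ⟨1 + Λ + 9 * (c * Λ / √s) + 9 * (c * Λ / s), ?_, ?_⟩
  · have h1 : 0 ≤ c * Λ / √s := by positivity
    have h2 : 0 ≤ c * Λ / s := by positivity
    linarith
  intro t d b lam hst ht hd hdC h
  have h1 : 0 ≤ c * Λ / √s := by positivity
  have h2 : 0 ≤ c * Λ / s := by positivity
  have ht0 : 0 < t := hs.trans_le hst
  have hr : √s ≤ √t := Real.sqrt_le_sqrt hst
  have hr0 : 0 < √t := Real.sqrt_pos.2 ht0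
  have hlΛ : ∀ x, c * lam x / √t ≤ c * Λ / √s := by
    intro x
    have h3 : c * lam x ≤ c * Λ := by
      have := h.lΛ x
      gcongr
    exact div_le_div₀ (by positivity) h3 hs' hr
  have hlΛ2 : ∀ x, c * lam x / √t ^ 2 ≤ c * Λ / s := by
    intro x
    rw [Real.sq_sqrt ht0.le]
    have h3 : c * lam x ≤ c * Λ := by
      have := h.lΛ x
      gcongr
    exact div_le_div₀ (by positivity) h3 hs hst
  have hl0 : ∀ x, 0 ≤ c * lam x / √t := fun x => by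
    have := h.l0 x
    positivity
  have hl02 : ∀ x, 0 ≤ c * lam x / √t ^ 2 := fun x => by
    have := h.l0 x
    positivity
  have hdb : ∀ x, ‖fderiv ℝ b x‖ ≤ lam x / 8 := fun x =>
    co_op _ (by have := h.l0 x; positivity) (h.b1 x)
  have hdl : ∀ x, ‖fderiv ℝ lam x‖ ≤ 3 * (c * lam x / √t) := fun x =>
    co_op1 (hl0 x) fun i => by
      rw [Real.norm_eq_abs]
      exact h.l1 i x
  refine ⟨ht0, hd, by linarith, hdC, ⟨h.cl, fun x => ?_, fun x => ?_, fun x => ?_⟩,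
    ⟨h.cb, fun x => ?_, fun x => ?_, fun x => ?_⟩, h.l0, h.div, hdb, fun x => ?_⟩
  · rw [Real.norm_eq_abs, abs_of_nonneg (h.l0 x)]
    linarith [h.lΛ x]
  · linarith [hdl x, hlΛ x]
  · have h3 := co_op2 h.cl (hl02 x) fun i j => by
      rw [Real.norm_eq_abs]
      exact h.l2 i j x
    linarith [hlΛ2 x]
  · linarith [h.bΛ x]
  · linarith [hdb x, h.lΛ x]
  · have h3 := co_op2 h.cb (hl0 x) fun i j => h.b2 i j x
    linarith [hlΛ x]
  · calc √t * ‖fderiv ℝ lam x‖ ≤ √t * (3 * (c * lam x / √t)) := by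
          have := hdl x
          gcongr
      _ = 3 * c * lam x := by
          field_simp

end Pool.Agent.TF.S2
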