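import Pool.Agent.TF.S2.Def

/-!
# Block S2, row Da: averages of densities, the Fisher information decreases (helper25)
-/

set_option autoImplicit false

namespace Pool.Agent.TF.S2

open MeasureTheory Set Filter Topology Pool.Agent.TO Pool.Agent.TB
open scoped ENNReal NNReal Real InnerProductSpace

/-- Integrability of translates of bounded continuous functions. -/
theorem da_int {F : Type*} [NormedAddCommGroup F] [NormedSpace ℝ F]
    [SecondCountableTopologyEither E3 F] {μ : Measure E3} [IsFiniteMeasure μ]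
    {f : E3 → F} (hf : Continuous f) {B : ℝ} (hB : ∀ x, ‖f x‖ ≤ B) (x : E3) :
    Integrable (fun y => f (x - y)) μ := by
  refine Integrable.of_bound ?_ B (Eventually.of_forall fun y => hB _)
  exact (hf.comp (continuous_const.sub continuous_id)).aestronglyMeasurable

theorem da_c2 {M : ℝ} {ρ : E3 → ℝ} (h : Den M ρ) : ∃ B, C2 B ρ := by
  obtain ⟨B, hB⟩ := h.bdd
  have hB0 : 0 ≤ B := (h.pos 0).le.trans (hB 0)
  have hM : 0 ≤ M := zero_le_one.trans h.one
  have h1 : ∀ x, M * ρ x ≤ M * B := fun x => mul_le_mul_of_nonneg_left (hB x) hM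
  refine ⟨M * B, h.cd, fun x => ?_, fun x => (h.d1 x).trans (h1 x),
    fun x => (h.d2 x).trans (h1 x)⟩
  rw [Real.norm_of_nonneg (h.pos x).le]
  calc ρ x ≤ B := hB x
    _ = 1 * B := (one_mul B).symm
    _ ≤ M * B := mul_le_mul_of_nonneg_right h.one hB0

theorem da_pos {μ : Measure E3} [IsProbabilityMeasure μ] {ρ : E3 → ℝ} (hc : Continuous ρ)
    {B : ℝ} (hB : ∀ x, ‖ρ x‖ ≤ B) (hp : ∀ x, 0 < ρ x) (x : E3) : 0 < av μ ρ x := by
  unfold av
  rw [integral_pos_iff_support_of_nonneg (fun y => (hp _).le) (da_int hc hB x)]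
  have h1 : Function.support (fun y => ρ (x - y)) = univ := by
    ext y
    simp only [Function.mem_support, mem_univ, iff_true]
    exact (hp _).ne'
  rw [h1, measure_univ]
  exact one_pos

/-- **Row Da.** -/
theorem stDa (hAv : StAv) : StDa := by
  intro μ hμ M ρ hρ
  have := hμ.prob
  obtain ⟨hA1, hA2, -⟩ := hAv μ hμ
  obtain ⟨B, hC⟩ := da_c2 hρ
  obtain ⟨hCa, hd1, hd2⟩ := hA1 B ρ hC
  have hρc : Continuous ρ := hC.cd.continuous
  have hDc : Continuous (fderiv ℝ ρ) := hC.cd.continuous_fderiv (by norm_num)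
  have hM : 0 ≤ M := zero_le_one.trans hρ.one
  obtain ⟨hI, hIe⟩ := hA2 ρ hρc hρ.int
  have hpos : ∀ x, 0 < av μ ρ x := fun x => da_pos hρc hC.b0 hρ.pos x
  have hρi : ∀ x, Integrable (fun y => ρ (x - y)) μ := fun x => da_int hρc hC.b0 x
  have hDen : Den M (av μ ρ) := by
    refine ⟨hCa.cd, hpos, hI, ⟨B, fun x => (le_abs_self _).trans (hCa.b0 x)⟩, hρ.one,
      fun x => ?_, fun x => ?_⟩
    · rw [hd1, av, ← integral_const_mul]
      exact norm_integral_le_of_norm_le ((hρi x).const_mul M)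
        (Eventually.of_forall fun y => hρ.d1 _)
    · rw [hd2, av, ← integral_const_mul]
      exact norm_integral_le_of_norm_le ((hρi x).const_mul M)
        (Eventually.of_forall fun y => hρ.d2 _)
  refine ⟨hDen, hIe, ?_⟩
  set F : E3 → ℝ := fun x => ‖fderiv ℝ ρ x‖ ^ 2 / ρ x with hF
  have hFc : Continuous F := (hDc.norm.pow 2).div hρc fun x => (hρ.pos x).ne'
  have hF0 : ∀ x, 0 ≤ F x := fun x => div_nonneg (sq_nonneg _) (hρ.pos x).le
  have hFM : ∀ x, F x ≤ M ^ 2 * ρ x := by
    intro x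
    rw [hF]
    simp only
    rw [div_le_iff₀ (hρ.pos x)]
    have h1 := pow_le_pow_left₀ (norm_nonneg _) (hρ.d1 x) 2
    calc ‖fderiv ℝ ρ x‖ ^ 2 ≤ (M * ρ x) ^ 2 := h1
      _ = M ^ 2 * ρ x * ρ x := by ring
  have hFB : ∀ x, ‖F x‖ ≤ M ^ 2 * B := by
    intro x
    rw [Real.norm_of_nonneg (hF0 x)]
    refine (hFM x).trans (mul_le_mul_of_nonneg_left ?_ (sq_nonneg M))
    exact (le_abs_self _).trans (hC.b0 x)
  have hFi : Integrable F := by
    refine (hρ.int.const_mul (M ^ 2)).mono' hFc.aestronglyMeasurable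
      (Eventually.of_forall fun x => ?_)
    rw [Real.norm_of_nonneg (hF0 x)]
    exact hFM x
  obtain ⟨hAF, hAFe⟩ := hA2 F hFc hFi
  have hpt : ∀ x, ‖fderiv ℝ (av μ ρ) x‖ ^ 2 / av μ ρ x ≤ av μ F x := by
    intro x
    have hDi : Integrable (fun y => ‖fderiv ℝ ρ (x - y)‖) μ :=
      da_int (f := fun x => ‖fderiv ℝ ρ x‖) hDc.norm
        (B := B) (fun y => by rw [norm_norm]; exact hC.b1 y) x
    have hFix : Integrable (fun y => F (x - y)) μ := da_int hFc hFB x
    set A : ℝ := ∫ y, ‖fderiv ℝ ρ (x - y)‖ ∂μ with hA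
    set R : ℝ := av μ ρ x with hR
    have hR0 : 0 < R := hpos x
    have hA0 : 0 ≤ A := integral_nonneg fun y => norm_nonneg _
    have h1 : ‖fderiv ℝ (av μ ρ) x‖ ≤ A := by
      rw [hd1]
      exact norm_integral_le_integral_norm _
    have h2 : 2 * (A / R) * A ≤ (A / R) ^ 2 * R + av μ F x := by
      have h3 : ∫ y, 2 * (A / R) * ‖fderiv ℝ ρ (x - y)‖ ∂μ ≤
          ∫ y, ((A / R) ^ 2 * ρ (x - y) + F (x - y)) ∂μ := by
        refine integral_mono (hDi.const_mul _) (((hρi x).const_mul _).add hFix) fun y => ?_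
        simp only [hF]
        have h4 := hρ.pos (x - y)
        have h5 : 0 ≤ (A / R * ρ (x - y) - ‖fderiv ℝ ρ (x - y)‖) ^ 2 / ρ (x - y) :=
          div_nonneg (sq_nonneg _) h4.le
        have h6 : (A / R * ρ (x - y) - ‖fderiv ℝ ρ (x - y)‖) ^ 2 / ρ (x - y) =
            (A / R) ^ 2 * ρ (x - y) + ‖fderiv ℝ ρ (x - y)‖ ^ 2 / ρ (x - y) -
              2 * (A / R) * ‖fderiv ℝ ρ (x - y)‖ := by
          generalize ρ (x - y) = q at h4
          generalize A / R = a
          field_simp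
          ring
        linarith
      rw [integral_const_mul, integral_add ((hρi x).const_mul _) hFix, integral_const_mul] at h3
      exact h3
    have h3 : A ^ 2 / R ≤ av μ F x := by
      have h4 : 2 * (A / R) * A = 2 * (A ^ 2 / R) := by ring
      have h5 : (A / R) ^ 2 * R = A ^ 2 / R := by field_simp
      rw [h4, h5] at h2
      linarith
    refine le_trans ?_ h3
    exact div_le_div_of_nonneg_right (pow_le_pow_left₀ (norm_nonneg _) h1 2) hR0.le
  unfold fi
  rw [← hAFe]
  refine integral_mono_of_nonneg (Eventually.of_forall fun x => ?_) hAF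
    (Eventually.of_forall hpt)
  exact div_nonneg (sq_nonneg _) (hpos x).le

end Pool.Agent.TF.S2
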