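import Pool.Agent.TF.S2.Def2

/-!
# Block S2: the datum of the dual density
-/

set_option autoImplicit false

namespace Pool.Agent.TF.S2

open MeasureTheory Set Filter Topology Pool.Agent.TO Pool.Agent.TB Pool.Agent.TC Pool.Agent.TP
open scoped ENNReal NNReal Real InnerProductSpace

/-- the datum -/
noncomputable def dtg (r : ℝ) (x₀ x : E3) : ℝ := et0 r (x₀ - x)

/-- the coefficient of its gradient -/
noncomputable def dtA (r : ℝ) (x₀ x : E3) : ℝ := 105 / 2 * c0 * r ^ 4 * sg r (x₀ - x) ^ 9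

variable {r : ℝ}

theorem dt_et0_pos (hr : 0 < r) (x : E3) : 0 < et0 r x := by
  have := sg_pos hr x
  have := c0_pos
  unfold et0
  positivity

theorem dt_et0_le (hr : 0 < r) (x : E3) : et0 r x ≤ 15 / 2 * c0 * r ^ 4 * r⁻¹ ^ 7 := by
  have := (sg_pos hr x).le
  have := c0_pos
  have := sg_le_inv hr x
  unfold et0
  gcongr

theorem dt_sg_cd (hr : 0 < r) : ContDiff ℝ 2 (sg r) := by
  have h0 : ContDiff ℝ 2 (fun x : E3 => r ^ 2 + ‖x‖ ^ 2) := contDiff_const.add (contDiff_norm_sq ℝ)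
  have h1 : ContDiff ℝ 2 (fun x : E3 => √(r ^ 2 + ‖x‖ ^ 2)) :=
    h0.sqrt fun x => (sg_arg_pos hr x).ne'
  exact h1.inv fun x => (Real.sqrt_pos.2 (sg_arg_pos hr x)).ne'

theorem dt_cd (hr : 0 < r) (x₀ : E3) : ContDiff ℝ 2 (dtg r x₀) := by
  have h1 : ContDiff ℝ 2 (et0 r) := contDiff_const.mul ((dt_sg_cd hr).pow 7)
  exact h1.comp (contDiff_const.sub contDiff_id)

theorem dt_hasA (hr : 0 < r) (x₀ x : E3) :
    HasFDerivAt (dtg r x₀) (dtA r x₀ x • innerSL ℝ (x₀ - x)) x := by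
  have h1 : HasFDerivAt (fun x : E3 => x₀ - x) (-ContinuousLinearMap.id ℝ E3) x :=
    (hasFDerivAt_id x).const_sub x₀
  have h2 := (hasFDerivAt_et0 hr (x₀ - x)).comp x h1
  have h3 : HasFDerivAt (dtg r x₀) _ x := h2
  refine h3.congr_fderiv ?_
  ext h
  simp only [ContinuousLinearMap.comp_apply, smul_apply, neg_apply,
    ContinuousLinearMap.id_apply, innerSL_apply_apply, smul_eq_mul, inner_neg_right, dtA]
  ring

theorem dt_fd (hr : 0 < r) (x₀ : E3) :
    fderiv ℝ (dtg r x₀) = fun x => dtA r x₀ x • innerSL ℝ (x₀ - x) :=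
  funext fun x => (dt_hasA hr x₀ x).fderiv

theorem dt_hasB (hr : 0 < r) (x₀ x : E3) :
    HasFDerivAt (dtA r x₀)
      ((945 / 2 * c0 * r ^ 4 * sg r (x₀ - x) ^ 11) • innerSL ℝ (x₀ - x)) x := by
  have h1 : HasFDerivAt (fun x : E3 => x₀ - x) (-ContinuousLinearMap.id ℝ E3) x :=
    (hasFDerivAt_id x).const_sub x₀
  have h2 := (((hasFDerivAt_sg_pow hr 9 (x₀ - x)).const_mul
    (105 / 2 * c0 * r ^ 4))).comp x h1
  have h3 : HasFDerivAt (dtA r x₀) _ x := h2
  refine h3.congr_fderiv ?_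
  ext h
  simp only [ContinuousLinearMap.comp_apply, smul_apply, neg_apply,
    ContinuousLinearMap.id_apply, innerSL_apply_apply, smul_eq_mul, inner_neg_right]
  push_cast
  ring

theorem dt_n1 (hr : 0 < r) (x₀ x : E3) : ‖fderiv ℝ (dtg r x₀) x‖ ≤ 7 / r * dtg r x₀ x := by
  have h0 := sg_pos hr (x₀ - x)
  have h1 := c0_pos
  have h2 := nrm_sg hr (x₀ - x)
  have h3 := sg_le_inv hr (x₀ - x)
  rw [(dt_hasA hr x₀ x).fderiv, norm_smul, innerSL_apply_norm, Real.norm_of_nonneg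
    (by unfold dtA; positivity)]
  calc dtA r x₀ x * ‖x₀ - x‖
      = (105 / 2 * c0 * r ^ 4 * sg r (x₀ - x) ^ 7) * sg r (x₀ - x) *
        (‖x₀ - x‖ * sg r (x₀ - x)) := by unfold dtA; ring
    _ ≤ (105 / 2 * c0 * r ^ 4 * sg r (x₀ - x) ^ 7) * r⁻¹ * 1 := by gcongr
    _ = 7 / r * dtg r x₀ x := by unfold dtg et0; field_simp; ring

theorem dt_n2 (hr : 0 < r) (x₀ x : E3) :
    ‖fderiv ℝ (fderiv ℝ (dtg r x₀)) x‖ ≤ 70 / r ^ 2 * dtg r x₀ x := by
  have h0 := sg_pos hr (x₀ - x)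
  have h1 := c0_pos
  have h2 := nrm_sg hr (x₀ - x)
  have h3 := sg_le_inv hr (x₀ - x)
  have hd : DifferentiableAt ℝ (fderiv ℝ (dtg r x₀)) x :=
    (((dt_cd hr x₀).fderiv_right (m := 1) (by norm_num)).differentiable (by norm_num)) x
  have hg0 : 0 ≤ 70 / r ^ 2 * dtg r x₀ x := by
    have := (dt_et0_pos hr (x₀ - x)).le
    unfold dtg
    positivity
  refine ContinuousLinearMap.opNorm_le_bound₂ _ hg0 fun h k => ?_
  have h4 : HasFDerivAt (fun z => fderiv ℝ (dtg r x₀) z k)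
      ((fderiv ℝ (fderiv ℝ (dtg r x₀)) x).flip k) x := by
    have := hd.hasFDerivAt.clm_apply (hasFDerivAt_const k x)
    refine this.congr_fderiv ?_
    ext h
    simp
  have h5 : HasFDerivAt (fun z : E3 => ⟪x₀ - z, k⟫_ℝ) (-(innerSL ℝ k)) x := by
    have h6 : HasFDerivAt (fun z : E3 => ⟪x₀, k⟫_ℝ - innerSL ℝ k z) (-(innerSL ℝ k)) x :=
      (innerSL ℝ k).hasFDerivAt.const_sub _
    refine h6.congr_of_eventuallyEq (Eventually.of_forall fun z => ?_)
    simp only [innerSL_apply_apply]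
    rw [inner_sub_left, real_inner_comm z k]
  have h6 := (dt_hasB hr x₀ x).mul h5
  have h7 := h6.congr_of_eventuallyEq (f₁ := fun z => fderiv ℝ (dtg r x₀) z k)
    (Eventually.of_forall fun z => by
      simp only [dt_fd hr, smul_apply, innerSL_apply_apply, smul_eq_mul, Pi.mul_apply])
  have h8 := congrArg (fun L => L h) (h4.unique h7)
  simp only [ContinuousLinearMap.flip_apply, add_apply, smul_apply, neg_apply,
    innerSL_apply_apply, smul_eq_mul] at h8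
  rw [h8]
  have b1 := abs_real_inner_le_norm (x₀ - x) h
  have b2 := abs_real_inner_le_norm (x₀ - x) k
  have b3 := abs_real_inner_le_norm k h
  have hA : 0 ≤ dtA r x₀ x := by unfold dtA; positivity
  calc ‖dtA r x₀ x * -⟪k, h⟫_ℝ + ⟪x₀ - x, k⟫_ℝ *
        (945 / 2 * c0 * r ^ 4 * sg r (x₀ - x) ^ 11 * ⟪x₀ - x, h⟫_ℝ)‖
      ≤ dtA r x₀ x * |⟪k, h⟫_ℝ| + |⟪x₀ - x, k⟫_ℝ| *
        (945 / 2 * c0 * r ^ 4 * sg r (x₀ - x) ^ 11 * |⟪x₀ - x, h⟫_ℝ|) := by
        refine (norm_add_le _ _).trans (le_of_eq ?_)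
        rw [norm_mul, norm_mul, norm_mul, norm_neg, Real.norm_of_nonneg hA,
          Real.norm_of_nonneg (show 0 ≤ 945 / 2 * c0 * r ^ 4 * sg r (x₀ - x) ^ 11 by positivity)]
        simp only [Real.norm_eq_abs]
    _ ≤ dtA r x₀ x * (‖k‖ * ‖h‖) + (‖x₀ - x‖ * ‖k‖) *
        (945 / 2 * c0 * r ^ 4 * sg r (x₀ - x) ^ 11 * (‖x₀ - x‖ * ‖h‖)) := by gcongr
    _ = (105 / 2 * c0 * r ^ 4 * sg r (x₀ - x) ^ 7) * (sg r (x₀ - x) ^ 2 + 9 *
          (sg r (x₀ - x) ^ 2 * (‖x₀ - x‖ * sg r (x₀ - x)) ^ 2)) * (‖h‖ * ‖k‖) := by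
        unfold dtA; ring
    _ ≤ (105 / 2 * c0 * r ^ 4 * sg r (x₀ - x) ^ 7) * (r⁻¹ ^ 2 + 9 *
          (r⁻¹ ^ 2 * 1 ^ 2)) * (‖h‖ * ‖k‖) := by gcongr
    _ = 70 / r ^ 2 * dtg r x₀ x * ‖h‖ * ‖k‖ := by unfold dtg et0; field_simp; ring

theorem dt_int (hr : 0 < r) (x₀ : E3) : Integrable (dtg r x₀) :=
  (integrable_et0 hr).comp_sub_left x₀

theorem dt_one (hr : 0 < r) (x₀ : E3) : ∫ x, dtg r x₀ x = 1 := by
  unfold dtg
  rw [integral_sub_left_eq_self (fun x => et0 r x) volume x₀, integral_et0 hr]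

theorem stDt : StDt := by
  refine ⟨70, by norm_num, fun r x₀ hr hr1 => ⟨?_, dt_one hr x₀, ?_⟩⟩
  · have hp : ∀ x, 0 < dtg r x₀ x := fun x => dt_et0_pos hr (x₀ - x)
    have hr2 : 0 < r ^ 2 := by positivity
    have e1 : 7 / r ≤ 70 / r ^ 2 := by
      rw [div_le_div_iff₀ hr hr2]
      nlinarith
    refine ⟨dt_cd hr x₀, hp, dt_int hr x₀, ⟨_, fun x => dt_et0_le hr (x₀ - x)⟩, ?_, fun x => ?_,
      dt_n2 hr x₀⟩
    · rw [le_div_iff₀ hr2]
      nlinarith
    · exact (dt_n1 hr x₀ x).trans (mul_le_mul_of_nonneg_right e1 (hp x).le)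
  · have hp : ∀ x, 0 < dtg r x₀ x := fun x => dt_et0_pos hr (x₀ - x)
    have e1 : ∀ x, ‖fderiv ℝ (dtg r x₀) x‖ ^ 2 / dtg r x₀ x ≤ 70 / r ^ 2 * dtg r x₀ x := by
      intro x
      rw [div_le_iff₀ (hp x)]
      calc ‖fderiv ℝ (dtg r x₀) x‖ ^ 2 ≤ (7 / r * dtg r x₀ x) ^ 2 :=
            pow_le_pow_left₀ (norm_nonneg _) (dt_n1 hr x₀ x) 2
        _ = 49 / r ^ 2 * dtg r x₀ x ^ 2 := by ring
        _ ≤ 70 / r ^ 2 * dtg r x₀ x ^ 2 := by gcongr; norm_num
        _ = 70 / r ^ 2 * dtg r x₀ x * dtg r x₀ x := by ring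
    calc fi (dtg r x₀) ≤ ∫ x, 70 / r ^ 2 * dtg r x₀ x := by
          refine integral_mono_of_nonneg (Eventually.of_forall fun x => ?_)
            ((dt_int hr x₀).const_mul _) (Eventually.of_forall e1)
          exact div_nonneg (sq_nonneg _) (hp x).le
      _ = 70 / r ^ 2 := by rw [integral_const_mul, dt_one hr, mul_one]

theorem dt_lip {f : E3 → E3} {D : ℝ} (hf : ContDiff ℝ 1 f) (hD : ∀ i x, ‖pd i f x‖ ≤ D)
    (x y : E3) : ‖f x - f y‖ ≤ 3 * D * ‖x - y‖ := by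
  have hD0 : 0 ≤ D := (norm_nonneg _).trans (hD 0 0)
  have h1 : ∀ z, ‖fderiv ℝ f z‖ ≤ 3 * D := by
    intro z
    refine ContinuousLinearMap.opNorm_le_bound _ (by positivity) fun v => ?_
    have h1 : v = ∑ j, v j • ee j := by
      ext i
      simp [ee, Pi.single_apply]
    have h2 : fderiv ℝ f z v = ∑ j, v j • pd j f z := by
      conv_lhs => rw [h1]
      rw [map_sum]
      refine Finset.sum_congr rfl fun j _ => ?_
      rw [map_smul]
      rfl
    rw [h2]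
    calc ‖∑ j, v j • pd j f z‖ ≤ ∑ j, ‖v j • pd j f z‖ := norm_sum_le _ _
      _ ≤ ∑ _j : Fin 3, ‖v‖ * D := by
          refine Finset.sum_le_sum fun j _ => ?_
          rw [norm_smul]
          have h3 : ‖v j‖ ≤ ‖v‖ := PiLp.norm_apply_le v j
          have h4 := hD j z
          gcongr
      _ = 3 * D * ‖v‖ := by simp; ring
  exact convex_univ.norm_image_sub_le_of_norm_fderiv_le
    (fun z _ => hf.differentiable (by norm_num) z) (fun z _ => h1 z) (mem_univ y) (mem_univ x)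

theorem stMo : StMo := by
  have hJ := JJ_pos (n := 6) (by norm_num)
  have hc := c0_pos
  refine ⟨45 / 2 * c0 * JJ 6, by positivity, fun r D x f hr hf hB hD => ?_⟩
  obtain ⟨B, hB⟩ := hB
  have hD0 : 0 ≤ D := (norm_nonneg _).trans (hD 0 0)
  have i1 : Integrable (fun y => et0 r y • f (x - y)) (volume : Measure E3) := by
    refine ((integrable_et0 hr).mul_const B).mono'
      ((continuous_et0 hr).smul (hf.continuous.comp
        (continuous_const.sub continuous_id))).aestronglyMeasurable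
      (Eventually.of_forall fun y => ?_)
    rw [norm_smul, Real.norm_of_nonneg (et0_nonneg hr y)]
    exact mul_le_mul_of_nonneg_left (hB _) (et0_nonneg hr y)
  have i2 : Integrable (fun y => et0 r y • f x) (volume : Measure E3) :=
    (integrable_et0 hr).smul_const _
  have e1 : f x - cvf (et0 r) f x = ∫ y, et0 r y • (f x - f (x - y)) := by
    simp only [smul_sub]
    rw [integral_sub i2 i1, integral_smul_const, integral_et0 hr, one_smul]
    rfl
  rw [e1]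
  have e2 : ∀ y, ‖et0 r y • (f x - f (x - y))‖ ≤
      45 / 2 * c0 * D * r ^ 4 * sg r y ^ 6 := by
    intro y
    have h0 := (sg_pos hr y).le
    have h1 := nrm_sg hr y
    have h2 := dt_lip hf hD x (x - y)
    rw [sub_sub_cancel] at h2
    rw [norm_smul, Real.norm_of_nonneg (et0_nonneg hr y)]
    calc et0 r y * ‖f x - f (x - y)‖ ≤ et0 r y * (3 * D * ‖y‖) :=
          mul_le_mul_of_nonneg_left h2 (et0_nonneg hr y)
      _ = 45 / 2 * c0 * D * r ^ 4 * sg r y ^ 6 * (‖y‖ * sg r y) := by unfold et0; ring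
      _ ≤ 45 / 2 * c0 * D * r ^ 4 * sg r y ^ 6 * 1 := by gcongr
      _ = _ := by ring
  calc ‖∫ y, et0 r y • (f x - f (x - y))‖
      ≤ ∫ y, ‖et0 r y • (f x - f (x - y))‖ := norm_integral_le_integral_norm _
    _ ≤ ∫ y, 45 / 2 * c0 * D * r ^ 4 * sg r y ^ 6 :=
        integral_mono_of_nonneg (Eventually.of_forall fun _ => norm_nonneg _)
          ((integrable_sg hr (by norm_num)).const_mul _) (Eventually.of_forall e2)
    _ = 45 / 2 * c0 * JJ 6 * r * D := by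
        rw [integral_const_mul, integral_sg hr]
        field_simp

end Pool.Agent.TF.S2
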