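import Pool.Agent.TF.S2.Def

/-!
# Block S2: the dual densities
-/

set_option autoImplicit false

namespace Pool.Agent.TF.S2

open MeasureTheory Set Filter Topology Pool.Agent.TO Pool.Agent.TB
open scoped ENNReal NNReal Real InnerProductSpace

theorem du_den_mono {M M' : ℝ} {ρ : E3 → ℝ} (h : Den M ρ) (hM : M ≤ M') : Den M' ρ where
  cd := h.cd
  pos := h.pos
  int := h.int
  bdd := h.bdd
  one := h.one.trans hM
  d1 x := (h.d1 x).trans (mul_le_mul_of_nonneg_right hM (h.pos x).le)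
  d2 x := (h.d2 x).trans (mul_le_mul_of_nonneg_right hM (h.pos x).le)

theorem du_fi_nonneg {M : ℝ} {ρ : E3 → ℝ} (h : Den M ρ) : 0 ≤ fi ρ :=
  integral_nonneg fun x => div_nonneg (sq_nonneg _) (h.pos x).le

theorem du_heat (hGa : StGa) (hDa : StDa) {d M : ℝ} (hd : 0 < d) {ρ : E3 → ℝ} (h : Den M ρ) :
    Den M (heat d ρ) ∧ ∫ x, heat d ρ x = ∫ x, ρ x ∧ fi (heat d ρ) ≤ fi ρ := by
  obtain ⟨h1, h2⟩ := hGa d hd
  rw [h2 ρ]
  exact hDa (gam d) h1 M ρ h

/-- the densities, numbered backwards -/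
noncomputable def duD (d : ℝ) (lam : ℕ → E3 → ℝ) (b : ℕ → E3 → E3) (ρ : E3 → ℝ) (n : ℕ) :
    ℕ → E3 → ℝ
  | 0 => ρ
  | k + 1 => Jt d (lam (n - (k + 1))) (b (n - (k + 1))) (heat d (duD d lam b ρ n k))

theorem du_step (d : ℝ) (lam : ℕ → E3 → ℝ) (b : ℕ → E3 → E3) (ρ : E3 → ℝ) {n m : ℕ}
    (hm : m < n) : duD d lam b ρ n (n - m) =
      Jt d (lam m) (b m) (heat d (duD d lam b ρ n (n - (m + 1)))) := by
  have e1 : n - m = (n - (m + 1)) + 1 := by omega
  have e2 : n - ((n - (m + 1)) + 1) = m := by omega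
  rw [e1, duD, e2]

theorem du_den (hGa : StGa) (hDa : StDa) (hDj : StDj) {Cb c d s0 M : ℝ} {n : ℕ}
    {lam : ℕ → E3 → ℝ} {b : ℕ → E3 → E3} {ρ : E3 → ℝ} (hd : 0 < d)
    (hco : ∀ m < n, Co Cb c (s0 + m * d) d (lam m) (b m)) (hρ : Den M ρ) :
    ∀ k, k ≤ n → Den (M * (1 + 12 * (d * Cb)) ^ k) (duD d lam b ρ n k) := by
  intro k
  induction k with
  | zero =>
    intro _
    rw [pow_zero, mul_one]
    exact hρ
  | succ k ih =>
    intro hk
    have h1 := ih (by omega)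
    have h2 := (du_heat hGa hDa hd h1).1
    have h3 := hDj Cb c _ d _ _ _ _ (hco (n - (k + 1)) (by omega)) h2
    rw [mul_assoc, ← pow_succ] at h3
    exact h3

theorem stDu (hGa : StGa) (hDa : StDa) (hDj : StDj) (hFj : StFj) (hNu : StNu) : StDu := by
  intro Cb c d s0 κ₁ M T n lam b ρ hs0 hd hCb hco hρ hm1 hκ hfi hT hε
  have hM1 := hρ.one
  have hdC : 0 ≤ d * Cb := mul_nonneg hd.le (by linarith)
  have hpow : ∀ k : ℕ, k ≤ n → (1 + 12 * (d * Cb)) ^ k ≤ Real.exp (12 * Cb * T) := by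
    intro k hk
    have h1 : 1 + 12 * (d * Cb) ≤ Real.exp (12 * (d * Cb)) := by
      have := Real.add_one_le_exp (12 * (d * Cb))
      linarith
    calc (1 + 12 * (d * Cb)) ^ k ≤ Real.exp (12 * (d * Cb)) ^ k :=
          pow_le_pow_left₀ (by linarith) h1 k
      _ = Real.exp (k * (12 * (d * Cb))) := by rw [← Real.exp_nat_mul]
      _ ≤ Real.exp (12 * Cb * T) := by
          apply Real.exp_le_exp.2
          have h2 : (k : ℝ) ≤ n := by exact_mod_cast hk
          have h3 : (k : ℝ) * d ≤ T := (mul_le_mul_of_nonneg_right h2 hd.le).trans hT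
          calc (k : ℝ) * (12 * (d * Cb)) = 12 * Cb * (k * d) := by ring
            _ ≤ 12 * Cb * T := mul_le_mul_of_nonneg_left h3 (by linarith)
  set r : ℕ → E3 → ℝ := fun m => duD d lam b ρ n (n - m) with hr
  have hden : ∀ m, Den (MM M Cb T) (r m) := by
    intro m
    refine du_den_mono (du_den hGa hDa hDj hd hco hρ (n - m) (Nat.sub_le _ _)) ?_
    exact mul_le_mul_of_nonneg_left (hpow _ (Nat.sub_le _ _)) (by linarith)
  have hrn : r n = ρ := by
    simp only [hr, Nat.sub_self]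
    rfl
  have hstep : ∀ m < n, r m = Jt d (lam m) (b m) (heat d (r (m + 1))) := fun m hm =>
    du_step d lam b ρ hm
  have hF : ∀ m < n, 0 ≤ kl d (lam m) (b m) (heat d (r (m + 1))) ∧
      ∫ x, r m x ≤ (1 + 18 * (d * Cb) ^ 2) * (∫ x, r (m + 1) x) -
        kl d (lam m) (b m) (heat d (r (m + 1))) ∧
      fi (r m) ≤ (1 + 18 * (d * Cb) ^ 2) * fi (r (m + 1)) +
        3 * c ^ 2 / (s0 + m * d) * kl d (lam m) (b m) (heat d (r (m + 1))) := by
    intro m hm
    obtain ⟨h1, h2, h3⟩ := du_heat hGa hDa hd (hden (m + 1))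
    obtain ⟨h4, h5, h6⟩ := hFj Cb c _ d _ _ _ _ (hco m hm) h1
    rw [← hstep m hm] at h5 h6
    rw [h2] at h5
    refine ⟨h4, h5, h6.trans ?_⟩
    have h7 : (1 + 18 * (d * Cb) ^ 2) * fi (heat d (r (m + 1))) ≤
        (1 + 18 * (d * Cb) ^ 2) * fi (r (m + 1)) := mul_le_mul_of_nonneg_left h3 (by positivity)
    linarith
  have hεn : 18 * (d * Cb) ^ 2 * n ≤ 1 / 2 := by
    have h1 : 18 * Cb ^ 2 * d * (n * d) ≤ 18 * Cb ^ 2 * d * T :=
      mul_le_mul_of_nonneg_left hT (by positivity)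
    nlinarith
  obtain ⟨h1, h2⟩ := hNu n d s0 c κ₁ (18 * (d * Cb) ^ 2) (fun j => ∫ x, r j x)
    (fun j => fi (r j)) (fun j => if j < n then kl d (lam j) (b j) (heat d (r (j + 1))) else 0)
    hd hs0 (by positivity) hεn (fun j => integral_nonneg fun x => ((hden j).pos x).le)
    (fun j => du_fi_nonneg (hden j)) (fun j => by
      by_cases hj : j < n
      · simp only [hj, if_true]
        exact (hF j hj).1
      · simp only [hj, if_false]
        exact le_rfl)
    (by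
      simp only [hrn]
      exact hm1) hκ (by
      simp only [hrn]
      exact hfi)
    (fun j hj => by
      simp only [hj, if_true]
      exact (hF j hj).2.1)
    (fun j hj => by
      simp only [hj, if_true]
      exact (hF j hj).2.2)
  exact ⟨r, hrn, hstep, fun m _ => hden m, h1, h2⟩

end Pool.Agent.TF.S2
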