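import Pool.Agent.TF.S2.FiQ

/-!
# Block S2, row Fi: the main statement of the block
-/

set_option autoImplicit false
set_option maxHeartbeats 400000

namespace Pool.Agent.TF.S2

open MeasureTheory Set Filter Topology Pool.Agent.TO Pool.Agent.TB
open scoped ENNReal NNReal Real InnerProductSpace

/-! ## telescoping -/

theorem fi99_lin {n : ℕ} {d e : ℝ} {l q : ℕ → ℝ}
    (h : ∀ m < n, |l (m + 1) - l m| ≤ d * q m + e) :
    |l n| ≤ |l 0| + (∑ m ∈ Finset.range n, d * q m) + n * e := by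
  induction n with
  | zero => simp
  | succ n ih =>
    have h1 := ih fun m hm => h m (by omega)
    have h2 := h n (by omega)
    have h3 : |l (n + 1)| ≤ |l n| + |l (n + 1) - l n| := by
      calc |l (n + 1)| = |l n + (l (n + 1) - l n)| := by ring_nf
        _ ≤ _ := abs_add_le _ _
    rw [Finset.sum_range_succ]
    push_cast
    linarith

theorem fi99_quad {n : ℕ} {d A e : ℝ} {E G q : ℕ → ℝ} (hE : 0 ≤ E n)
    (h : ∀ m < n, E (m + 1) + 2 * d * G (m + 1) ≤ E m + 2 * d * A * q m + e) :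
    2 * (∑ m ∈ Finset.range n, d * G (m + 1)) ≤
      E 0 + 2 * A * (∑ m ∈ Finset.range n, d * q m) + n * e := by
  have key : ∀ k ≤ n, E k + 2 * (∑ m ∈ Finset.range k, d * G (m + 1)) ≤
      E 0 + 2 * A * (∑ m ∈ Finset.range k, d * q m) + k * e := by
    intro k
    induction k with
    | zero => intro _; simp
    | succ k ih =>
      intro hk
      have h1 := ih (by omega)
      have h2 := h k (by omega)
      rw [Finset.sum_range_succ, Finset.sum_range_succ]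
      push_cast
      linarith
  have := key n le_rfl
  linarith

theorem fi99_shift {n : ℕ} {d : ℝ} (hd : 0 ≤ d) {G : ℕ → ℝ} (hG : ∀ m, 0 ≤ G m) :
    ∑ m ∈ Finset.range n, d * G m ≤ d * G 0 + ∑ m ∈ Finset.range n, d * G (m + 1) := by
  have h1 : ∑ m ∈ Finset.range n, d * G m ≤ ∑ m ∈ Finset.range (n + 1), d * G m := by
    rw [Finset.sum_range_succ]
    have := mul_nonneg hd (hG n)
    linarith
  rw [Finset.sum_range_succ'] at h1
  linarith

/-- the final arithmetic -/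
theorem fi99_arith {N C₁ A B L Cb κ₁ c d T M' Q S F : ℝ} (hN : 0 ≤ N) (hC : 0 ≤ C₁)
    (hd : 0 ≤ d) (hM : 0 ≤ M') (hT : 0 ≤ T) (hB : 1 ≤ B) (hQ : 0 ≤ Q)
    (hsm : 10 * C₁ * N * A ≤ 1)
    (h1 : Q ≤ C₁ * (5 * S + A ^ 2 / 4 * F + 2 * L ^ 2 * T))
    (hF : F ≤ 2 * κ₁ + 12 * c ^ 2)
    (hS : S ≤ N * (2 * d * B ^ 2 + A ^ 2 + A * Q + 13 * M' * B ^ 2 * Cb ^ 2 * T * d))
    {X : ℝ} (hX : X ≤ Q + 6 * M' * B * Cb ^ 2 * T * d) :
    X ≤ C₁ * (10 * N + κ₁ + 6 * c ^ 2) * A ^ 2 + 4 * C₁ * L ^ 2 * T +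
      d * (20 * N * C₁ * B ^ 2 + (130 * N * C₁ + 6) * M' * B ^ 2 * Cb ^ 2 * T) := by
  have e1 : C₁ * (5 * S) ≤
      C₁ * (5 * (N * (2 * d * B ^ 2 + A ^ 2 + A * Q + 13 * M' * B ^ 2 * Cb ^ 2 * T * d))) := by
    gcongr
  have e2 : C₁ * (A ^ 2 / 4 * F) ≤ C₁ * (A ^ 2 / 4 * (2 * κ₁ + 12 * c ^ 2)) := by
    gcongr
  have e3 : 5 * C₁ * N * A * Q ≤ 1 / 2 * Q := by
    apply mul_le_mul_of_nonneg_right _ hQ
    linarith
  have e4 : Q / 2 ≤ C₁ * (5 * (N * (2 * d * B ^ 2 + A ^ 2 + 13 * M' * B ^ 2 * Cb ^ 2 * T * d))) +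
      C₁ * (A ^ 2 / 4 * (2 * κ₁ + 12 * c ^ 2)) + C₁ * (2 * L ^ 2 * T) := by
    have : Q ≤ C₁ * (5 * S) + C₁ * (A ^ 2 / 4 * F) + C₁ * (2 * L ^ 2 * T) := by
      calc Q ≤ _ := h1
        _ = _ := by ring
    have e5 : C₁ * (5 * (N * (2 * d * B ^ 2 + A ^ 2 + A * Q + 13 * M' * B ^ 2 * Cb ^ 2 * T * d)))
        = C₁ * (5 * (N * (2 * d * B ^ 2 + A ^ 2 + 13 * M' * B ^ 2 * Cb ^ 2 * T * d))) +
          5 * C₁ * N * A * Q := by ring
    linarith
  have e6 : 6 * M' * B * Cb ^ 2 * T * d ≤ 6 * M' * B ^ 2 * Cb ^ 2 * T * d := by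
    have : B ≤ B ^ 2 := by nlinarith
    gcongr
  calc X ≤ Q + 6 * M' * B * Cb ^ 2 * T * d := hX
    _ ≤ 2 * (C₁ * (5 * (N * (2 * d * B ^ 2 + A ^ 2 + 13 * M' * B ^ 2 * Cb ^ 2 * T * d))) +
      C₁ * (A ^ 2 / 4 * (2 * κ₁ + 12 * c ^ 2)) + C₁ * (2 * L ^ 2 * T)) +
        6 * M' * B ^ 2 * Cb ^ 2 * T * d := by linarith
    _ = _ := by ring

/-! ## the source -/

theorem fi99_heat_le {σ B : ℝ} (hσ : 0 < σ) {u : E3 → ℝ} (hu : Measurable u)
    (h0 : ∀ x, 0 ≤ u x) (hB : ∀ᵐ x, u x ≤ B) (x : E3) : heat σ u x ≤ B := by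
  have h1 : ∀ᵐ y : E3, u (x - y) ≤ B :=
    (Measure.measurePreserving_sub_left volume x).quasiMeasurePreserving.ae hB
  calc heat σ u x = ∫ y, hk σ y • u (x - y) := rfl
    _ ≤ ∫ y, hk σ y * B := by
        apply integral_mono_of_nonneg
        · exact Eventually.of_forall fun y => smul_nonneg (hk_pos hσ y).le (h0 _)
        · exact (integrable_hk hσ).mul_const B
        · filter_upwards [h1] with y hy
          rw [smul_eq_mul]
          exact mul_le_mul_of_nonneg_left hy (hk_pos hσ y).le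
    _ = B := by rw [integral_mul_const, integral_hk hσ, one_mul]

theorem fi99_heat_nn {σ : ℝ} (hσ : 0 < σ) {u : E3 → ℝ} (h0 : ∀ x, 0 ≤ u x) (x : E3) :
    0 ≤ heat σ u x :=
  integral_nonneg fun y => smul_nonneg (hk_pos hσ y).le (h0 _)

theorem fi99_src (hAv : StAv) (hGa : StGa) {η B M : ℝ} (hη : 0 < η) {p u s : E3 → ℝ}
    (hp : Den M p) (hu : Measurable u) (h0 : ∀ x, 0 ≤ u x) (hB : ∀ᵐ x, u x ≤ B)
    (hs : ∀ x, |s x| ≤ heat η u x) :
    ∫ x, p x * |s x| ≤ ∫ x, heat η p x * u x := by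
  obtain ⟨g1, g2⟩ := hGa η hη
  have h3 := (hAv _ g1).2.2 p u B hp.cd.continuous hp.int hu (by
    filter_upwards [hB] with x hx
    rw [abs_of_nonneg (h0 x)]
    exact hx)
  rw [g2 p, ← h3, ← g2 u]
  apply integral_mono_of_nonneg
  · exact Eventually.of_forall fun x => mul_nonneg (hp.pos x).le (abs_nonneg _)
  · refine hp.int.mul_bdd (c := B) (stronglyMeasurable_heat hη
      hu.stronglyMeasurable).aestronglyMeasurable ?_
    refine Eventually.of_forall fun x => ?_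
    rw [Real.norm_of_nonneg (fi99_heat_nn hη h0 x)]
    exact fi99_heat_le hη hu h0 hB x
  · exact Eventually.of_forall fun x => mul_le_mul_of_nonneg_left (hs x) (hp.pos x).le

theorem fi99_mass {M a : ℝ} {ρ g : E3 → ℝ} (hρ : Den M ρ) (hm : ∫ x, ρ x ≤ 2)
    (h0 : ∀ x, 0 ≤ g x) (ha : ∀ x, g x ≤ a) (ha0 : 0 ≤ a) : ∫ x, ρ x * g x ≤ 2 * a := by
  calc ∫ x, ρ x * g x ≤ ∫ x, ρ x * a := by
        apply integral_mono_of_nonneg
        · exact Eventually.of_forall fun x => mul_nonneg (hρ.pos x).le (h0 x)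
        · exact hρ.int.mul_const a
        · exact Eventually.of_forall fun x => mul_le_mul_of_nonneg_left (ha x) (hρ.pos x).le
    _ = (∫ x, ρ x) * a := integral_mul_const _ _
    _ ≤ 2 * a := mul_le_mul_of_nonneg_right hm ha0

/-! ## the main statement -/

theorem stS2 (hAv : StAv) (hGa : StGa) (hDa : StDa) (hDj : StDj) (hCm : StCm) (hOn : StOn)
    (hDu : StDu) : StS2 := by
  intro ι _ Cb c A B L C₁ η d s0 κ₁ M T n lam b f s u ρ hS hρ hρ1 hκ hfi hnd hT hMd hη hsm a hf0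
  obtain ⟨r, rn, rs, rD, rm, rF⟩ := hDu Cb c d s0 κ₁ M T n lam b ρ hS.s0p hS.d0 hS.Cb1 hS.co hρ
    hρ1 hκ hfi hnd hT
  set M' := MM M Cb T with hM'
  set q : ℕ → ℝ := fun m => ∫ x, heat η (heat d (r (m + 1))) x * u m x with hq
  set Q : ℝ := ∑ m ∈ Finset.range n, d * q m with hQ
  have hd := hS.d0
  have hT0 : 0 ≤ T := le_trans (by positivity) hnd
  have hM0 : 0 ≤ M' := le_trans zero_le_one (rD n le_rfl).one
  have hB0 : 0 ≤ B := le_trans zero_le_one hS.B1
  have heatD : ∀ m < n, Den M' (heat d (r (m + 1))) := fun m hm =>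
    (fq_heat hGa hDa hd (rD (m + 1) hm)).1
  -- the source
  have hsrc : ∀ a, ∀ m < n, ∫ x, heat d (r (m + 1)) x * |s a m x| ≤ q m := fun a m hm =>
    fi99_src hAv hGa hS.ηp (heatD m hm) (hS.um m hm) (hS.u0 m hm) (hS.uB m hm) (hS.src a m hm)
  have hq0 : ∀ m < n, 0 ≤ q m := fun m hm =>
    integral_nonneg fun x => mul_nonneg
      (fi99_heat_nn hS.ηp (fun y => ((heatD m hm).pos y).le) x) (hS.u0 m hm x)
  have hQ0 : 0 ≤ Q := Finset.sum_nonneg fun m hm =>
    mul_nonneg hd.le (hq0 m (Finset.mem_range.1 hm))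
  have hon := fun (a : ι) (m : ℕ) (hm : m < n) => hOn Cb c _ d M' A B (lam m) (b m) (r (m + 1))
    (f a m) (s a m) (hS.co m hm) (rD (m + 1) hm) (hS.f2 a m hm) (hS.s2 a m hm) (hS.fA a m hm)
    hS.B1 hMd
  have hnd2 : (n : ℝ) * (d * Cb) ^ 2 ≤ Cb ^ 2 * T * d := by
    calc (n : ℝ) * (d * Cb) ^ 2 = Cb ^ 2 * (n * d) * d := by ring
      _ ≤ Cb ^ 2 * T * d := by gcongr
  -- (i)
  have h1 : |∫ x, ρ x * f a n x| ≤ Q + 6 * M' * B * Cb ^ 2 * T * d := by
    have h2 := fi99_lin (n := n) (d := d) (e := 6 * M' * B * (d * Cb) ^ 2)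
      (l := fun m => ∫ x, r m x * f a m x) (q := q) (by
        intro m hm
        have h3 := (hon a m hm).1
        rw [← hS.step a m hm, ← rs m hm] at h3
        refine le_trans h3 ?_
        have h4 := hsrc a m hm
        have h5 := rm (m + 1) hm
        have h6 : 3 * M' * B * (d * Cb) ^ 2 * (∫ x, r (m + 1) x) ≤
            3 * M' * B * (d * Cb) ^ 2 * 2 := by gcongr
        have h7 : d * (∫ x, heat d (r (m + 1)) x * |s a m x|) ≤ d * q m := by gcongr
        linarith)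
    have h3 : (fun m => ∫ x, r m x * f a m x) 0 = 0 := by simp [hf0]
    simp only [hf0, mul_zero, integral_zero, abs_zero, zero_add] at h2
    rw [rn] at h2
    have h8 : (n : ℝ) * (6 * M' * B * (d * Cb) ^ 2) ≤ 6 * M' * B * Cb ^ 2 * T * d := by
      calc (n : ℝ) * (6 * M' * B * (d * Cb) ^ 2) = 6 * M' * B * (n * (d * Cb) ^ 2) := by ring
        _ ≤ 6 * M' * B * (Cb ^ 2 * T * d) := by gcongr
        _ = _ := by ring
    linarith
  rcases Nat.eq_zero_or_pos n with hn | hn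
  · subst hn
    simp only [hf0, mul_zero, integral_zero, abs_zero]
    have := hS.C0
    positivity
  -- (ii)
  set G : ι → ℕ → ℝ := fun a m => ∫ x, r m x * ‖fderiv ℝ (f a m) x‖ ^ 2 with hG
  set E : ι → ℕ → ℝ := fun a m => ∫ x, r m x * f a m x ^ 2 with hE
  have hG0 : ∀ a, ∀ m ≤ n, 0 ≤ G a m := fun a m hm =>
    integral_nonneg fun x => mul_nonneg ((rD m hm).pos x).le (by positivity)
  have hE0 : ∀ a, ∀ m ≤ n, 0 ≤ E a m := fun a m hm =>
    integral_nonneg fun x => mul_nonneg ((rD m hm).pos x).le (by positivity)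
  have h2 : ∀ a, ∑ m ∈ Finset.range n, d * G a m ≤
      2 * d * B ^ 2 + A ^ 2 + A * Q + 13 * M' * B ^ 2 * Cb ^ 2 * T * d := by
    intro a
    have h3 := fi99_quad (n := n) (d := d) (A := A) (e := 26 * M' * B ^ 2 * (d * Cb) ^ 2)
      (E := E a) (G := G a) (q := q) (hE0 a n le_rfl) (by
        intro m hm
        have h3 := (hon a m hm).2
        rw [← hS.step a m hm, ← rs m hm] at h3
        refine le_trans h3 ?_
        have h4 := hsrc a m hm
        have h5 := rm (m + 1) hm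
        have h6 : 13 * M' * B ^ 2 * (d * Cb) ^ 2 * (∫ x, r (m + 1) x) ≤
            13 * M' * B ^ 2 * (d * Cb) ^ 2 * 2 := by gcongr
        have hA := hS.A0
        have h7 : 2 * d * A * (∫ x, heat d (r (m + 1)) x * |s a m x|) ≤ 2 * d * A * q m := by
          gcongr
        linarith)
    have h4 : E a 0 ≤ 2 * A ^ 2 := fi99_mass (rD 0 (by omega)) (rm 0 (by omega))
      (fun x => by positivity) (fun x => sq_le_sq' (by linarith [(abs_le.1 (hS.fA a 0 hn x)).1])
        (abs_le.1 (hS.fA a 0 hn x)).2) (by positivity)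
    have h5 : G a 0 ≤ 2 * B ^ 2 := fi99_mass (rD 0 (by omega)) (rm 0 (by omega))
      (fun x => by positivity) (fun x => pow_le_pow_left₀ (norm_nonneg _)
        ((hS.f2 a 0 hn).b1 x) 2) (by positivity)
    have h6 : (n : ℝ) * (26 * M' * B ^ 2 * (d * Cb) ^ 2) ≤ 26 * M' * B ^ 2 * Cb ^ 2 * T * d := by
      calc (n : ℝ) * (26 * M' * B ^ 2 * (d * Cb) ^ 2) = 26 * M' * B ^ 2 * (n * (d * Cb) ^ 2) := by
            ring
        _ ≤ 26 * M' * B ^ 2 * (Cb ^ 2 * T * d) := by gcongr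
        _ = _ := by ring
    have h7 : ∑ m ∈ Finset.range n, d * G a m ≤
        d * G a 0 + ∑ m ∈ Finset.range n, d * G a (m + 1) := by
      have h8 : ∑ m ∈ Finset.range n, d * G a m ≤ ∑ m ∈ Finset.range (n + 1), d * G a m := by
        rw [Finset.sum_range_succ]
        have := mul_nonneg hd.le (hG0 a n le_rfl)
        linarith
      rw [Finset.sum_range_succ'] at h8
      linarith
    have h9 : d * G a 0 ≤ d * (2 * B ^ 2) := by gcongr
    linarith
  -- (iii)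
  have hfq : ∀ m < n, q m ≤ C₁ * (5 * (∑ a, G a m) + A ^ 2 * (fi (r (m + 1)) / 4) + 2 * L ^ 2) := by
    intro m hm
    have h3 := (fiQ hGa hDa hDj hCm hS hm (rD (m + 1) hm) hMd hη (rm (m + 1) hm)).2.2
    rw [← rs m hm] at h3
    exact h3
  have h3 : Q ≤ C₁ * (5 * (∑ a, ∑ m ∈ Finset.range n, d * G a m) +
      A ^ 2 / 4 * (∑ m ∈ Finset.range n, d * fi (r (m + 1))) + 2 * L ^ 2 * T) := by
    calc Q ≤ ∑ m ∈ Finset.range n, d * (C₁ * (5 * (∑ a, G a m) +
          A ^ 2 * (fi (r (m + 1)) / 4) + 2 * L ^ 2)) := by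
          apply Finset.sum_le_sum
          intro m hm
          exact mul_le_mul_of_nonneg_left (hfq m (Finset.mem_range.1 hm)) hd.le
      _ = C₁ * (5 * (∑ m ∈ Finset.range n, ∑ a, d * G a m) +
            A ^ 2 / 4 * (∑ m ∈ Finset.range n, d * fi (r (m + 1))) + 2 * L ^ 2 * (n * d)) := by
          simp only [mul_add, Finset.sum_add_distrib, Finset.mul_sum, Finset.sum_const,
            Finset.card_range, nsmul_eq_mul]
          congr 1
          · congr 1
            · apply Finset.sum_congr rfl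
              intro m _
              apply Finset.sum_congr rfl
              intro a _
              ring
            · apply Finset.sum_congr rfl
              intro m _
              ring
          · ring
      _ ≤ _ := by
          rw [Finset.sum_comm]
          have := hS.C0
          gcongr
  have h4 : ∑ a, ∑ m ∈ Finset.range n, d * G a m ≤ (Fintype.card ι : ℝ) *
      (2 * d * B ^ 2 + A ^ 2 + A * Q + 13 * M' * B ^ 2 * Cb ^ 2 * T * d) := by
    calc ∑ a, ∑ m ∈ Finset.range n, d * G a m ≤ ∑ _a : ι,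
          (2 * d * B ^ 2 + A ^ 2 + A * Q + 13 * M' * B ^ 2 * Cb ^ 2 * T * d) :=
          Finset.sum_le_sum fun a _ => h2 a
      _ = _ := by rw [Finset.sum_const, nsmul_eq_mul, Finset.card_univ]
  exact fi99_arith (by positivity) hS.C0 hd.le hM0 hT0 hS.B1 hQ0 hsm h3 rF h4 h1

end Pool.Agent.TF.S2
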