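import Pool.Agent.TF.S2.Def

/-!
# Block S2: mass and Fisher information of `J~ ρ` (helper14)
-/

set_option autoImplicit false

namespace Pool.Agent.TF.S2

open MeasureTheory Set Filter Topology Pool.Agent.TO Pool.Agent.TB
open scoped ENNReal NNReal Real InnerProductSpace

/-- the elementary inequality -/
theorem fj_ineq {y q P a D : ℝ} (hy : 0 ≤ y) (hy6 : y ≤ 1 / 6) (hP : 0 < P) (hD : 0 ≤ D)
    (hDle : D ≤ q * y * P + (1 - y) * (1 + y / 8) * a) :
    D ^ 2 / ((1 - y) * P) ≤ a ^ 2 / P + 3 * q ^ 2 * (y * P) := by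
  have h1y : 0 < 1 - y := by linarith
  rw [div_le_iff₀ (mul_pos h1y hP)]
  have e1 : (a ^ 2 / P + 3 * q ^ 2 * (y * P)) * ((1 - y) * P) =
      (1 - y) * a ^ 2 + 3 * y * (1 - y) * (q * P) ^ 2 := by
    field_simp
  rw [e1]
  have h2 : D ^ 2 ≤ (q * y * P + (1 - y) * (1 + y / 8) * a) ^ 2 := by
    have := mul_self_le_mul_self hD hDle
    nlinarith
  refine h2.trans ?_
  have e2 : q * y * P + (1 - y) * (1 + y / 8) * a =
      y * (q * P) + (1 - y) * ((1 + y / 8) * a) := by ring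
  rw [e2]
  generalize hu : q * P = u
  generalize hk : 1 + y / 8 = k
  have hk1 : (1 - y) * k ^ 2 ≤ 1 - 3 * y / 4 := by
    subst hk
    nlinarith [pow_nonneg hy 2, pow_nonneg hy 3]
  have hk0 : 1 ≤ k := by linarith
  have hk2 : k ≤ 49 / 48 := by linarith
  have hk3 : k ^ 2 ≤ 11 / 10 := by nlinarith
  -- the three parts
  have p1 : (1 - y) * ((1 - y) * k ^ 2) * a ^ 2 ≤ (1 - y) * (1 - 3 * y / 4) * a ^ 2 :=
    mul_le_mul_of_nonneg_right (mul_le_mul_of_nonneg_left hk1 h1y.le) (sq_nonneg a)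
  have p2 : y * (1 - y) * (2 * (k * u) * a) ≤
      y * (1 - y) * (3 / 4 * a ^ 2 + 4 / 3 * (k * u) ^ 2) := by
    refine mul_le_mul_of_nonneg_left ?_ (mul_nonneg hy h1y.le)
    nlinarith [sq_nonneg (3 / 4 * a - k * u)]
  have p3 : y * ((1 - y) * (4 / 3 * k ^ 2) + y) * u ^ 2 ≤ y * (3 * (1 - y)) * u ^ 2 := by
    refine mul_le_mul_of_nonneg_right (mul_le_mul_of_nonneg_left ?_ hy) (sq_nonneg u)
    nlinarith
  nlinarith [p1, p2, p3]

section

variable {Cb c t d M : ℝ} {lam : E3 → ℝ} {b : E3 → E3} {ρ : E3 → ℝ}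

theorem fj_y (h : Co Cb c t d lam b) (x : E3) : 0 ≤ d * lam x ∧ d * lam x ≤ 1 / 6 := by
  refine ⟨mul_nonneg h.d0.le (h.nn x), ?_⟩
  refine le_trans (mul_le_mul_of_nonneg_left ?_ h.d0.le) h.dC
  have := h.cl.b0 x
  rw [Real.norm_eq_abs, abs_of_nonneg (h.nn x)] at this
  exact this

theorem fj_lamc (h : Co Cb c t d lam b) : Continuous lam := h.cl.cd.continuous

theorem fj_Yc (h : Co Cb c t d lam b) : Continuous fun x => x + d • b x :=
  continuous_id.add (h.cb.cd.continuous.const_smul d)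

/-- integrability of the product with a bounded function -/
theorem fj_int (h : Co Cb c t d lam b) {P : E3 → ℝ} (hP : Integrable P) :
    Integrable fun x => d * lam x * P x := by
  refine hP.bdd_mul (c := 1 / 6) ?_ (ae_of_all _ fun x => ?_)
  · exact (continuous_const.mul (fj_lamc h)).aestronglyMeasurable
  · rw [Real.norm_eq_abs, abs_of_nonneg (fj_y h x).1]
    exact (fj_y h x).2

/-- the derivative of the step -/
theorem fj_der (h : Co Cb c t d lam b) (hρ : Den M ρ) (x : E3) :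
    ‖fderiv ℝ (Jt d lam b ρ) x‖ ≤ d * ‖fderiv ℝ lam x‖ * ρ (x + d • b x) +
      (1 - d * lam x) * (1 + d * lam x / 8) * ‖fderiv ℝ ρ (x + d • b x)‖ := by
  have hl : HasFDerivAt lam (fderiv ℝ lam x) x :=
    (h.cl.cd.differentiable (by norm_num) x).hasFDerivAt
  have hb : HasFDerivAt b (fderiv ℝ b x) x :=
    (h.cb.cd.differentiable (by norm_num) x).hasFDerivAt
  have hr : HasFDerivAt ρ (fderiv ℝ ρ (x + d • b x)) (x + d • b x) :=
    (hρ.cd.differentiable (by norm_num) _).hasFDerivAt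
  have hY : HasFDerivAt (fun x => x + d • b x)
      (ContinuousLinearMap.id ℝ E3 + d • fderiv ℝ b x) x := (hasFDerivAt_id x).add (hb.const_smul d)
  have h1 : HasFDerivAt (fun x => 1 - d * lam x) (-(d • fderiv ℝ lam x)) x :=
    (hl.const_mul d).const_sub 1
  have h2 := h1.mul (hr.comp x hY)
  have h3 : fderiv ℝ (Jt d lam b ρ) x = (1 - d * lam x) •
      (fderiv ℝ ρ (x + d • b x)).comp (ContinuousLinearMap.id ℝ E3 + d • fderiv ℝ b x) +
        ρ (x + d • b x) • (-(d • fderiv ℝ lam x)) := h2.fderiv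
  rw [h3]
  have hy := fj_y h x
  have n1 : ‖ContinuousLinearMap.id ℝ E3 + d • fderiv ℝ b x‖ ≤ 1 + d * lam x / 8 := by
    refine (norm_add_le _ _).trans (add_le_add ContinuousLinearMap.norm_id_le ?_)
    rw [norm_smul, Real.norm_eq_abs, abs_of_pos h.d0, mul_div_assoc]
    exact mul_le_mul_of_nonneg_left (h.db x) h.d0.le
  refine (norm_add_le _ _).trans ?_
  rw [add_comm]
  refine add_le_add ?_ ?_
  · rw [norm_smul, norm_neg, norm_smul, Real.norm_eq_abs, Real.norm_eq_abs,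
      abs_of_pos (hρ.pos _), abs_of_pos h.d0, mul_comm]
  · rw [norm_smul, Real.norm_eq_abs, abs_of_nonneg (by linarith [hy.2] : 0 ≤ 1 - d * lam x),
      mul_assoc]
    refine mul_le_mul_of_nonneg_left ?_ (by linarith [hy.2])
    refine (ContinuousLinearMap.opNorm_comp_le _ _).trans ?_
    rw [mul_comm]
    exact mul_le_mul_of_nonneg_right n1 (norm_nonneg _)

/-- the pointwise bound -/
theorem fj_pt (h : Co Cb c t d lam b) (hρ : Den M ρ) (x : E3) :
    ‖fderiv ℝ (Jt d lam b ρ) x‖ ^ 2 / Jt d lam b ρ x ≤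
      ‖fderiv ℝ ρ (x + d • b x)‖ ^ 2 / ρ (x + d • b x) +
        3 * c ^ 2 / t * (d * lam x * ρ (x + d • b x)) := by
  have hy := fj_y h x
  have hst : 0 < √t := Real.sqrt_pos.2 h.t0
  have h1 : d * ‖fderiv ℝ lam x‖ ≤ c / √t * (d * lam x) := by
    have h2 : ‖fderiv ℝ lam x‖ ≤ c * lam x / √t := by
      rw [le_div_iff₀ hst, mul_comm]
      exact h.dl x
    refine (mul_le_mul_of_nonneg_left h2 h.d0.le).trans (le_of_eq ?_)
    ring
  have h3 := fj_ineq (q := c / √t) hy.1 hy.2 (hρ.pos (x + d • b x)) (norm_nonneg _)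
    ((fj_der h hρ x).trans (add_le_add_left
      (mul_le_mul_of_nonneg_right h1 (hρ.pos _).le) _))
  refine h3.trans (le_of_eq ?_)
  rw [div_pow, Real.sq_sqrt h.t0.le, mul_div_assoc]

end

/-- **(S2-Fj)** -/
theorem stFj (hCh : StCh) (_hDj : StDj) : StFj := by
  intro Cb c t d M lam b ρ hC hρ
  have hP := hCh Cb c t d lam b ρ hC hρ.cd.continuous (fun x => (hρ.pos x).le) hρ.int
  have hk := fj_int hC hP.1
  have hfc : Continuous (fderiv ℝ ρ) := hρ.cd.continuous_fderiv (by norm_num)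
  have hF : Continuous fun x => ‖fderiv ℝ ρ x‖ ^ 2 / ρ x :=
    (hfc.norm.pow 2).div hρ.cd.continuous fun x => (hρ.pos x).ne'
  have hF0 : ∀ x, 0 ≤ ‖fderiv ℝ ρ x‖ ^ 2 / ρ x := fun x =>
    div_nonneg (sq_nonneg _) (hρ.pos x).le
  have hFi : Integrable fun x => ‖fderiv ℝ ρ x‖ ^ 2 / ρ x := by
    refine (hρ.int.const_mul (M ^ 2)).mono' hF.aestronglyMeasurable (ae_of_all _ fun x => ?_)
    rw [Real.norm_eq_abs, abs_of_nonneg (hF0 x), div_le_iff₀ (hρ.pos x)]
    have := mul_self_le_mul_self (norm_nonneg _) (hρ.d1 x)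
    nlinarith
  have hQ := hCh Cb c t d lam b _ hC hF hF0 hFi
  refine ⟨integral_nonneg fun x => mul_nonneg (fj_y hC x).1 (hρ.pos _).le, ?_, ?_⟩
  · have h1 : ∫ x, Jt d lam b ρ x = (∫ x, ρ (x + d • b x)) - kl d lam b ρ := by
      rw [kl, ← integral_sub hP.1 hk]
      refine integral_congr_ae (ae_of_all _ fun x => ?_)
      simp only [Jt]
      ring
    rw [h1]
    exact sub_le_sub_right hP.2 _
  · have h1 : fi (Jt d lam b ρ) ≤ ∫ x, (‖fderiv ℝ ρ (x + d • b x)‖ ^ 2 / ρ (x + d • b x) +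
        3 * c ^ 2 / t * (d * lam x * ρ (x + d • b x))) := by
      refine integral_mono_of_nonneg (ae_of_all _ fun x => ?_) (hQ.1.add (hk.const_mul _))
        (ae_of_all _ fun x => fj_pt hC hρ x)
      refine div_nonneg (sq_nonneg _) (mul_nonneg ?_ (hρ.pos _).le)
      linarith [(fj_y hC x).2]
    refine h1.trans ?_
    rw [integral_add hQ.1 (hk.const_mul _), integral_const_mul]
    exact add_le_add_left hQ.2 _

end Pool.Agent.TF.S2
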