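import Pool.Agent.TF.S2.Def

/-!
# Project TF, block S2, row Nu: the summation of the Fisher information
-/

set_option autoImplicit false

namespace Pool.Agent.TF.S2

private theorem nu_pow {n k : ℕ} {ε : ℝ} (h0 : 0 ≤ ε) (h : ε * n ≤ 1 / 2) (hk : k ≤ n) :
    (1 + ε) ^ k ≤ 2 := by
  have h1 : (1 + ε) ^ k ≤ (1 + ε) ^ n := pow_le_pow_right₀ (by linarith) hk
  have h2 : (1 + ε) ^ n ≤ Real.exp (ε * n) := by
    rw [mul_comm, Real.exp_nat_mul]
    exact pow_le_pow_left₀ (by linarith) (by linarith [Real.add_one_le_exp ε]) n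
  have h3 : Real.exp (ε * n) ≤ Real.exp (1 / 2) := Real.exp_le_exp.2 h
  have h4 : Real.exp (1 / 2) ≤ 2 := by
    have h5 : Real.exp (1 / 2) ^ 2 = Real.exp 1 := by
      rw [← Real.exp_nat_mul]; norm_num
    have h6 := Real.exp_one_lt_d9
    nlinarith [Real.exp_pos (1 / 2)]
  linarith

/-- Downward induction. -/
private theorem nu_down {n : ℕ} {ε : ℝ} {x q : ℕ → ℝ} (h0 : 0 ≤ ε) (hq : ∀ j, 0 ≤ q j)
    (h : ∀ j < n, x j ≤ (1 + ε) * x (j + 1) + q j) :
    ∀ k, k ≤ n → x (n - k) ≤ (1 + ε) ^ k * (x n + ∑ i ∈ Finset.Ico (n - k) n, q i) := by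
  intro k
  induction k with
  | zero => intro _; simp
  | succ k ih =>
    intro hk
    have h1 := ih (by omega)
    have h2 := h (n - (k + 1)) (by omega)
    have h3 : n - (k + 1) + 1 = n - k := by omega
    rw [h3] at h2
    have h4 : ∑ i ∈ Finset.Ico (n - (k + 1)) n, q i =
        q (n - (k + 1)) + ∑ i ∈ Finset.Ico (n - k) n, q i := by
      rw [Finset.sum_eq_sum_Ico_succ_bot (by omega), h3]
    have h5 : 1 ≤ (1 + ε) ^ (k + 1) := one_le_pow₀ (by linarith)
    have h6 := hq (n - (k + 1))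
    rw [h4]
    calc x (n - (k + 1)) ≤ (1 + ε) * ((1 + ε) ^ k * (x n + ∑ i ∈ Finset.Ico (n - k) n, q i)) +
          q (n - (k + 1)) := by
            have := mul_le_mul_of_nonneg_left h1 (show 0 ≤ 1 + ε by linarith)
            linarith
      _ ≤ (1 + ε) ^ (k + 1) * (x n + (q (n - (k + 1)) + ∑ i ∈ Finset.Ico (n - k) n, q i)) := by
            rw [pow_succ]
            rw [pow_succ] at h5
            nlinarith

theorem stNu : StNu := by
  intro n d s0 c κ₁ ε m I p hd hs hε hεn hm hI hp hmn hκ hIn hmj hIj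
  -- the masses
  have hA : ∀ k, k ≤ n → m (n - k) + ∑ i ∈ Finset.Ico (n - k) n, p i ≤ (1 + ε) ^ k * m n := by
    intro k
    induction k with
    | zero => intro _; simp
    | succ k ih =>
      intro hk
      have h1 := ih (by omega)
      have h2 := hmj (n - (k + 1)) (by omega)
      have h3 : n - (k + 1) + 1 = n - k := by omega
      rw [h3] at h2
      have h4 : ∑ i ∈ Finset.Ico (n - (k + 1)) n, p i =
          p (n - (k + 1)) + ∑ i ∈ Finset.Ico (n - k) n, p i := by
        rw [Finset.sum_eq_sum_Ico_succ_bot (by omega), h3]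
      have h5 : 0 ≤ ∑ i ∈ Finset.Ico (n - k) n, p i := Finset.sum_nonneg fun i _ => hp i
      have h6 := mul_le_mul_of_nonneg_left h1 (show 0 ≤ 1 + ε by linarith)
      rw [h4, pow_succ]
      nlinarith [mul_nonneg hε h5]
  have h2 : ∀ k, k ≤ n → (1 + ε) ^ k * m n ≤ 2 := by
    intro k hk
    have h3 := nu_pow hε hεn hk
    have h4 : 0 ≤ (1 + ε) ^ k := by positivity
    nlinarith [hm n]
  have hps : ∑ i ∈ Finset.range n, p i ≤ 2 := by
    have h3 := hA n le_rfl
    rw [Nat.sub_self, ← Finset.range_eq_Ico] at h3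
    linarith [h2 n le_rfl, hm 0]
  refine ⟨fun j hj => ?_, ?_⟩
  · have h3 := hA (n - j) (by omega)
    rw [show n - (n - j) = j by omega] at h3
    have h4 : 0 ≤ ∑ i ∈ Finset.Ico j n, p i := Finset.sum_nonneg fun i _ => hp i
    linarith [h2 (n - j) (by omega)]
  · -- the Fisher information
    have hw : ∀ j : ℕ, 0 < s0 + j * d := fun j => by positivity
    have hq : ∀ j : ℕ, 0 ≤ 3 * c ^ 2 / (s0 + j * d) * p j := fun j =>
      mul_nonneg (div_nonneg (by positivity) (hw j).le) (hp j)
    have hB := nu_down (n := n) (ε := ε) (x := I)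
      (q := fun j => 3 * c ^ 2 / (s0 + j * d) * p j) hε hq hIj
    have hI2 : ∀ j ∈ Finset.range n, d * I (j + 1) ≤ 2 * (d * I n) +
        ∑ i ∈ Finset.Ico (j + 1) n, 2 * d * (3 * c ^ 2 / (s0 + i * d) * p i) := by
      intro j hj
      have hj' := Finset.mem_range.1 hj
      have h3 := hB (n - (j + 1)) (by omega)
      rw [show n - (n - (j + 1)) = j + 1 by omega] at h3
      have h4 : 0 ≤ ∑ i ∈ Finset.Ico (j + 1) n, 3 * c ^ 2 / (s0 + i * d) * p i :=
        Finset.sum_nonneg fun i _ => hq i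
      have h5 := nu_pow hε hεn (k := n - (j + 1)) (by omega)
      rw [← Finset.mul_sum]
      have h6 : I (j + 1) ≤ 2 * (I n + ∑ i ∈ Finset.Ico (j + 1) n,
          3 * c ^ 2 / (s0 + i * d) * p i) :=
        h3.trans (mul_le_mul_of_nonneg_right h5 (add_nonneg (hI n) h4))
      nlinarith [mul_le_mul_of_nonneg_left h6 hd.le]
    refine (Finset.sum_le_sum hI2).trans ?_
    rw [Finset.sum_add_distrib, Finset.sum_const, Finset.card_range, nsmul_eq_mul,
      Finset.sum_comm' (t' := Finset.range n) (s' := fun i => Finset.range i) (by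
        intro x y
        simp only [Finset.mem_range, Finset.mem_Ico]
        omega)]
    have h7 : ∀ i ∈ Finset.range n, ∑ _j ∈ Finset.range i,
        2 * d * (3 * c ^ 2 / (s0 + i * d) * p i) ≤ 6 * c ^ 2 * p i := by
      intro i _
      rw [Finset.sum_const, Finset.card_range, nsmul_eq_mul]
      have h8 : (i : ℝ) * (2 * d * (3 * c ^ 2 / (s0 + i * d) * p i)) =
          6 * c ^ 2 * p i * (i * d / (s0 + i * d)) := by
        field_simp
        ring
      rw [h8]
      have h9 : (i : ℝ) * d / (s0 + i * d) ≤ 1 := by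
        rw [div_le_one (hw i)]
        linarith
      exact mul_le_of_le_one_right (mul_nonneg (by positivity) (hp i)) h9
    have h10 := Finset.sum_le_sum h7
    rw [← Finset.mul_sum] at h10
    have h11 : (n : ℝ) * (2 * (d * I n)) ≤ 2 * κ₁ := by
      have h12 : (n : ℝ) * (2 * (d * I n)) ≤ n * (2 * (d * (κ₁ / (s0 + n * d)))) := by
        gcongr
      have h13 : (n : ℝ) * (2 * (d * (κ₁ / (s0 + n * d)))) =
          2 * κ₁ * (n * d / (s0 + n * d)) := by
        field_simp
      have h14 : (n : ℝ) * d / (s0 + n * d) ≤ 1 := by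
        rw [div_le_one (hw n)]
        linarith
      rw [h13] at h12
      exact h12.trans (mul_le_of_le_one_right (by positivity) h14)
    nlinarith [sq_nonneg c]

end Pool.Agent.TF.S2
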