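import Pool.Agent.TF.S2.Def

/-!
# Block S2: one step, linear and quadratic (helper9)
-/

set_option autoImplicit false

namespace Pool.Agent.TF.S2

open MeasureTheory Set Filter Topology Pool.Agent.TO Pool.Agent.TB
open scoped ENNReal NNReal Real InnerProductSpace

theorem on_nonneg {B : ℝ} {f : E3 → ℝ} (h : C2 B f) : 0 ≤ B := (norm_nonneg _).trans (h.b0 0)

theorem on_abs {B : ℝ} {f : E3 → ℝ} (h : C2 B f) (x : E3) : |f x| ≤ B := h.b0 x

theorem on_diff {B : ℝ} {f : E3 → ℝ} (h : C2 B f) : Differentiable ℝ f :=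
  h.cd.differentiable (by norm_num)

theorem on_diff' {B : ℝ} {f : E3 → ℝ} (h : C2 B f) : Differentiable ℝ (fderiv ℝ f) :=
  (h.cd.fderiv_right (m := 1) (by norm_num)).differentiable (by norm_num)

/-- Sums and multiples. -/
theorem on_add {B B' : ℝ} {f s : E3 → ℝ} (hf : C2 B f) (hs : C2 B' s) (d : ℝ) (hd : 0 ≤ d) :
    C2 (B + d * B') (fun x => f x + d * s x) := by
  have e1 : ∀ x, fderiv ℝ (fun x => f x + d * s x) x = fderiv ℝ f x + d • fderiv ℝ s x := by
    intro x
    exact (((on_diff hf x).hasFDerivAt).add ((on_diff hs x).hasFDerivAt.const_mul d)).fderiv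
  have e2 : fderiv ℝ (fun x => f x + d * s x) = fun x => fderiv ℝ f x + d • fderiv ℝ s x :=
    funext e1
  have e3 : ∀ x, fderiv ℝ (fderiv ℝ (fun x => f x + d * s x)) x =
      fderiv ℝ (fderiv ℝ f) x + d • fderiv ℝ (fderiv ℝ s) x := by
    intro x
    rw [e2]
    exact (((on_diff' hf x).hasFDerivAt).add ((on_diff' hs x).hasFDerivAt.const_smul d)).fderiv
  refine ⟨hf.cd.add (contDiff_const.mul hs.cd), fun x => ?_, fun x => ?_, fun x => ?_⟩
  · calc ‖f x + d * s x‖ ≤ ‖f x‖ + ‖d * s x‖ := norm_add_le _ _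
      _ ≤ B + d * B' := by
        rw [norm_mul, Real.norm_of_nonneg hd]
        exact add_le_add (hf.b0 x) (mul_le_mul_of_nonneg_left (hs.b0 x) hd)
  · rw [e1]
    calc ‖fderiv ℝ f x + d • fderiv ℝ s x‖ ≤ ‖fderiv ℝ f x‖ + ‖d • fderiv ℝ s x‖ :=
          norm_add_le _ _
      _ ≤ B + d * B' := by
        rw [norm_smul, Real.norm_of_nonneg hd]
        exact add_le_add (hf.b1 x) (mul_le_mul_of_nonneg_left (hs.b1 x) hd)
  · rw [e3]
    refine (ContinuousLinearMap.opNorm_add_le _ _).trans ?_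
    refine add_le_add (hf.b2 x) ((ContinuousLinearMap.opNorm_smul_le _ _).trans ?_)
    rw [Real.norm_of_nonneg hd]
    exact mul_le_mul_of_nonneg_left (hs.b2 x) hd

/-- Squares. -/
theorem on_sq {B : ℝ} {f : E3 → ℝ} (hf : C2 B f) : C2 (4 * B ^ 2) (fun x => f x ^ 2) := by
  have hB := on_nonneg hf
  have e1 : ∀ x, fderiv ℝ (fun x => f x ^ 2) x = (2 * f x) • fderiv ℝ f x := by
    intro x
    have h := (((on_diff hf x).hasFDerivAt).pow 2).fderiv
    rw [h]
    simp
  have e2 : fderiv ℝ (fun x => f x ^ 2) = fun x => (2 * f x) • fderiv ℝ f x := funext e1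
  have e3 : ∀ x, fderiv ℝ (fderiv ℝ (fun x => f x ^ 2)) x =
      (2 * f x) • fderiv ℝ (fderiv ℝ f) x +
        ((2 : ℝ) • fderiv ℝ f x).smulRight (fderiv ℝ f x) := by
    intro x
    rw [e2]
    exact (((on_diff hf x).hasFDerivAt.const_mul 2).smul ((on_diff' hf x).hasFDerivAt)).fderiv
  have h0 : ∀ x, |f x| ≤ B := on_abs hf
  refine ⟨hf.cd.pow 2, fun x => ?_, fun x => ?_, fun x => ?_⟩
  · rw [norm_pow]
    have h1 : ‖f x‖ ^ 2 ≤ B ^ 2 := pow_le_pow_left₀ (norm_nonneg _) (hf.b0 x) 2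
    nlinarith [sq_nonneg B]
  · rw [e1, norm_smul]
    have h1 : ‖2 * f x‖ ≤ 2 * B := by
      rw [norm_mul]
      norm_num
      exact h0 x
    have h2 : ‖2 * f x‖ * ‖fderiv ℝ f x‖ ≤ (2 * B) * B :=
      mul_le_mul h1 (hf.b1 x) (norm_nonneg _) (by positivity)
    nlinarith [sq_nonneg B]
  · rw [e3]
    have h1 : ‖2 * f x‖ ≤ 2 * B := by
      rw [norm_mul]
      norm_num
      exact h0 x
    have h2 : ‖(2 * f x) • fderiv ℝ (fderiv ℝ f) x‖ ≤ (2 * B) * B := by
      refine (ContinuousLinearMap.opNorm_smul_le _ _).trans ?_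
      exact mul_le_mul h1 (hf.b2 x) (ContinuousLinearMap.opNorm_nonneg _) (by positivity)
    have h3 : ‖((2 : ℝ) • fderiv ℝ f x).smulRight (fderiv ℝ f x)‖ ≤ (2 * B) * B := by
      rw [ContinuousLinearMap.norm_smulRight_apply]
      have h4 : ‖(2 : ℝ) • fderiv ℝ f x‖ ≤ 2 * B := by
        rw [norm_smul]
        norm_num
        exact hf.b1 x
      exact mul_le_mul h4 (hf.b1 x) (norm_nonneg _) (by positivity)
    refine ((ContinuousLinearMap.opNorm_add_le _ _).trans (add_le_add h2 h3)).trans ?_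
    exact le_of_eq (by ring)

/-- Densities times bounded continuous functions are integrable. -/
theorem on_int {M : ℝ} {σ : E3 → ℝ} (hσ : Den M σ) {g : E3 → ℝ} (hg : Continuous g) {B : ℝ}
    (hB : ∀ x, |g x| ≤ B) : Integrable (fun x => σ x * g x) := by
  have h := hσ.int.bdd_mul (f := g) (c := B) hg.aestronglyMeasurable
    (Eventually.of_forall fun x => hB x)
  refine h.congr (Eventually.of_forall fun x => ?_)
  exact mul_comm _ _

theorem on_J {Cb c t d A : ℝ} {lam : E3 → ℝ} {b : E3 → E3} {f : E3 → ℝ}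
    (hC : Co Cb c t d lam b) (hA : ∀ x, |f x| ≤ A) (x : E3) :
    |J d lam b f x| ≤ A ∧ J d lam b f x ^ 2 ≤ J d lam b (fun y => f y ^ 2) x := by
  have hlam : lam x ≤ Cb := (le_abs_self _).trans (hC.cl.b0 x)
  have h0 : 0 ≤ d * lam x := mul_nonneg hC.d0.le (hC.nn x)
  have h1 : d * lam x ≤ 1 / 6 := (mul_le_mul_of_nonneg_left hlam hC.d0.le).trans hC.dC
  have h2 : 0 ≤ 1 - d * lam x := by linarith
  have h3 : 1 - d * lam x ≤ 1 := by linarith
  unfold J
  constructor
  · rw [abs_mul, abs_of_nonneg h2]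
    calc (1 - d * lam x) * |f (x - d • b x)| ≤ 1 * |f (x - d • b x)| :=
          mul_le_mul_of_nonneg_right h3 (abs_nonneg _)
      _ ≤ A := by
        rw [one_mul]
        exact hA _
  · rw [mul_pow]
    refine mul_le_mul_of_nonneg_right ?_ (sq_nonneg _)
    nlinarith

theorem stOn (hAv : StAv) (hGa : StGa) (hDa : StDa) (hJc : StJc) (hAd : StAd) (hBe : StBe) :
    StOn := by
  intro Cb c t d M A B lam b ρ f s hC hρ hf hs hA hB hM
  obtain ⟨hμ, hheat⟩ := hGa d hC.d0
  obtain ⟨hav1, -, hav3⟩ := hAv (gam d) hμ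
  obtain ⟨hσ, hσi, -⟩ := hDa (gam d) hμ M ρ hρ
  rw [← hheat] at hσ hσi
  have hd := hC.d0
  have hA0 : 0 ≤ A := (abs_nonneg _).trans (hA 0)
  have hM1 := hρ.one
  have hI : 0 ≤ ∫ x, ρ x := integral_nonneg fun x => (hρ.pos x).le
  have hJ : C2 (B * (1 + 12 * (d * Cb))) (J d lam b f) := hJc Cb c t d B lam b f hC hf
  have hF : C2 (B * (1 + 12 * (d * Cb)) + d * B) (fun y => J d lam b f y + d * s y) :=
    on_add hJ hs d hd.le
  have tr : ∀ g : E3 → ℝ, Continuous g → ∀ B' : ℝ, (∀ x, |g x| ≤ B') →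
      ∫ x, ρ x * heat d g x = ∫ x, heat d ρ x * g x := by
    intro g hg B' hB'
    rw [hheat g, hheat ρ]
    exact hav3 ρ g B' hρ.cd.continuous hρ.int hg.measurable (Eventually.of_forall hB')
  have ht2 : |(∫ x, Jt d lam b (heat d ρ) x * f x) - ∫ x, heat d ρ x * J d lam b f x| ≤
      3 * M * B * (d * Cb) ^ 2 * ∫ x, ρ x := by
    have h := hAd Cb c t d M B lam b (heat d ρ) f hC hσ hf hM
    rwa [hσi] at h
  have iJ : Integrable (fun x => heat d ρ x * J d lam b f x) :=
    on_int hσ hJ.cd.continuous (on_abs hJ)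
  have is : Integrable (fun x => heat d ρ x * s x) := on_int hσ hs.cd.continuous (on_abs hs)
  have ias : Integrable (fun x => heat d ρ x * |s x|) :=
    on_int hσ hs.cd.continuous.abs (B := B) (fun x => by
      rw [abs_abs]
      exact on_abs hs x)
  constructor
  · have h1 : ∫ x, ρ x * heat d (fun y => J d lam b f y + d * s y) x =
        (∫ x, heat d ρ x * J d lam b f x) + d * ∫ x, heat d ρ x * s x := by
      rw [tr _ hF.cd.continuous _ (on_abs hF), ← integral_const_mul, ← integral_add iJ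
        (is.const_mul d)]
      refine integral_congr_ae (Eventually.of_forall fun x => ?_)
      change heat d ρ x * (J d lam b f x + d * s x) =
        heat d ρ x * J d lam b f x + d * (heat d ρ x * s x)
      ring
    have h3 : |∫ x, heat d ρ x * s x| ≤ ∫ x, heat d ρ x * |s x| := by
      refine (abs_integral_le_integral_abs).trans (le_of_eq ?_)
      refine integral_congr_ae (Eventually.of_forall fun x => ?_)
      change |heat d ρ x * s x| = heat d ρ x * |s x|
      rw [abs_mul, abs_of_pos (hσ.pos x)]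
    rw [h1]
    have h4 : (∫ x, heat d ρ x * J d lam b f x) + d * (∫ x, heat d ρ x * s x) -
        ∫ x, Jt d lam b (heat d ρ) x * f x = d * (∫ x, heat d ρ x * s x) +
        -((∫ x, Jt d lam b (heat d ρ) x * f x) - ∫ x, heat d ρ x * J d lam b f x) := by
      ring
    rw [h4]
    refine (abs_add_le _ _).trans ?_
    rw [abs_neg, abs_mul, abs_of_pos hd]
    exact add_le_add (mul_le_mul_of_nonneg_left h3 hd.le) ht2
  · have hH : C2 (B * (1 + 12 * (d * Cb)) + d * B)
        (heat d (fun y => J d lam b f y + d * s y)) := by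
      rw [hheat]
      exact (hav1 _ _ hF).1
    have hF2 := on_sq hF
    have hH2 : C2 (4 * (B * (1 + 12 * (d * Cb)) + d * B) ^ 2)
        (heat d (fun y => (J d lam b f y + d * s y) ^ 2)) := by
      rw [hheat]
      exact (hav1 _ _ hF2).1
    have i1 : Integrable (fun x => ρ x * heat d (fun y => J d lam b f y + d * s y) x ^ 2) :=
      on_int hρ (on_sq hH).cd.continuous (on_abs (on_sq hH))
    have hcf : Continuous (fderiv ℝ (heat d (fun y => J d lam b f y + d * s y))) :=
      hH.cd.continuous_fderiv (by norm_num)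
    have i2 : Integrable (fun x => ρ x *
        ‖fderiv ℝ (heat d (fun y => J d lam b f y + d * s y)) x‖ ^ 2) := by
      refine on_int hρ (hcf.norm.pow 2) (B := (B * (1 + 12 * (d * Cb)) + d * B) ^ 2) (fun x => ?_)
      rw [abs_of_nonneg (sq_nonneg _)]
      exact pow_le_pow_left₀ (norm_nonneg _) (hH.b1 x) 2
    have h4 : (∫ x, ρ x * heat d (fun y => J d lam b f y + d * s y) x ^ 2) +
        2 * d * (∫ x, ρ x * ‖fderiv ℝ (heat d (fun y => J d lam b f y + d * s y)) x‖ ^ 2) ≤
        ∫ x, ρ x * heat d (fun y => (J d lam b f y + d * s y) ^ 2) x := by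
      rw [← integral_const_mul, ← integral_add i1 (i2.const_mul (2 * d))]
      refine integral_mono (i1.add (i2.const_mul (2 * d)))
        (on_int hρ hH2.cd.continuous (on_abs hH2)) (fun x => ?_)
      have h5 := mul_le_mul_of_nonneg_left (hBe _ d _ hd hF x) (hρ.pos x).le
      change ρ x * heat d (fun y => J d lam b f y + d * s y) x ^ 2 +
        2 * d * (ρ x * ‖fderiv ℝ (heat d (fun y => J d lam b f y + d * s y)) x‖ ^ 2) ≤
        ρ x * heat d (fun y => (J d lam b f y + d * s y) ^ 2) x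
      linarith
    refine h4.trans ?_
    rw [tr _ hF2.cd.continuous _ (on_abs hF2)]
    have hf2 := on_sq hf
    have hJ2 := hJc Cb c t d (4 * B ^ 2) lam b (fun x => f x ^ 2) hC hf2
    have iJ2 : Integrable (fun x => heat d ρ x * J d lam b (fun y => f y ^ 2) x) :=
      on_int hσ hJ2.cd.continuous (on_abs hJ2)
    have h9 : ∫ x, heat d ρ x * J d lam b (fun y => f y ^ 2) x ≤
        (∫ x, Jt d lam b (heat d ρ) x * f x ^ 2) +
          3 * M * (4 * B ^ 2) * (d * Cb) ^ 2 * ∫ x, ρ x := by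
      have h := hAd Cb c t d M (4 * B ^ 2) lam b (heat d ρ) (fun x => f x ^ 2) hC hσ hf2 hM
      rw [hσi] at h
      have h' := (abs_le.1 h).1
      linarith
    have h8 : ∫ x, heat d ρ x * (J d lam b f x + d * s x) ^ 2 ≤
        (∫ x, heat d ρ x * J d lam b (fun y => f y ^ 2) x) +
          2 * d * A * (∫ x, heat d ρ x * |s x|) + d ^ 2 * B ^ 2 * ∫ x, heat d ρ x := by
      have i12 : Integrable (fun x => heat d ρ x * J d lam b (fun y => f y ^ 2) x +
          2 * d * A * (heat d ρ x * |s x|)) := iJ2.add (ias.const_mul _)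
      rw [← integral_const_mul, ← integral_const_mul, ← integral_add iJ2 (ias.const_mul _),
        ← integral_add i12 (hσ.int.const_mul _)]
      refine integral_mono (on_int hσ hF2.cd.continuous (on_abs hF2))
        (i12.add (hσ.int.const_mul _)) (fun x => ?_)
      obtain ⟨j1, j2⟩ := on_J hC hA x
      change heat d ρ x * (J d lam b f x + d * s x) ^ 2 ≤
        heat d ρ x * J d lam b (fun y => f y ^ 2) x + 2 * d * A * (heat d ρ x * |s x|) +
          d ^ 2 * B ^ 2 * heat d ρ x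
      have h5 : (J d lam b f x + d * s x) ^ 2 ≤ J d lam b (fun y => f y ^ 2) x +
          2 * d * A * |s x| + d ^ 2 * B ^ 2 := by
        have h6 : J d lam b f x * s x ≤ A * |s x| := by
          refine (le_abs_self _).trans ?_
          rw [abs_mul]
          exact mul_le_mul_of_nonneg_right j1 (abs_nonneg _)
        have h7 : s x ^ 2 ≤ B ^ 2 := by
          rw [← sq_abs (s x)]
          exact pow_le_pow_left₀ (abs_nonneg _) (on_abs hs x) 2
        have h10 : d ^ 2 * s x ^ 2 ≤ d ^ 2 * B ^ 2 := mul_le_mul_of_nonneg_left h7 (sq_nonneg d)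
        have h11 : d * (J d lam b f x * s x) ≤ d * (A * |s x|) :=
          mul_le_mul_of_nonneg_left h6 hd.le
        nlinarith
      have h12 := mul_le_mul_of_nonneg_left h5 (hσ.pos x).le
      linarith
    have h13 : d ^ 2 * B ^ 2 * (∫ x, heat d ρ x) ≤ M * B ^ 2 * (d * Cb) ^ 2 * ∫ x, ρ x := by
      rw [hσi]
      refine mul_le_mul_of_nonneg_right ?_ hI
      have h14 : d ≤ d * Cb := le_mul_of_one_le_right hd.le hC.Cb1
      have h15 : d ^ 2 ≤ (d * Cb) ^ 2 := pow_le_pow_left₀ hd.le h14 2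
      have h16 : (d * Cb) ^ 2 ≤ M * (d * Cb) ^ 2 := le_mul_of_one_le_left (sq_nonneg _) hM1
      calc d ^ 2 * B ^ 2 ≤ (M * (d * Cb) ^ 2) * B ^ 2 :=
            mul_le_mul_of_nonneg_right (h15.trans h16) (sq_nonneg B)
        _ = M * B ^ 2 * (d * Cb) ^ 2 := by ring
    have h17 : 3 * M * (4 * B ^ 2) * (d * Cb) ^ 2 * (∫ x, ρ x) +
        M * B ^ 2 * (d * Cb) ^ 2 * (∫ x, ρ x) = 13 * M * B ^ 2 * (d * Cb) ^ 2 * ∫ x, ρ x := by
      ring
    linarith

end Pool.Agent.TF.S2
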