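import Pool.Agent.TF.S2.Def2
import Pool.Agent.TF.S.Spec
import Pool.Agent.TP.Lin

/-!
# Block S2: the output `StQ` from `StS2R`
-/

set_option autoImplicit false

namespace Pool.Agent.TF.S2

open MeasureTheory Set Filter Topology Pool.Agent.TO Pool.Agent.TB Pool.Agent.TC Pool.Agent.TP
open scoped ENNReal NNReal Real InnerProductSpace

theorem stQ (h : StS2R) : StQ := by
  intro c hc Ci hCi CB hCB C₁ _ θ hθ hθ1
  obtain ⟨C₂, hC₂, h⟩ := h c hc
  obtain ⟨Cκ, hCκ, h⟩ := h θ hθ hθ1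
  refine ⟨4 * Cκ, by positivity, 1 / (2 * C₂), by positivity, fun A hA hA1 L hL => ?_⟩
  have hA2 : C₂ * (2 * A) ≤ 1 := by
    rw [le_div_iff₀ (by positivity)] at hA1
    linarith
  refine ⟨min 1 (A / (16 * C₂ * L ^ 2)), by positivity, min_le_left _ _, fun s hs hs1 Λ hΛ => ?_⟩
  have hs2 : s < 1 := hs1.trans_le (min_le_left _ _)
  obtain ⟨η₁, hη₁, h⟩ := h Ci A (2 * A) L s Λ (CB * A / √s) hCi hA (by positivity) hA2 hL hs hs2 hΛ
    (by positivity)
  refine ⟨η₁, hη₁, fun η hη hη1 => ?_⟩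
  obtain ⟨C₃, hC₃, d₁, hd₁, h⟩ := h η hη hη1
  refine ⟨min d₁ (A / (16 * C₃)), by positivity, fun d hd hd1 R hR K σ b lam hK hS j x => ?_⟩
  have hK1 : tk s d K ≤ 1 := hK.trans (min_le_left _ _)
  have hK2 : tk s d K ≤ A / (16 * C₂ * L ^ 2) := hK.trans (min_le_right _ _)
  have hd2 : d < d₁ := hd1.trans_le (min_le_left _ _)
  have hd3 : d ≤ A / (16 * C₃) := (hd1.trans_le (min_le_right _ _)).le
  have h1 := h d hd hd2 R hR K σ b lam hK1 hS.ini hS.run ?_ ?_ j x
  · refine h1.trans ?_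
    rw [le_div_iff₀ (by positivity)] at hK2 hd3
    nlinarith
  · intro k hk
    exact ⟨fun k' j' x' => (hS.g0 k hk.le k' j' x').trans (by linarith),
      fun k' x' => hS.h0 k hk.le k' x'⟩
  · intro k hk
    refine bd_mono (hS.hb k hk) ?_
    have : √s ≤ √(tk s d k) := by
      apply Real.sqrt_le_sqrt
      unfold tk
      have : (0:ℝ) ≤ k * d := by positivity
      linarith
    gcongr

end Pool.Agent.TF.S2
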