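import Pool.Agent.TF.S2.RnB

/-!
# Block S2, row Rn: the bound of the averages of `h` along the scheme
-/

set_option autoImplicit false

namespace Pool.Agent.TF.S2

open MeasureTheory Set Filter Topology Pool.Agent.TO Pool.Agent.TB Pool.Agent.TC Pool.Agent.TP
open scoped ENNReal NNReal Real InnerProductSpace

theorem norm_le_of_coord {v : E3} {X : ℝ} (h : ∀ i, |v i| ≤ X) : ‖v‖ ≤ 3 * X := by
  have hv : v = ∑ i, v i • (ee i : E3) := by
    have := (EuclideanSpace.basisFun (Fin 3) ℝ).sum_repr v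
    simpa using this.symm
  rw [hv]
  refine (norm_sum_le _ _).trans ?_
  calc ∑ i, ‖v i • (ee i : E3)‖ ≤ ∑ _i : Fin 3, X := by
        refine Finset.sum_le_sum fun i _ => ?_
        rw [norm_smul, ee_norm, mul_one, Real.norm_eq_abs]
        exact h i
    _ = 3 * X := by
        rw [Finset.sum_const, Finset.card_univ, Fintype.card_fin, nsmul_eq_mul]
        push_cast
        ring

theorem cvf_coord {κ : E3 → ℝ} (hκ : Integrable κ (volume : Measure E3)) {f : E3 → E3}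
    (hf : Continuous f) {C : ℝ} (hb : ∀ x, ‖f x‖ ≤ C) (i : Fin 3) (x₀ : E3) :
    (cvf κ f x₀) i = ∫ x, κ (x₀ - x) * f x i := by
  have h1 := (pj i).integral_comp_comm (integrable_cvf_bdd hκ hf hb x₀)
  unfold cvf
  rw [← pj_apply, ← h1, ← integral_sub_left_eq_self (fun x => κ (x₀ - x) * f x i) volume x₀]
  congr 1
  funext y
  rw [sub_sub_cancel]
  rfl

theorem Den.mono {M M' : ℝ} {ρ : E3 → ℝ} (h : Den M ρ) (hM : M ≤ M') : Den M' ρ where
  cd := h.cd
  pos := h.pos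
  int := h.int
  bdd := h.bdd
  one := h.one.trans hM
  d1 := fun x => (h.d1 x).trans (mul_le_mul_of_nonneg_right hM (h.pos x).le)
  d2 := fun x => (h.d2 x).trans (mul_le_mul_of_nonneg_right hM (h.pos x).le)

/-- the `C²` bounds along the scheme -/
theorem run_c2 (hJc : StJc) (hAv : StAv) (hGa : StGa) {R : Fin 3 → V3 →L[ℝ] V3}
    {Cb c d s η Bu B₀ : ℝ} {K : ℕ} {σ : ℕ → Sta} {b : ℕ → E3 → E3} {lam : ℕ → E3 → ℝ}
    (hd : 0 < d) (hη : 0 < η) (hBu : 0 ≤ Bu) (hCb : 1 ≤ Cb)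
    (hco : ∀ m < K, Co Cb c (s + m * d) d (lam m) (b m))
    (hst : ∀ k < K, σ (k + 1) = nxt R η d (b k) (lam k) (σ k)) (hnc : ∀ k ≤ K, NcS (σ k))
    (hU : ∀ k < K, Bd (Hh R (σ k)) Bu) (a : Ix) (h0 : C2 B₀ (pot (σ 0) a)) :
    ∀ m ≤ K, C2 ((B₀ + m * (d * (9 * ((1 + kC (hk η)) * Bu ^ 2)))) *
      (1 + 12 * (d * Cb)) ^ m) (pot (σ m) a) := by
  have hk0 := kC_nonneg (hk η)
  have hB0 : 0 ≤ B₀ := (norm_nonneg _).trans (h0.b0 0)
  intro m
  induction m with
  | zero =>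
    intro _
    simpa using h0
  | succ m ih =>
    intro hm
    have hm' : m < K := hm
    have h1 := ih hm'.le
    have hc := hco m hm'
    set Bs : ℝ := 9 * ((1 + kC (hk η)) * Bu ^ 2) with hBs
    have hBs0 : 0 ≤ Bs := by positivity
    set q : ℝ := 1 + 12 * (d * Cb) with hq
    have hq1 : 1 ≤ q := by
      have : 0 ≤ d * Cb := by positivity
      linarith
    have h2 := hJc _ _ _ _ _ _ _ _ hc h1
    have h3 := (so_c2 (R := R) hη hBu (hU m hm') a).smul d
    rw [abs_of_pos hd] at h3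
    have h4 := h2.add h3
    have hlb : ∀ x, |1 - d * lam m x| ≤ 1 := by
      intro x
      have h5 : d * lam m x ≤ d * Cb :=
        mul_le_mul_of_nonneg_left ((le_abs_self _).trans (hc.cl.b0 x)) hd.le
      have h6 : 0 ≤ d * lam m x := mul_nonneg hd.le (hc.nn x)
      have h7 := hc.dC
      rw [abs_le]
      constructor <;> linarith
    have e := pot_step (R := R) hη hd hc.cb.cd.continuous hc.cl.cd.continuous hlb
      (hnc m hm'.le) hBu (hU m hm') a
    rw [hst m hm', e]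
    have h5 := ((hAv _ (hGa d hd).1).1 _ _ h4).1
    rw [← (hGa d hd).2] at h5
    refine C2.mono h5 ?_
    have hp : 1 ≤ q ^ (m + 1) := one_le_pow₀ hq1
    have : (B₀ + m * (d * Bs)) * q ^ m * (1 + 12 * (d * Cb)) = (B₀ + m * (d * Bs)) * q ^ (m + 1) := by
      rw [← hq, mul_assoc, ← pow_succ]
    rw [this]
    push_cast
    have hdB : 0 ≤ d * Bs := by positivity
    have h6 : d * Bs ≤ (d * Bs) * q ^ (m + 1) := le_mul_of_one_le_right hdB hp
    calc (B₀ + m * (d * Bs)) * q ^ (m + 1) + d * Bs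
        ≤ (B₀ + m * (d * Bs)) * q ^ (m + 1) + (d * Bs) * q ^ (m + 1) := by linarith
      _ = _ := by ring

theorem pow_le_exp' {x : ℝ} (hx : 0 ≤ x) (n : ℕ) : (1 + x) ^ n ≤ Real.exp (n * x) := by
  have h1 : 1 + x ≤ Real.exp x := by
    have := Real.add_one_le_exp x
    linarith
  calc (1 + x) ^ n ≤ Real.exp x ^ n := pow_le_pow_left₀ (by positivity) h1 n
    _ = Real.exp (n * x) := by rw [← Real.exp_nat_mul]

/-- `MM` is monotone in `T` -/
theorem MM_mono {M Cb T T' : ℝ} (hM : 0 ≤ M) (hCb : 0 ≤ Cb) (h : T ≤ T') :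
    MM M Cb T ≤ MM M Cb T' := by
  unfold MM
  gcongr

theorem stS2R (hS2 : StS2) (hJc : StJc) (hCo : StCo) (hDt : StDt) (hCc : StCc) (hAv : StAv)
    (hGa : StGa) : StS2R := by
  intro c hc
  obtain ⟨C₁, hC₁, hcc⟩ := hCc
  obtain ⟨CD, hCD, hdt⟩ := hDt
  set N : ℝ := (Fintype.card Ix : ℝ) with hN
  have hN0 : 0 ≤ N := Nat.cast_nonneg _
  refine ⟨C₁ * (10 * N + 12), by positivity, fun κ hκ hκ1 => ?_⟩
  set κ₁ : ℝ := CD / κ ^ 2 with hκ₁
  have hκ₁0 : 0 ≤ κ₁ := by positivity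
  refine ⟨3 * (C₁ * (10 * N + κ₁ + 6 * (3 * c) ^ 2)), by positivity, ?_⟩
  intro Ci A₀ A L s Λ Bu hCi hA₀ hA hCA hL hs hs1 hΛ hBu
  obtain ⟨Cb, hCb1, hco⟩ := hCo c s Λ hc hs hΛ
  set M₀ : ℝ := CD / (κ ^ 2 * s) with hM₀
  have hM₀1 : 1 ≤ M₀ := by
    rw [hM₀, le_div_iff₀ (by positivity)]
    have : κ ^ 2 * s ≤ 1 * 1 := mul_le_mul (pow_le_one₀ hκ.le hκ1) hs1.le hs.le zero_le_one
    linarith
  set M₁ : ℝ := MM M₀ Cb 1 with hM₁
  have hM₁1 : 1 ≤ M₁ := by
    rw [hM₁, MM]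
    exact one_le_mul_of_one_le_of_one_le hM₀1 (Real.one_le_exp (by positivity))
  refine ⟨1 / (20 * M₁ ^ 2), by positivity, fun η hη hη1 => ?_⟩
  have hk0 := kC_nonneg (hk η)
  set Bs : ℝ := 9 * ((1 + kC (hk η)) * Bu ^ 2) with hBs
  have hBs0 : 0 ≤ Bs := by positivity
  set B₀ : ℝ := 9 * (A₀ + Ci * A₀ / s) with hB₀
  have hB₀0 : 0 ≤ B₀ := by positivity
  set B : ℝ := 1 + (B₀ + Bs) * Real.exp (12 * Cb) + Bs + Bu ^ 2 with hB
  have hBe : 0 ≤ (B₀ + Bs) * Real.exp (12 * Cb) := by positivity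
  have hBu2 : 0 ≤ Bu ^ 2 := sq_nonneg _
  have hB1 : 1 ≤ B := by linarith
  refine ⟨3 * (20 * N * C₁ * B ^ 2 + (130 * N * C₁ + 6) * M₁ * B ^ 2 * Cb ^ 2), by positivity,
    1 / (36 * Cb ^ 2 * M₁), by positivity, ?_⟩
  intro d hd hd1 R hR K σ b lam hK hini hrun hSup hBd j x₀
  -- smallness of `d`
  have hd2 : d * (36 * Cb ^ 2 * M₁) ≤ 1 := by
    rw [lt_div_iff₀ (by positivity)] at hd1
    exact hd1.le
  have hCb0 : 0 ≤ Cb := by linarith
  have hx1 : d * Cb ≤ 1 / 36 := by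
    have h1 : d * Cb * 36 ≤ d * (36 * Cb ^ 2 * M₁) := by
      have : Cb ≤ Cb ^ 2 * M₁ := by nlinarith [mul_le_mul hCb1 hM₁1 zero_le_one hCb0]
      nlinarith
    linarith
  have hx2 : 18 * Cb ^ 2 * d ≤ 1 / 2 := by
    have h1 : 18 * Cb ^ 2 * d * 2 ≤ d * (36 * Cb ^ 2 * M₁) := by
      have : Cb ^ 2 ≤ Cb ^ 2 * M₁ := le_mul_of_one_le_right (sq_nonneg _) hM₁1
      nlinarith
    linarith
  have hx3 : M₁ * (d * Cb) ≤ 1 / 6 := by
    have h1 : M₁ * (d * Cb) * 36 ≤ d * (36 * Cb ^ 2 * M₁) := by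
      have : Cb * M₁ ≤ Cb ^ 2 * M₁ := by
        refine mul_le_mul_of_nonneg_right ?_ (by linarith)
        nlinarith
      nlinarith
    linarith
  have hη2 : 2 * η * M₁ ^ 2 ≤ 1 / 10 := by
    rw [lt_div_iff₀ (by positivity)] at hη1
    linarith
  -- times
  have hKd : K * d ≤ 1 := by
    unfold tk at hK
    linarith
  have hT0 : (0:ℝ) ≤ K * d := by positivity
  have hlt : ∀ m < K, s + m * d ≤ 1 := by
    intro m hm
    unfold tk at hK
    have : (m:ℝ) * d ≤ K * d := mul_le_mul_of_nonneg_right (by exact_mod_cast hm.le) hd.le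
    linarith
  have hcoef : ∀ m < K, Co Cb (3 * c) (s + m * d) d (lam m) (b m) := by
    intro m hm
    refine hco _ _ _ _ ?_ (hlt m hm) hd (by linarith) (hrun.coef m hm)
    have : (0:ℝ) ≤ m * d := by positivity
    linarith
  -- the low part
  have hlow : ∀ m ≤ K, Bd (σ m).l L := by
    intro m
    induction m with
    | zero => exact fun _ => hini.bdl
    | succ m ih =>
      intro hm
      rw [hrun.step m hm]
      show Bd (cvO (hk d) (σ m).l) L
      have := bd_cvO (kk_hk hd) hL.le (ih (Nat.le_of_succ_le hm))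
      rwa [one_mul] at this
  -- the `C²` bounds
  have hc2 : ∀ a, ∀ m < K, C2 B (pot (σ m) a) := by
    intro a m hm
    have h1 := run_c2 hJc hAv hGa hd hη hBu.le hCb1 hcoef hrun.step hrun.nc hBd a
      (ini_c2 hCi hA₀ hs hs1 hini a) m hm.le
    refine C2.mono h1 ?_
    have hmd : (m:ℝ) * d ≤ 1 := (mul_le_mul_of_nonneg_right (by exact_mod_cast hm.le) hd.le).trans hKd
    have h2 : (1 + 12 * (d * Cb)) ^ m ≤ Real.exp (12 * Cb) := by
      refine (pow_le_exp' (by positivity) m).trans (Real.exp_le_exp.2 ?_)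
      have : (m:ℝ) * (12 * (d * Cb)) = (m * d) * (12 * Cb) := by ring
      rw [this]
      nlinarith
    have h3 : B₀ + m * (d * Bs) ≤ B₀ + Bs := by
      have : (m:ℝ) * (d * Bs) = (m * d) * Bs := by ring
      rw [this]
      nlinarith
    have h4 : (B₀ + m * (d * Bs)) * (1 + 12 * (d * Cb)) ^ m ≤ (B₀ + Bs) * Real.exp (12 * Cb) :=
      mul_le_mul h3 h2 (by positivity) (by positivity)
    linarith
  -- the system
  have hsys : Sys Ix Cb (3 * c) A B L C₁ η d s K lam b (fun a m => pot (σ m) a)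
      (fun a m => so R η (σ m) a) (fun m x => ‖(Hh R (σ m) : V3) x‖ ^ 2) := by
    refine ⟨hs, hd, hη, hA.le, hB1, hCb1, hC₁.le, hcoef, hc2, ?_, ?_, ?_, ?_, ?_, ?_, ?_, ?_⟩
    · intro a m hm
      exact C2.mono (so_c2 (R := R) hη hBu.le (hBd m hm) a) (by linarith)
    · intro a m hm x
      rcases a with ⟨k, j, i⟩ | ⟨k, i⟩
      · exact (abs_coord_le _ i).trans ((hSup m hm).1 k j x)
      · exact (abs_coord_le _ i).trans ((hSup m hm).2 k x)
    · intro a m hm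
      have hc' := hcoef m hm
      have hlb : ∀ x, |1 - d * lam m x| ≤ 1 := by
        intro x
        have h5 : d * lam m x ≤ d * Cb :=
          mul_le_mul_of_nonneg_left ((le_abs_self _).trans (hc'.cl.b0 x)) hd.le
        have h6 : 0 ≤ d * lam m x := mul_nonneg hd.le (hc'.nn x)
        rw [abs_le]
        constructor <;> linarith
      show pot (σ (m + 1)) a = _
      rw [hrun.step m hm]
      exact pot_step (R := R) hη hd hc'.cb.cd.continuous hc'.cl.cd.continuous hlb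
        (hrun.nc m hm.le) hBu.le (hBd m hm) a
    · intro m _
      exact ((Lp.stronglyMeasurable (Hh R (σ m))).norm.pow 2).measurable
    · intro m _ x
      positivity
    · intro m hm
      filter_upwards [hBd m hm] with x hx
      have : ‖(Hh R (σ m) : V3) x‖ ^ 2 ≤ Bu ^ 2 := pow_le_pow_left₀ (norm_nonneg _) hx 2
      linarith
    · intro a m hm x
      exact so_le hη (hBd m hm) a x
    · intro m hm θ h1 h2 h3 h4
      exact hcc R hR (σ m) A L (hrun.nc m hm.le) (hSup m hm) hA.le hL.le (hlow m hm.le) θ h1 h2 h3 h4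
  -- the datum
  have htK : 0 < tk s d K := by
    unfold tk
    positivity
  set r : ℝ := κ * √(tk s d K) with hr
  have hr0 : 0 < r := mul_pos hκ (Real.sqrt_pos.2 htK)
  have hr1 : r ≤ 1 := by
    have : √(tk s d K) ≤ 1 := Real.sqrt_le_one.2 hK
    calc r ≤ 1 * 1 := mul_le_mul hκ1 this (Real.sqrt_nonneg _) zero_le_one
      _ = 1 := one_mul 1
  have hr2 : r ^ 2 = κ ^ 2 * tk s d K := by
    rw [hr, mul_pow, Real.sq_sqrt htK.le]
  obtain ⟨hden, hmass, hfi⟩ := hdt r x₀ hr0 hr1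
  have hstK : s ≤ tk s d K := by
    unfold tk
    linarith
  have hden' : Den M₀ (fun x => et0 r (x₀ - x)) := by
    refine hden.mono ?_
    rw [hr2, hM₀]
    gcongr
  have hMT : MM M₀ Cb (K * d) ≤ M₁ := MM_mono (by linarith) hCb0 hKd
  have hMT0 : 0 ≤ MM M₀ Cb (K * d) := by
    unfold MM
    positivity
  have main : ∀ i : Fin 3, |∫ x, et0 r (x₀ - x) * pot (σ K) (Sum.inr (j, i)) x| ≤
      C₁ * (10 * N + κ₁ + 6 * (3 * c) ^ 2) * A ^ 2 + 4 * C₁ * L ^ 2 * (K * d) +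
      d * (20 * N * C₁ * B ^ 2 + (130 * N * C₁ + 6) * M₁ * B ^ 2 * Cb ^ 2) := by
    intro i
    have h1 := hS2 Ix inferInstance Cb (3 * c) A B L C₁ η d s κ₁ M₀ (K * d) K lam b
      (fun a m => pot (σ m) a) (fun a m => so R η (σ m) a)
      (fun m x => ‖(Hh R (σ m) : V3) x‖ ^ 2) (fun x => et0 r (x₀ - x)) hsys hden'
      hmass.le hκ₁0 ?_ le_rfl ?_ ?_ ?_ ?_ (Sum.inr (j, i)) ?_
    · refine h1.trans ?_
      have h5 : (130 * N * C₁ + 6) * MM M₀ Cb (K * d) * B ^ 2 * Cb ^ 2 * (K * d) ≤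
          (130 * N * C₁ + 6) * M₁ * B ^ 2 * Cb ^ 2 := by
        calc (130 * N * C₁ + 6) * MM M₀ Cb (K * d) * B ^ 2 * Cb ^ 2 * (K * d)
            ≤ (130 * N * C₁ + 6) * M₁ * B ^ 2 * Cb ^ 2 * 1 := by gcongr
          _ = _ := mul_one _
      have h6 := mul_le_mul_of_nonneg_left h5 hd.le
      rw [mul_add, mul_add]
      rw [← hN]
      linarith
    · refine hfi.trans (le_of_eq ?_)
      rw [hr2, hκ₁]
      unfold tk
      rw [div_div]
    · have : 18 * Cb ^ 2 * (K * d) * d ≤ 18 * Cb ^ 2 * d := by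
        have h7 : 0 ≤ 18 * Cb ^ 2 * d := by positivity
        calc 18 * Cb ^ 2 * (K * d) * d = (18 * Cb ^ 2 * d) * (K * d) := by ring
          _ ≤ (18 * Cb ^ 2 * d) * 1 := by gcongr
          _ = _ := mul_one _
      linarith
    · refine le_trans ?_ hx3
      gcongr
    · refine le_trans ?_ hη2
      gcongr
    · rw [← hN]
      have : 10 * C₁ * N * A ≤ C₁ * (10 * N + 12) * A := by
        have : 0 ≤ C₁ * 12 * A := by positivity
        nlinarith
      linarith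
    · intro x
      show ((σ 0).h j x) i = 0
      rw [hini.h0 j x]
      rfl
  -- the conclusion
  obtain ⟨Ch, hCh⟩ := ((hrun.nc K le_rfl).2 j).b0
  have hfin := norm_le_of_coord (v := cvf (et0 r) ((σ K).h j) x₀)
    (X := C₁ * (10 * N + κ₁ + 6 * (3 * c) ^ 2) * A ^ 2 + 4 * C₁ * L ^ 2 * (K * d) +
      d * (20 * N * C₁ * B ^ 2 + (130 * N * C₁ + 6) * M₁ * B ^ 2 * Cb ^ 2)) ?_
  · refine hfin.trans ?_
    have h8 : 3 * (4 * C₁ * L ^ 2 * (K * d)) ≤ C₁ * (10 * N + 12) * L ^ 2 * tk s d K := by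
      have h9 : (K:ℝ) * d ≤ tk s d K := by
        unfold tk
        linarith
      calc 3 * (4 * C₁ * L ^ 2 * (K * d)) = C₁ * 12 * L ^ 2 * (K * d) := by ring
        _ ≤ C₁ * (10 * N + 12) * L ^ 2 * tk s d K := by
            gcongr
            linarith
    linarith
  · intro i
    rw [cvf_coord (integrable_et0 hr0) ((hrun.nc K le_rfl).2 j).cont hCh]
    exact main i

end Pool.Agent.TF.S2
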