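import Pool.Agent.TF.S2.Av
import Pool.Agent.TF.S2.Da
import Pool.Agent.TF.S2.Dj
import Pool.Agent.TF.S2.Ch
import Pool.Agent.TF.S2.Fj
import Pool.Agent.TF.S2.Cm
import Pool.Agent.TF.S2.Be
import Pool.Agent.TF.S2.On
import Pool.Agent.TF.S2.Nu
import Pool.Agent.TF.S2.Du
import Pool.Agent.TF.S2.Fi
import Pool.Agent.TF.S2.Co
import Pool.Agent.TF.S2.Dt
import Pool.Agent.TF.S2.Cc
import Pool.Agent.TF.S2.Rn
import Pool.Agent.TF.S2.Q
import Pool.Agent.TF.S2.Ad

/-!
# Block S2: assembly
-/

set_option autoImplicit false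

namespace Pool.Agent.TF.S2

open Pool.Agent.TF

/-- the abstract main statement -/
theorem stS2_of (hAd : StAd) : StS2 := by
  have hDa : StDa := stDa stAv
  have hFj : StFj := stFj stCh stDj
  have hDu : StDu := stDu stGa hDa stDj hFj stNu
  have hBe : StBe := stBe stAv stGa
  have hOn : StOn := stOn stAv stGa hDa stJc hAd hBe
  exact stS2 stAv stGa hDa stDj stCm hOn hDu

/-- Block S2: the bound of the averages of `h`, from the commutator estimate and the word bound -/
theorem stQ_of (hAd : StAd) (hCC : StCC) (hW : StWord) : StQ :=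
  stQ (stS2R (stS2_of hAd) stJc stCo stDt (stCc hCC hW) stAv stGa)

theorem stQ_all (hCC : StCC) (hW : StWord) : StQ := stQ_of stAd hCC hW

end Pool.Agent.TF.S2
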