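import Pool.Agent.TF.S2.Def

/-!
# Block S2, row Av: averages by a symmetric probability measure
-/

set_option autoImplicit false

namespace Pool.Agent.TF.S2

open MeasureTheory Set Filter Topology Pool.Agent.TO Pool.Agent.TB
open scoped ENNReal NNReal Real InnerProductSpace

section av

variable {F : Type*} [NormedAddCommGroup F] [NormedSpace ℝ F] {μ : Measure E3}
  [IsProbabilityMeasure μ]

omit [NormedSpace ℝ F] in
theorem Av_meas {f : E3 → F} (hf : Continuous f) (x : E3) :
    AEStronglyMeasurable (fun y => f (x - y)) μ :=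
  (hf.comp (by fun_prop : Continuous fun y : E3 => x - y)).aestronglyMeasurable

omit [NormedSpace ℝ F] in
theorem Av_int {f : E3 → F} (hf : Continuous f) {B : ℝ} (hB : ∀ x, ‖f x‖ ≤ B) (x : E3) :
    Integrable (fun y => f (x - y)) μ :=
  Integrable.of_bound (Av_meas hf x) B (Eventually.of_forall fun _ => hB _)

theorem Av_norm {f : E3 → F} {B : ℝ} (hB : ∀ x, ‖f x‖ ≤ B) (x : E3) : ‖av μ f x‖ ≤ B := by
  have h := norm_integral_le_of_norm_le_const (μ := μ) (f := fun y => f (x - y)) (C := B)
    (Eventually.of_forall fun _ => hB _)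
  simpa [av] using h

theorem Av_cont {f : E3 → F} (hf : Continuous f) {B : ℝ} (hB : ∀ x, ‖f x‖ ≤ B) :
    Continuous (av μ f) := by
  unfold av
  refine continuous_of_dominated (bound := fun _ => B) (fun x => Av_meas hf x)
    (fun x => Eventually.of_forall fun _ => hB _) (integrable_const B)
    (Eventually.of_forall fun y => ?_)
  exact hf.comp (by fun_prop)

theorem Av_fderiv {f : E3 → F} (hf : Differentiable ℝ f)
    (hf' : Continuous (fderiv ℝ f)) {B : ℝ} (hB : ∀ x, ‖f x‖ ≤ B)
    (hB' : ∀ x, ‖fderiv ℝ f x‖ ≤ B) (x : E3) :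
    HasFDerivAt (av μ f) (∫ y, fderiv ℝ f (x - y) ∂μ) x := by
  unfold av
  refine hasFDerivAt_integral_of_dominated_of_fderiv_le (μ := μ) (s := univ)
    (F := fun x y => f (x - y)) (F' := fun x y => fderiv ℝ f (x - y)) (bound := fun _ => B)
    univ_mem (Eventually.of_forall fun z => Av_meas hf.continuous z)
    (Av_int hf.continuous hB x) (Av_meas hf' x)
    (Eventually.of_forall fun y z _ => hB' _) (integrable_const B)
    (Eventually.of_forall fun y z _ => ?_)
  have h1 : HasFDerivAt (fun w : E3 => w - y) (ContinuousLinearMap.id ℝ E3) z :=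
    (hasFDerivAt_id z).sub_const y
  have h2 := (hf (z - y)).hasFDerivAt.comp z h1
  rw [ContinuousLinearMap.comp_id] at h2
  exact h2

end av

theorem Av_one (μ : Measure E3) (hμ : SymP μ) (B : ℝ) (f : E3 → ℝ) (hf : C2 B f) :
    C2 B (av μ f) ∧
    (∀ x, fderiv ℝ (av μ f) x = ∫ y, fderiv ℝ f (x - y) ∂μ) ∧
    ∀ x, fderiv ℝ (fderiv ℝ (av μ f)) x = ∫ y, fderiv ℝ (fderiv ℝ f) (x - y) ∂μ := by
  have hp := hμ.prob
  have h1 : ContDiff ℝ 1 (fderiv ℝ f) := by
    have h := hf.cd
    have h' : ContDiff ℝ (1 + 1) f := by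
      have : (1 : WithTop ℕ∞) + 1 = 2 := by norm_num
      rw [this]
      exact h
    rw [contDiff_succ_iff_fderiv] at h'
    exact h'.2.2
  have hd : Differentiable ℝ f := hf.cd.differentiable (by norm_num)
  have hc1 : Continuous (fderiv ℝ f) := h1.continuous
  have hd1 : Differentiable ℝ (fderiv ℝ f) := h1.differentiable (by norm_num)
  have hc2 : Continuous (fderiv ℝ (fderiv ℝ f)) := (contDiff_one_iff_fderiv.1 h1).2
  have e1 : ∀ x, HasFDerivAt (av μ f) (∫ y, fderiv ℝ f (x - y) ∂μ) x := fun x =>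
    Av_fderiv hd hc1 hf.b0 hf.b1 x
  have e2 : ∀ x, HasFDerivAt (av μ (fderiv ℝ f)) (∫ y, fderiv ℝ (fderiv ℝ f) (x - y) ∂μ) x :=
    fun x => Av_fderiv hd1 hc2 hf.b1 hf.b2 x
  have e3 : fderiv ℝ (av μ f) = av μ (fderiv ℝ f) := by
    funext x
    exact (e1 x).fderiv
  have e4 : ∀ x, fderiv ℝ (fderiv ℝ (av μ f)) x = ∫ y, fderiv ℝ (fderiv ℝ f) (x - y) ∂μ := by
    intro x
    rw [e3]
    exact (e2 x).fderiv
  refine ⟨⟨?_, fun x => Av_norm hf.b0 x, fun x => ?_, fun x => ?_⟩, fun x => (e1 x).fderiv, e4⟩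
  · have : (2 : WithTop ℕ∞) = 1 + 1 := by norm_num
    rw [this, contDiff_succ_iff_fderiv]
    refine ⟨fun x => (e1 x).differentiableAt, by simp, ?_⟩
    rw [e3, contDiff_one_iff_fderiv]
    refine ⟨fun x => (e2 x).differentiableAt, ?_⟩
    have e5 : fderiv ℝ (av μ (fderiv ℝ f)) = av μ (fderiv ℝ (fderiv ℝ f)) := by
      funext x
      exact (e2 x).fderiv
    rw [e5]
    exact Av_cont hc2 hf.b2
  · rw [e3]
    exact Av_norm hf.b1 x
  · rw [e4]
    exact Av_norm hf.b2 x

theorem Av_prod (μ : Measure E3) [IsProbabilityMeasure μ] {f : E3 → ℝ} (hf : Continuous f)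
    (hi : Integrable f) :
    Integrable (fun z : E3 × E3 => f (z.1 - z.2)) ((volume : Measure E3).prod μ) := by
  have hc : Continuous fun z : E3 × E3 => f (z.1 - z.2) := hf.comp (by fun_prop)
  rw [integrable_prod_iff' hc.aestronglyMeasurable]
  refine ⟨Eventually.of_forall fun y => hi.comp_sub_right y, ?_⟩
  have h : ∀ y : E3, ∫ x, ‖f (x - y)‖ = ∫ x, ‖f x‖ := fun y =>
    integral_sub_right_eq_self (fun x => ‖f x‖) y
  simp only [h]
  exact integrable_const _

theorem Av_two (μ : Measure E3) (hμ : SymP μ) (f : E3 → ℝ) (hf : Continuous f)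
    (hi : Integrable f) : Integrable (av μ f) ∧ ∫ x, av μ f x = ∫ x, f x := by
  have hp := hμ.prob
  have h := Av_prod μ hf hi
  refine ⟨h.integral_prod_left, ?_⟩
  unfold av
  rw [integral_integral_swap (f := fun x y => f (x - y)) h]
  have h' : ∀ y : E3, ∫ x, f (x - y) = ∫ x, f x := fun y =>
    integral_sub_right_eq_self f y
  simp only [h']
  simp

theorem Av_three (μ : Measure E3) (hμ : SymP μ) (ρ f : E3 → ℝ) (B : ℝ) (hρ : Continuous ρ)
    (hi : Integrable ρ) (hf : Measurable f) (hB : ∀ᵐ x, |f x| ≤ B) :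
    ∫ x, ρ x * av μ f x = ∫ x, av μ ρ x * f x := by
  have hp := hμ.prob
  have hm1 : Measurable fun z : E3 × E3 => ρ z.1 * f (z.1 - z.2) :=
    (hρ.measurable.comp measurable_fst).mul (hf.comp (measurable_fst.sub measurable_snd))
  have hm2 : Measurable fun z : E3 × E3 => ρ (z.1 - z.2) * f z.1 :=
    (hρ.measurable.comp (measurable_fst.sub measurable_snd)).mul (hf.comp measurable_fst)
  have hi2 : Integrable (fun z : E3 × E3 => ρ (z.1 - z.2) * f z.1)
      ((volume : Measure E3).prod μ) := by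
    have h := Av_prod μ hρ hi
    refine h.mul_bdd (c := B) (hf.comp measurable_fst).aestronglyMeasurable ?_
    have h1 : ∀ᵐ z : E3 × E3 ∂((volume : Measure E3).prod μ), |f z.1| ≤ B :=
      Measure.quasiMeasurePreserving_fst.ae hB
    filter_upwards [h1] with z hz
    simpa [Real.norm_eq_abs] using hz
  have hi1 : Integrable (fun z : E3 × E3 => ρ z.1 * f (z.1 - z.2))
      ((volume : Measure E3).prod μ) := by
    rw [integrable_prod_iff' hm1.aestronglyMeasurable]
    have hBy : ∀ y : E3, ∀ᵐ x : E3, |f (x - y)| ≤ B := fun y =>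
      (measurePreserving_sub_right (volume : Measure E3) y).quasiMeasurePreserving.ae hB
    have hy : ∀ y : E3, Integrable fun x => ρ x * f (x - y) := by
      intro y
      refine hi.mul_bdd (c := B) (hf.comp (measurable_id.sub_const y)).aestronglyMeasurable ?_
      filter_upwards [hBy y] with x hx
      simpa [Real.norm_eq_abs] using hx
    refine ⟨Eventually.of_forall hy, ?_⟩
    refine Integrable.of_bound (C := ∫ x, |B| * ‖ρ x‖) ?_ (Eventually.of_forall fun y => ?_)
    · exact (hm1.norm.stronglyMeasurable.integral_prod_left' (μ := volume)).aestronglyMeasurable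
    · rw [Real.norm_eq_abs, abs_of_nonneg (integral_nonneg fun x => norm_nonneg _)]
      refine integral_mono_ae (hy y).norm (hi.norm.const_mul |B|) ?_
      filter_upwards [hBy y] with x hx
      rw [norm_mul, mul_comm]
      refine mul_le_mul_of_nonneg_right ?_ (norm_nonneg _)
      rw [Real.norm_eq_abs]
      exact hx.trans (le_abs_self B)
  have l1 : ∀ x, ρ x * av μ f x = ∫ y, ρ x * f (x - y) ∂μ := fun x => by
    unfold av
    rw [integral_const_mul]
  have l2 : ∀ x, av μ ρ x * f x = ∫ y, ρ (x - y) * f x ∂μ := fun x => by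
    unfold av
    rw [integral_mul_const]
  simp only [l1, l2]
  rw [integral_integral_swap (f := fun x y => ρ x * f (x - y)) hi1,
    integral_integral_swap (f := fun x y => ρ (x - y) * f x) hi2]
  have l3 : ∀ y : E3, ∫ x, ρ x * f (x - y) = ∫ x, ρ (x - -y) * f x := by
    intro y
    rw [← integral_add_right_eq_self (fun x => ρ x * f (x - y)) y]
    congr 1
    ext x
    rw [add_sub_cancel_right, sub_neg_eq_add]
  simp only [l3]
  have l4 := (MeasurableEquiv.neg E3).measurableEmbedding.integral_map (μ := μ)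
    (fun y => ∫ x, ρ (x - y) * f x)
  have l5 : μ.map (MeasurableEquiv.neg E3) = μ := hμ.sym
  rw [l5] at l4
  exact l4.symm

theorem stAv : StAv := fun μ hμ =>
  ⟨fun B f hf => Av_one μ hμ B f hf, fun f hf hi => Av_two μ hμ f hf hi,
    fun ρ f B hρ hi hf hB => Av_three μ hμ ρ f B hρ hi hf hB⟩

theorem stGa : StGa := by
  intro σ hσ
  refine ⟨⟨isProb_gam hσ, ?_⟩, fun f => ?_⟩
  · refine Measure.ext_of_lintegral _ fun f hf => ?_
    rw [lintegral_map hf measurable_neg, lintegral_gam σ (f := fun a => f (-a))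
      (hf.comp measurable_neg), lintegral_gam σ hf,
      ← lintegral_neg_eq_self (fun y => ENNReal.ofReal (hk σ y) * f y) (μ := (volume : Measure E3))]
    congr 1
    ext y
    rw [hk_neg]
  · funext x
    exact heat_eq hσ f x

end Pool.Agent.TF.S2
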