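import Pool.Agent.TF.S2.Def2
import Pool.Agent.TF.E.JL2

/-!
# Block S2: weighted norms of bounded fields
-/

set_option autoImplicit false

namespace Pool.Agent.TF.S2

open MeasureTheory Set Filter Topology Pool.Agent.TO Pool.Agent.TB Pool.Agent.TC Pool.Agent.TP
open scoped ENNReal NNReal Real InnerProductSpace SchwartzMap LineDeriv

/-! ### Bounded fields and the weighted norm -/

/-- bounded fields with weighted norm at most `M` -/
def ccQ (w : V3) (M : ℝ) (f : V3) : Prop := (∃ B, Bd f B) ∧ ‖tens 0 w f‖ ≤ M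

theorem cc_add {w : V3} {M N : ℝ} {f g : V3} (hf : ccQ w M f) (hg : ccQ w N g) :
    ccQ w (M + N) (f + g) := by
  obtain ⟨⟨B, hB⟩, h1⟩ := hf
  obtain ⟨⟨B', hB'⟩, h2⟩ := hg
  refine ⟨⟨B + B', bd_add hB hB'⟩, ?_⟩
  have e : tens 0 w (f + g) = tens 0 w f + tens 0 w g := by
    apply Lp.ext
    filter_upwards [coe_tens_right 0 w (bd_add hB hB'), coe_tens_right 0 w hB,
      coe_tens_right 0 w hB', Lp.coeFn_add f g, Lp.coeFn_add (tens 0 w f) (tens 0 w g)]
      with x e1 e2 e3 e4 e5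
    rw [e1, e5, Pi.add_apply, e2, e3, e4, Pi.add_apply, smul_add]
  rw [e]
  exact (norm_add_le _ _).trans (add_le_add h1 h2)

theorem cc_zero (w : V3) : ccQ w 0 0 := by
  have h0 : Bd (0 : V3) 0 := by
    filter_upwards [Lp.coeFn_zero E3 2 (volume : Measure E3)] with x hx
    rw [hx]
    simp
  refine ⟨⟨0, h0⟩, ?_⟩
  have e : tens 0 w 0 = 0 := by
    apply Lp.ext
    filter_upwards [coe_tens_right 0 w h0, Lp.coeFn_zero E3 2 (volume : Measure E3)] with x e1 e2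
    rw [e1, e2]
    simp
  rw [e, norm_zero]

theorem cc_sum {w : V3} {M : ℝ} {ι : Type} [Fintype ι] {F : ι → V3} (h : ∀ i, ccQ w M (F i)) :
    ccQ w (Fintype.card ι * M) (∑ i, F i) := by
  classical
  have key : ∀ s : Finset ι, ccQ w (s.card * M) (∑ i ∈ s, F i) := by
    intro s
    induction s using Finset.induction_on with
    | empty => simpa using cc_zero w
    | insert a s ha ih =>
      rw [Finset.sum_insert ha, Finset.card_insert_of_notMem ha]
      have := cc_add (h a) ih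
      have e : M + (s.card : ℝ) * M = ((s.card + 1 : ℕ) : ℝ) * M := by
        push_cast
        ring
      rwa [e] at this
  exact key Finset.univ

theorem cc_PM {w : V3} {M : ℝ} {f : V3} (l i : Fin 3) (hf : ccQ w M f) :
    ccQ w M (PM l i f) := by
  obtain ⟨⟨B, hB⟩, h1⟩ := hf
  refine ⟨⟨B, bd_PM l i hB⟩, le_trans ?_ h1⟩
  rw [← one_mul ‖tens 0 w f‖]
  apply Lp.norm_le_mul_norm_of_ae_le_mul
  filter_upwards [coe_tens_right 0 w (bd_PM l i hB), coe_tens_right 0 w hB, coe_PM l i f]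
    with x e1 e2 e3
  rw [e1, e2, e3, norm_smul, norm_smul, norm_smul, one_mul]
  have h2 : ‖(ee i : E3)‖ = 1 := by simp [ee]
  rw [h2, mul_one]
  exact mul_le_mul_of_nonneg_left (PiLp.norm_apply_le (f x) l) (norm_nonneg _)

theorem cc_mono {w : V3} {M N : ℝ} {f : V3} (hf : ccQ w M f) (h : M ≤ N) : ccQ w N f :=
  ⟨hf.1, hf.2.trans h⟩

/-! ### The weight -/

theorem cc_int_sq {f : E3 → E3} (hf : MemLp f 2 (volume : Measure E3)) :
    ‖vL f‖ ^ 2 = ∫ x, ‖f x‖ ^ 2 := by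
  rw [norm_sq_eq_real]
  apply integral_congr_ae
  filter_upwards [vL_coe hf] with x hx
  rw [hx]

theorem cc_weak {f : E3 → E3} (h1 : ContDiff ℝ 1 f) (hf : MemLp f 2 (volume : Measure E3))
    (k : Fin 3) (hg : MemLp (pd k f) 2 (volume : Measure E3)) :
    IsWeakDeriv k (vL f) (vL (pd k f)) := by
  rw [vL_eq hf, vL_eq hg]
  refine weak_of_line hf hg fun x => ?_
  exact ((h1.differentiable one_ne_zero) x).hasFDerivAt.hasLineDerivAt (ee k)

/-- the weight as a field -/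
noncomputable def ccW (θ : E3 → ℝ) (x : E3) : E3 := θ x • (ee 0 : E3)

theorem cc_ee (k : Fin 3) : ‖(ee k : E3)‖ = 1 := by simp [ee]

theorem cc_c1 {θ : E3 → ℝ} (h : ContDiff ℝ 1 θ) : ContDiff ℝ 1 (ccW θ) := h.smul contDiff_const

theorem cc_pd {θ : E3 → ℝ} (h : ContDiff ℝ 1 θ) (l : Fin 3) (x : E3) :
    pd l (ccW θ) x = (fderiv ℝ θ x (ee l)) • (ee 0 : E3) := by
  have h1 : HasFDerivAt (ccW θ) ((fderiv ℝ θ x).smulRight (ee 0 : E3)) x :=
    ((h.differentiable one_ne_zero) x).hasFDerivAt.smul_const (ee 0 : E3)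
  unfold pd
  rw [h1.fderiv]
  rfl

theorem cc_mem {θ : E3 → ℝ} (h : ContDiff ℝ 1 θ) (hi : Integrable (fun x => θ x ^ 2)) :
    MemLp (ccW θ) 2 (volume : Measure E3) := by
  rw [memLp_two_iff_integrable_sq_norm (cc_c1 h).continuous.aestronglyMeasurable]
  refine hi.congr (Eventually.of_forall fun x => ?_)
  simp only [ccW, norm_smul, cc_ee, mul_one, Real.norm_eq_abs, sq_abs]

theorem cc_pd_le {θ : E3 → ℝ} (h : ContDiff ℝ 1 θ) (l : Fin 3) (x : E3) :
    ‖pd l (ccW θ) x‖ ≤ ‖fderiv ℝ θ x‖ := by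
  rw [cc_pd h, norm_smul, cc_ee, mul_one]
  refine ((fderiv ℝ θ x).le_opNorm (ee l)).trans ?_
  rw [cc_ee, mul_one]

theorem cc_pd_meas {θ : E3 → ℝ} (h : ContDiff ℝ 1 θ) (l : Fin 3) :
    AEStronglyMeasurable (pd l (ccW θ)) (volume : Measure E3) := by
  have h1 : Continuous (fderiv ℝ (ccW θ)) := (cc_c1 h).continuous_fderiv one_ne_zero
  exact (h1.clm_apply continuous_const).aestronglyMeasurable

theorem cc_pd_mem {θ : E3 → ℝ} (h : ContDiff ℝ 1 θ)
    (hi : Integrable (fun x => ‖fderiv ℝ θ x‖ ^ 2)) (l : Fin 3) :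
    MemLp (pd l (ccW θ)) 2 (volume : Measure E3) := by
  rw [memLp_two_iff_integrable_sq_norm (cc_pd_meas h l)]
  refine hi.mono ((cc_pd_meas h l).norm.pow 2) (Eventually.of_forall fun x => ?_)
  rw [Real.norm_of_nonneg (by positivity), Real.norm_of_nonneg (by positivity)]
  exact pow_le_pow_left₀ (norm_nonneg _) (cc_pd_le h l x) 2

theorem cc_pd_norm {θ : E3 → ℝ} (h : ContDiff ℝ 1 θ)
    (hi : Integrable (fun x => ‖fderiv ℝ θ x‖ ^ 2)) (l : Fin 3) :
    ‖vL (pd l (ccW θ))‖ ^ 2 ≤ ∫ x, ‖fderiv ℝ θ x‖ ^ 2 := by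
  rw [cc_int_sq (cc_pd_mem h hi l)]
  refine integral_mono ((memLp_two_iff_integrable_sq_norm (cc_pd_meas h l)).1
    (cc_pd_mem h hi l)) hi fun x => ?_
  exact pow_le_pow_left₀ (norm_nonneg _) (cc_pd_le h l x) 2

/-- the weighted norm of a bounded field -/
theorem cc_tens {θ : E3 → ℝ} (h : ContDiff ℝ 1 θ) (hi : Integrable (fun x => θ x ^ 2))
    {f : V3} {B : ℝ} (hf : Bd f B) :
    ‖tens 0 (vL (ccW θ)) f‖ ^ 2 = ∫ x, θ x ^ 2 * ‖f x‖ ^ 2 := by
  rw [norm_sq_eq_real]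
  apply integral_congr_ae
  filter_upwards [coe_tens_right 0 (vL (ccW θ)) hf, vL_coe (cc_mem h hi)] with x e1 e2
  rw [e1, e2, norm_smul, mul_pow]
  simp [ccW, ee]

theorem cc_bd {f : E3 → E3} (hf : MemLp f 2 (volume : Measure E3)) {A : ℝ}
    (h : ∀ x, ‖f x‖ ≤ A) : Bd (vL f) A := by
  filter_upwards [vL_coe hf] with x hx
  rw [hx]
  exact h x

/-- comparison of `∂_k f` with the derivatives of the components of `f` -/
theorem cc_comp {f : E3 → E3} (hf : Differentiable ℝ f) (k : Fin 3) (x : E3) :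
    ‖pd k f x‖ ^ 2 ≤ ∑ i : Fin 3, ‖fderiv ℝ (fun y => f y i) x‖ ^ 2 := by
  rw [EuclideanSpace.norm_sq_eq]
  refine Finset.sum_le_sum fun i _ => ?_
  refine pow_le_pow_left₀ (norm_nonneg _) ?_ 2
  have h1 : HasFDerivAt (fun y => f y i) ((EuclideanSpace.proj (𝕜 := ℝ) i).comp (fderiv ℝ f x)) x :=
    (EuclideanSpace.proj (𝕜 := ℝ) i).hasFDerivAt.comp x (hf x).hasFDerivAt
  have h2 : (pd k f x) i = fderiv ℝ (fun y => f y i) x (ee k) := by
    rw [h1.fderiv]
    rfl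
  rw [h2]
  refine ((fderiv ℝ (fun y => f y i) x).le_opNorm (ee k)).trans ?_
  rw [cc_ee, mul_one]

theorem cc_fd_le {f : E3 → E3} (hf : Differentiable ℝ f) {B : ℝ} (hB : ∀ i x, ‖pd i f x‖ ≤ B)
    (i : Fin 3) (x : E3) : ‖fderiv ℝ (fun y => f y i) x‖ ≤ 3 * B := by
  have hB0 : 0 ≤ B := (norm_nonneg _).trans (hB 0 x)
  have h1 : HasFDerivAt (fun y => f y i) ((EuclideanSpace.proj (𝕜 := ℝ) i).comp (fderiv ℝ f x)) x :=
    (EuclideanSpace.proj (𝕜 := ℝ) i).hasFDerivAt.comp x (hf x).hasFDerivAt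
  refine ContinuousLinearMap.opNorm_le_bound _ (by positivity) fun v => ?_
  have hv : v = ∑ j, v j • ee j := by
    ext i
    simp [ee, Pi.single_apply]
  have h2 : fderiv ℝ (fun y => f y i) x v = ∑ j, v j * (pd j f x) i := by
    rw [h1.fderiv]
    conv_lhs => rw [hv]
    rw [map_sum]
    refine Finset.sum_congr rfl fun j _ => ?_
    rw [map_smul, smul_eq_mul]
    rfl
  rw [h2]
  calc ‖∑ j, v j * (pd j f x) i‖ ≤ ∑ j, ‖v j * (pd j f x) i‖ := norm_sum_le _ _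
    _ ≤ ∑ _j : Fin 3, ‖v‖ * B := by
        refine Finset.sum_le_sum fun j _ => ?_
        rw [norm_mul]
        exact mul_le_mul (PiLp.norm_apply_le v j)
          ((PiLp.norm_apply_le (pd j f x) i).trans (hB j x)) (norm_nonneg _) (norm_nonneg _)
    _ = 3 * B * ‖v‖ := by
        simp
        ring

/-- the weighted norm of `∂_k f` -/
theorem cc_pdn {θ : E3 → ℝ} (h : ContDiff ℝ 1 θ) (hi : Integrable (fun x => θ x ^ 2))
    {f : E3 → E3} (hf : Nc f) (k : Fin 3) {S : ℝ}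
    (hS : ∀ i : Fin 3, ∫ x, θ x ^ 2 * ‖fderiv ℝ (fun y => f y i) x‖ ^ 2 ≤ S ^ 2) (hS0 : 0 ≤ S) :
    ‖tens 0 (vL (ccW θ)) (vL (pd k f))‖ ≤ 2 * S := by
  obtain ⟨B, hB⟩ := hf.b1
  have hB0 : 0 ≤ B := (norm_nonneg _).trans (hB 0 0)
  have hd : Differentiable ℝ f := hf.c2.differentiable two_ne_zero
  have c1 : ContDiff ℝ 1 f := hf.c2.of_le (by norm_num)
  refine le_of_sq_le_sq ?_ (by positivity)
  rw [cc_tens h hi (cc_bd (hf.m1 k) (hB k))]
  have hint : ∀ i : Fin 3, Integrable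
      (fun x => θ x ^ 2 * ‖fderiv ℝ (fun y => f y i) x‖ ^ 2) (volume : Measure E3) := by
    intro i
    have ci : ContDiff ℝ 1 (fun y => f y i) := (EuclideanSpace.proj (𝕜 := ℝ) i).contDiff.comp c1
    have m : AEStronglyMeasurable (fun x => ‖fderiv ℝ (fun y => f y i) x‖ ^ 2)
        (volume : Measure E3) :=
      ((ci.continuous_fderiv one_ne_zero).norm.pow 2).aestronglyMeasurable
    refine hi.mul_bdd (c := (3 * B) ^ 2) m (Eventually.of_forall fun x => ?_)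
    rw [Real.norm_of_nonneg (by positivity)]
    exact pow_le_pow_left₀ (norm_nonneg _) (cc_fd_le hd hB i x) 2
  calc ∫ x, θ x ^ 2 * ‖(vL (pd k f) : V3) x‖ ^ 2
      ≤ ∫ x, ∑ i : Fin 3, θ x ^ 2 * ‖fderiv ℝ (fun y => f y i) x‖ ^ 2 := by
        refine integral_mono_of_nonneg (Eventually.of_forall fun x => by positivity)
          (integrable_finsetSum _ fun i _ => hint i) ?_
        filter_upwards [vL_coe (hf.m1 k)] with x hx
        rw [hx, ← Finset.mul_sum]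
        exact mul_le_mul_of_nonneg_left (cc_comp hd k x) (by positivity)
    _ = ∑ i : Fin 3, ∫ x, θ x ^ 2 * ‖fderiv ℝ (fun y => f y i) x‖ ^ 2 :=
        integral_finsetSum _ fun i _ => hint i
    _ ≤ ∑ _i : Fin 3, S ^ 2 := Finset.sum_le_sum fun i _ => hS i
    _ ≤ (2 * S) ^ 2 := by
        simp
        nlinarith [sq_nonneg S]

end Pool.Agent.TF.S2
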