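import Pool.Agent.TB.Heat

/-!
# Block S2: dual density, Fisher information, weighted energy (definitions and statements)
-/

set_option autoImplicit false

namespace Pool.Agent.TF.S2

open MeasureTheory Set Filter Topology Pool.Agent.TO Pool.Agent.TB
open scoped ENNReal NNReal Real InnerProductSpace

/-- averaging of a function by a measure -/
noncomputable def av {F : Type*} [NormedAddCommGroup F] [NormedSpace ℝ F] (μ : Measure E3)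
    (f : E3 → F) (x : E3) : F := ∫ y, f (x - y) ∂μ

/-- a symmetric probability measure -/
structure SymP (μ : Measure E3) : Prop where
  prob : IsProbabilityMeasure μ
  sym : μ.map (fun x => -x) = μ

/-- `C²` functions, bounded by `B` together with the first two derivatives -/
structure C2 {F : Type*} [NormedAddCommGroup F] [NormedSpace ℝ F] (B : ℝ) (f : E3 → F) : Prop where
  cd : ContDiff ℝ 2 f
  b0 : ∀ x, ‖f x‖ ≤ B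
  b1 : ∀ x, ‖fderiv ℝ f x‖ ≤ B
  b2 : ∀ x, ‖fderiv ℝ (fderiv ℝ f) x‖ ≤ B

/-- positive integrable densities with `|Dρ|, |D²ρ| ≤ M ρ` -/
structure Den (M : ℝ) (ρ : E3 → ℝ) : Prop where
  cd : ContDiff ℝ 2 ρ
  pos : ∀ x, 0 < ρ x
  int : Integrable ρ
  bdd : ∃ B, ∀ x, ρ x ≤ B
  one : 1 ≤ M
  d1 : ∀ x, ‖fderiv ℝ ρ x‖ ≤ M * ρ x
  d2 : ∀ x, ‖fderiv ℝ (fderiv ℝ ρ) x‖ ≤ M * ρ x

/-- the Fisher information -/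
noncomputable def fi (ρ : E3 → ℝ) : ℝ := ∫ x, ‖fderiv ℝ ρ x‖ ^ 2 / ρ x

/-- the coefficients of one step -/
structure Co (Cb c t d : ℝ) (lam : E3 → ℝ) (b : E3 → E3) : Prop where
  t0 : 0 < t
  d0 : 0 < d
  Cb1 : 1 ≤ Cb
  dC : d * Cb ≤ 1 / 6
  cl : C2 Cb lam
  cb : C2 Cb b
  nn : ∀ x, 0 ≤ lam x
  dv : ∀ x, ∑ i, fderiv ℝ b x (ee i) i = 0
  db : ∀ x, ‖fderiv ℝ b x‖ ≤ lam x / 8
  dl : ∀ x, √t * ‖fderiv ℝ lam x‖ ≤ c * lam x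

/-- the step `J f (x) = (1 - d λ(x)) f (x - d b(x))` -/
noncomputable def J (d : ℝ) (lam : E3 → ℝ) (b : E3 → E3) (f : E3 → ℝ) (x : E3) : ℝ :=
  (1 - d * lam x) * f (x - d • b x)

/-- the approximate adjoint `J~ ρ (x) = (1 - d λ(x)) ρ (x + d b(x))` -/
noncomputable def Jt (d : ℝ) (lam : E3 → ℝ) (b : E3 → E3) (ρ : E3 → ℝ) (x : E3) : ℝ :=
  (1 - d * lam x) * ρ (x + d • b x)

/-- the mass killed by one step -/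
noncomputable def kl (d : ℝ) (lam : E3 → ℝ) (b : E3 → E3) (ρ : E3 → ℝ) : ℝ :=
  ∫ x, d * lam x * ρ (x + d • b x)

/-- (S2-Av) averages of `C²` functions -/
def StAv : Prop := ∀ μ : Measure E3, SymP μ →
  (∀ (B : ℝ) (f : E3 → ℝ), C2 B f → C2 B (av μ f) ∧
    (∀ x, fderiv ℝ (av μ f) x = ∫ y, fderiv ℝ f (x - y) ∂μ) ∧
    ∀ x, fderiv ℝ (fderiv ℝ (av μ f)) x = ∫ y, fderiv ℝ (fderiv ℝ f) (x - y) ∂μ) ∧
  (∀ f : E3 → ℝ, Continuous f → Integrable f →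
    Integrable (av μ f) ∧ ∫ x, av μ f x = ∫ x, f x) ∧
  (∀ (ρ f : E3 → ℝ) (B : ℝ), Continuous ρ → Integrable ρ → Measurable f →
    (∀ᵐ x, |f x| ≤ B) → ∫ x, ρ x * av μ f x = ∫ x, av μ ρ x * f x)

/-- (S2-Ga) the Gaussian measure is symmetric, `heat` is an average -/
def StGa : Prop := ∀ σ : ℝ, 0 < σ → SymP (gam σ) ∧ ∀ f : E3 → ℝ, heat σ f = av (gam σ) f

/-- (S2-Da) averages of densities; the Fisher information decreases -/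
def StDa : Prop := ∀ μ : Measure E3, SymP μ → ∀ (M : ℝ) (ρ : E3 → ℝ), Den M ρ →
  Den M (av μ ρ) ∧ ∫ x, av μ ρ x = ∫ x, ρ x ∧ fi (av μ ρ) ≤ fi ρ

/-- (S2-Dj) the step `J~` on densities -/
def StDj : Prop := ∀ (Cb c t d M : ℝ) (lam : E3 → ℝ) (b : E3 → E3) (ρ : E3 → ℝ),
  Co Cb c t d lam b → Den M ρ → Den (M * (1 + 12 * (d * Cb))) (Jt d lam b ρ)

/-- (S2-Jc) the step `J` on `C²` functions -/
def StJc : Prop := ∀ (Cb c t d B : ℝ) (lam : E3 → ℝ) (b : E3 → E3) (f : E3 → ℝ),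
  Co Cb c t d lam b → C2 B f → C2 (B * (1 + 12 * (d * Cb))) (J d lam b f)

/-- (S2-Ch) change of variables `x ↦ x + d b(x)` -/
def StCh : Prop := ∀ (Cb c t d : ℝ) (lam : E3 → ℝ) (b : E3 → E3) (F : E3 → ℝ),
  Co Cb c t d lam b → Continuous F → (∀ x, 0 ≤ F x) → Integrable F →
  Integrable (fun x => F (x + d • b x)) ∧
    ∫ x, F (x + d • b x) ≤ (1 + 18 * (d * Cb) ^ 2) * ∫ x, F x

/-- (S2-Fj) mass and Fisher information of `J~ ρ` -/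
def StFj : Prop := ∀ (Cb c t d M : ℝ) (lam : E3 → ℝ) (b : E3 → E3) (ρ : E3 → ℝ),
  Co Cb c t d lam b → Den M ρ →
  0 ≤ kl d lam b ρ ∧
  ∫ x, Jt d lam b ρ x ≤ (1 + 18 * (d * Cb) ^ 2) * (∫ x, ρ x) - kl d lam b ρ ∧
  fi (Jt d lam b ρ) ≤ (1 + 18 * (d * Cb) ^ 2) * fi ρ + 3 * c ^ 2 / t * kl d lam b ρ

/-- (S2-Ad) `J~` is the adjoint of `J` up to `O(d²)` -/
def StAd : Prop := ∀ (Cb c t d M B : ℝ) (lam : E3 → ℝ) (b : E3 → E3) (ρ f : E3 → ℝ),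
  Co Cb c t d lam b → Den M ρ → C2 B f → M * (d * Cb) ≤ 1 / 6 →
  |(∫ x, Jt d lam b ρ x * f x) - ∫ x, ρ x * J d lam b f x| ≤ 3 * M * B * (d * Cb) ^ 2 * ∫ x, ρ x

/-- (S2-Cm) comparison of `σ = e^{ηΔ} ρ` and `J~ ρ` -/
def StCm : Prop := ∀ (Cb c t d M η : ℝ) (lam : E3 → ℝ) (b : E3 → E3) (ρ : E3 → ℝ),
  Co Cb c t d lam b → Den M ρ → M * (d * Cb) ≤ 1 / 6 → 0 < η → 2 * η * M ^ 2 ≤ 1 / 10 →
  ∀ x, heat η ρ x ≤ 5 * Jt d lam b ρ x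

/-- (S2-Be) Bessel's inequality for the Gaussian -/
def StBe : Prop := ∀ (B d : ℝ) (f : E3 → ℝ), 0 < d → C2 B f → ∀ x,
  heat d f x ^ 2 + 2 * d * ‖fderiv ℝ (heat d f) x‖ ^ 2 ≤ heat d (fun y => f y ^ 2) x

/-- (S2-On) one step, linear and quadratic -/
def StOn : Prop := ∀ (Cb c t d M A B : ℝ) (lam : E3 → ℝ) (b : E3 → E3) (ρ f s : E3 → ℝ),
  Co Cb c t d lam b → Den M ρ → C2 B f → C2 B s → (∀ x, |f x| ≤ A) → 1 ≤ B →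
  M * (d * Cb) ≤ 1 / 6 →
  |(∫ x, ρ x * heat d (fun y => J d lam b f y + d * s y) x) -
      ∫ x, Jt d lam b (heat d ρ) x * f x| ≤
    d * (∫ x, heat d ρ x * |s x|) + 3 * M * B * (d * Cb) ^ 2 * ∫ x, ρ x ∧
  (∫ x, ρ x * heat d (fun y => J d lam b f y + d * s y) x ^ 2) +
      2 * d * (∫ x, ρ x * ‖fderiv ℝ (heat d (fun y => J d lam b f y + d * s y)) x‖ ^ 2) ≤
    (∫ x, Jt d lam b (heat d ρ) x * f x ^ 2) + 2 * d * A * (∫ x, heat d ρ x * |s x|) +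
      13 * M * B ^ 2 * (d * Cb) ^ 2 * ∫ x, ρ x

/-- (S2-Nu) the summation of the Fisher information -/
def StNu : Prop := ∀ (n : ℕ) (d s0 c κ₁ ε : ℝ) (m I p : ℕ → ℝ), 0 < d → 0 < s0 → 0 ≤ ε →
  ε * n ≤ 1 / 2 → (∀ j, 0 ≤ m j) → (∀ j, 0 ≤ I j) → (∀ j, 0 ≤ p j) → m n ≤ 1 → 0 ≤ κ₁ →
  I n ≤ κ₁ / (s0 + n * d) →
  (∀ j < n, m j ≤ (1 + ε) * m (j + 1) - p j) →
  (∀ j < n, I j ≤ (1 + ε) * I (j + 1) + 3 * c ^ 2 / (s0 + j * d) * p j) →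
  (∀ j ≤ n, m j ≤ 2) ∧ ∑ j ∈ Finset.range n, d * I (j + 1) ≤ 2 * κ₁ + 12 * c ^ 2

/-- the data of block S2 up to step `n` -/
structure Sys (ι : Type) [Fintype ι] (Cb c A B L C₁ η d s0 : ℝ) (n : ℕ)
    (lam : ℕ → E3 → ℝ) (b : ℕ → E3 → E3) (f s : ι → ℕ → E3 → ℝ) (u : ℕ → E3 → ℝ) : Prop where
  s0p : 0 < s0
  d0 : 0 < d
  ηp : 0 < η
  A0 : 0 ≤ A
  B1 : 1 ≤ B
  Cb1 : 1 ≤ Cb
  C0 : 0 ≤ C₁
  co : ∀ m < n, Co Cb c (s0 + m * d) d (lam m) (b m)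
  f2 : ∀ a, ∀ m < n, C2 B (f a m)
  s2 : ∀ a, ∀ m < n, C2 B (s a m)
  fA : ∀ a, ∀ m < n, ∀ x, |f a m x| ≤ A
  step : ∀ a, ∀ m < n,
    f a (m + 1) = heat d (fun x => J d (lam m) (b m) (f a m) x + d * s a m x)
  um : ∀ m < n, Measurable (u m)
  u0 : ∀ m < n, ∀ x, 0 ≤ u m x
  uB : ∀ m < n, ∀ᵐ x, u m x ≤ B
  src : ∀ a, ∀ m < n, ∀ x, |s a m x| ≤ heat η (u m) x
  cc : ∀ m < n, ∀ θ : E3 → ℝ, ContDiff ℝ 1 θ → (∀ x, 0 < θ x) →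
    Integrable (fun x => θ x ^ 2) → Integrable (fun x => ‖fderiv ℝ θ x‖ ^ 2) →
    ∫ x, θ x ^ 2 * u m x ≤ C₁ * ((∑ a, ∫ x, θ x ^ 2 * ‖fderiv ℝ (f a m) x‖ ^ 2) +
      A ^ 2 * (∫ x, ‖fderiv ℝ θ x‖ ^ 2) + L ^ 2 * ∫ x, θ x ^ 2)

/-- the bound of the log-derivatives of all densities -/
noncomputable def MM (M Cb T : ℝ) : ℝ := M * Real.exp (12 * Cb * T)

/-- (S2-Du) the dual densities -/
def StDu : Prop := ∀ (Cb c d s0 κ₁ M T : ℝ) (n : ℕ) (lam : ℕ → E3 → ℝ) (b : ℕ → E3 → E3)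
  (ρ : E3 → ℝ), 0 < s0 → 0 < d → 1 ≤ Cb → (∀ m < n, Co Cb c (s0 + m * d) d (lam m) (b m)) →
  Den M ρ → ∫ x, ρ x ≤ 1 → 0 ≤ κ₁ → fi ρ ≤ κ₁ / (s0 + n * d) → n * d ≤ T →
  18 * Cb ^ 2 * T * d ≤ 1 / 2 →
  ∃ r : ℕ → E3 → ℝ, r n = ρ ∧
    (∀ m < n, r m = Jt d (lam m) (b m) (heat d (r (m + 1)))) ∧
    (∀ m ≤ n, Den (MM M Cb T) (r m)) ∧ (∀ m ≤ n, ∫ x, r m x ≤ 2) ∧
    ∑ m ∈ Finset.range n, d * fi (r (m + 1)) ≤ 2 * κ₁ + 12 * c ^ 2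

/-- (S2) main statement of the block -/
def StS2 : Prop := ∀ (ι : Type) (_ : Fintype ι) (Cb c A B L C₁ η d s0 κ₁ M T : ℝ) (n : ℕ)
  (lam : ℕ → E3 → ℝ) (b : ℕ → E3 → E3) (f s : ι → ℕ → E3 → ℝ) (u : ℕ → E3 → ℝ) (ρ : E3 → ℝ),
  Sys ι Cb c A B L C₁ η d s0 n lam b f s u → Den M ρ → ∫ x, ρ x ≤ 1 → 0 ≤ κ₁ →
  fi ρ ≤ κ₁ / (s0 + n * d) → n * d ≤ T →
  18 * Cb ^ 2 * T * d ≤ 1 / 2 → MM M Cb T * (d * Cb) ≤ 1 / 6 → 2 * η * MM M Cb T ^ 2 ≤ 1 / 10 →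
  10 * C₁ * Fintype.card ι * A ≤ 1 →
  ∀ a, (∀ x, f a 0 x = 0) →
  |∫ x, ρ x * f a n x| ≤ C₁ * (10 * Fintype.card ι + κ₁ + 6 * c ^ 2) * A ^ 2 +
    4 * C₁ * L ^ 2 * T +
    d * (20 * Fintype.card ι * C₁ * B ^ 2 +
      (130 * Fintype.card ι * C₁ + 6) * MM M Cb T * B ^ 2 * Cb ^ 2 * T)

end Pool.Agent.TF.S2
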