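import Pool.Agent.TF.S2.Def
import Pool.Agent.TF.Flow

/-!
# Block S2: the statements in terms of the scheme
-/

set_option autoImplicit false

namespace Pool.Agent.TF.S2

open MeasureTheory Set Filter Topology Pool.Agent.TO Pool.Agent.TB Pool.Agent.TC Pool.Agent.TP
open scoped ENNReal NNReal Real InnerProductSpace

/-- (S2-Co) the coefficients of `Flow` -/
def StCo : Prop := ∀ c s Λ : ℝ, 0 < c → 0 < s → 0 < Λ → ∃ Cb : ℝ, 1 ≤ Cb ∧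
  ∀ (t d : ℝ) (b : E3 → E3) (lam : E3 → ℝ), s ≤ t → t ≤ 1 → 0 < d → d * Cb ≤ 1 / 6 →
  Coef c (√t) Λ b lam → Co Cb (3 * c) t d lam b

/-- (S2-Dt) the datum of the dual density: `et0 r (x₀ - ·)` -/
def StDt : Prop := ∃ C : ℝ, 1 ≤ C ∧ ∀ (r : ℝ) (x₀ : E3), 0 < r → r ≤ 1 →
  Den (C / r ^ 2) (fun x => et0 r (x₀ - x)) ∧ ∫ x, et0 r (x₀ - x) = 1 ∧
  fi (fun x => et0 r (x₀ - x)) ≤ C / r ^ 2

/-- (S2-Mo) averages by `et0 r` approximate the function -/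
def StMo : Prop := ∃ C > 0, ∀ (r D : ℝ) (x : E3) (f : E3 → E3), 0 < r → ContDiff ℝ 1 f →
  (∃ B, ∀ x, ‖f x‖ ≤ B) → (∀ i x, ‖pd i f x‖ ≤ D) → ‖f x - cvf (et0 r) f x‖ ≤ C * r * D

/-- all scalar potentials of a state -/
abbrev Ix : Type := (Fin 3 × Option (Fin 3) × Fin 3) ⊕ (Fin 3 × Fin 3)

/-- the scalar potentials -/
noncomputable def pot (σ : Sta) : Ix → E3 → ℝ
  | Sum.inl (k, j, i), x => σ.g k j x i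
  | Sum.inr (k, i), x => σ.h k x i

/-- (S2-Cc) consequence of the commutator estimate (CC) -/
def StCc : Prop := ∃ C₁ > 0, ∀ R, RZ R → ∀ (σ : Sta) (A L : ℝ), NcS σ → SupS A σ → 0 ≤ A →
  0 ≤ L → Bd σ.l L → ∀ θ : E3 → ℝ, ContDiff ℝ 1 θ → (∀ x, 0 < θ x) →
    Integrable (fun x => θ x ^ 2) → Integrable (fun x => ‖fderiv ℝ θ x‖ ^ 2) →
    ∫ x, θ x ^ 2 * ‖(Hh R σ : V3) x‖ ^ 2 ≤
      C₁ * ((∑ a, ∫ x, θ x ^ 2 * ‖fderiv ℝ (pot σ a) x‖ ^ 2) +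
        A ^ 2 * (∫ x, ‖fderiv ℝ θ x‖ ^ 2) + L ^ 2 * ∫ x, θ x ^ 2)

/-- (S2) the bound of the averages of the potentials `h` -/
def StS2R : Prop := ∀ c > 0, ∃ C₂ > 0, ∀ κ : ℝ, 0 < κ → κ ≤ 1 → ∃ Cκ > 0,
  ∀ Ci A₀ A L s Λ Bu : ℝ, 0 < Ci → 0 < A₀ → 0 < A → C₂ * A ≤ 1 → 0 < L → 0 < s → s < 1 → 0 < Λ →
  0 < Bu → ∃ η₁ > 0, ∀ η : ℝ, 0 < η → η < η₁ → ∃ C₃ > 0, ∃ d₁ > 0, ∀ d : ℝ, 0 < d → d < d₁ →
  ∀ R, RZ R → ∀ (K : ℕ) (σ : ℕ → Sta) (b : ℕ → E3 → E3) (lam : ℕ → E3 → ℝ), tk s d K ≤ 1 →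
  Ini Ci A₀ L s (σ 0) → Run c Λ s d η R K σ b lam → (∀ k < K, SupS A (σ k)) →
  (∀ k < K, Bd (Hh R (σ k)) Bu) → ∀ (j : Fin 3) (x₀ : E3),
  ‖cvf (et0 (κ * √(tk s d K))) ((σ K).h j) x₀‖ ≤
    Cκ * A ^ 2 + C₂ * L ^ 2 * tk s d K + C₃ * d

end Pool.Agent.TF.S2
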