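import Pool.Agent.TF.S2.Def

/-!
# Block S2, row Fi, part (iii): the commutator estimate with the square root of the density
-/

set_option autoImplicit false

namespace Pool.Agent.TF.S2

open MeasureTheory Set Filter Topology Pool.Agent.TO Pool.Agent.TB
open scoped ENNReal NNReal Real InnerProductSpace

/-- averages by the Gaussian measure of densities -/
theorem fq_heat (hGa : StGa) (hDa : StDa) {M τ : ℝ} {ρ : E3 → ℝ} (hτ : 0 < τ) (hρ : Den M ρ) :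
    Den M (heat τ ρ) ∧ ∫ x, heat τ ρ x = ∫ x, ρ x ∧ fi (heat τ ρ) ≤ fi ρ := by
  obtain ⟨h1, h2⟩ := hGa τ hτ
  rw [h2 ρ]
  exact hDa _ h1 M ρ hρ

theorem fq_sq {ρ : E3 → ℝ} {M : ℝ} (hρ : Den M ρ) (x : E3) : √(ρ x) ^ 2 = ρ x :=
  Real.sq_sqrt (hρ.pos x).le

theorem fq_sqrt_cd {ρ : E3 → ℝ} {M : ℝ} (hρ : Den M ρ) : ContDiff ℝ 1 (fun x => √(ρ x)) :=
  (hρ.cd.of_le (by norm_num)).sqrt (fun x => (hρ.pos x).ne')

theorem fq_fderiv {ρ : E3 → ℝ} {M : ℝ} (hρ : Den M ρ) (x : E3) :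
    fderiv ℝ (fun x => √(ρ x)) x = (1 / (2 * √(ρ x))) • fderiv ℝ ρ x := by
  have h1 : HasFDerivAt ρ (fderiv ℝ ρ x) x :=
    (hρ.cd.differentiable (by norm_num) x).hasFDerivAt
  exact (h1.sqrt (hρ.pos x).ne').fderiv

theorem fq_norm {ρ : E3 → ℝ} {M : ℝ} (hρ : Den M ρ) (x : E3) :
    ‖fderiv ℝ (fun x => √(ρ x)) x‖ ^ 2 = (1 / 4) * (‖fderiv ℝ ρ x‖ ^ 2 / ρ x) := by
  have h0 := hρ.pos x
  have h1 : 0 < √(ρ x) := Real.sqrt_pos.2 h0
  rw [fq_fderiv hρ x, norm_smul, mul_pow, Real.norm_eq_abs, sq_abs, div_pow, mul_pow, fq_sq hρ x]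
  field_simp
  ring

theorem fq_int {ρ : E3 → ℝ} {M : ℝ} (hρ : Den M ρ) :
    Integrable (fun x => ‖fderiv ℝ ρ x‖ ^ 2 / ρ x) := by
  have hc : Continuous (fun x => ‖fderiv ℝ ρ x‖ ^ 2 / ρ x) :=
    ((hρ.cd.continuous_fderiv (by norm_num)).norm.pow 2).div hρ.cd.continuous
      (fun x => (hρ.pos x).ne')
  refine (hρ.int.const_mul (M ^ 2)).mono hc.aestronglyMeasurable ?_
  refine Eventually.of_forall fun x => ?_
  have h0 := hρ.pos x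
  have h1 := hρ.d1 x
  have h2 := hρ.one
  have h3 : ‖fderiv ℝ ρ x‖ ^ 2 ≤ (M * ρ x) ^ 2 := pow_le_pow_left₀ (norm_nonneg _) h1 2
  rw [Real.norm_of_nonneg (by positivity), Real.norm_of_nonneg (by positivity),
    div_le_iff₀ h0]
  calc ‖fderiv ℝ ρ x‖ ^ 2 ≤ (M * ρ x) ^ 2 := h3
    _ = M ^ 2 * ρ x * ρ x := by ring

theorem fq_bdd_mul {ρ g : E3 → ℝ} {M B : ℝ} (hρ : Den M ρ) (hg : AEStronglyMeasurable g volume)
    (h : ∀ᵐ x, ‖g x‖ ≤ B) : Integrable (fun x => ρ x * g x) :=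
  hρ.int.mul_bdd hg h

/-- part (iii) of row Fi -/
theorem fiQ (hGa : StGa) (hDa : StDa) (hDj : StDj) (hCm : StCm) {ι : Type} [Fintype ι]
    {Cb c A B L C₁ η d s0 M' : ℝ} {n : ℕ} {lam : ℕ → E3 → ℝ} {b : ℕ → E3 → E3}
    {f s : ι → ℕ → E3 → ℝ} {u : ℕ → E3 → ℝ} (hS : Sys ι Cb c A B L C₁ η d s0 n lam b f s u)
    {m : ℕ} (hm : m < n) {rm : E3 → ℝ} (hr : Den M' rm) (hMd : M' * (d * Cb) ≤ 1 / 6)
    (hη : 2 * η * M' ^ 2 ≤ 1 / 10) (hmass : ∫ x, rm x ≤ 2) :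
    (∀ a, Integrable (fun x => Jt d (lam m) (b m) (heat d rm) x * ‖fderiv ℝ (f a m) x‖ ^ 2)) ∧
    Integrable (fun x => heat η (heat d rm) x * u m x) ∧
    ∫ x, heat η (heat d rm) x * u m x ≤
      C₁ * (5 * (∑ a, ∫ x, Jt d (lam m) (b m) (heat d rm) x * ‖fderiv ℝ (f a m) x‖ ^ 2) +
        A ^ 2 * (fi rm / 4) + 2 * L ^ 2) := by
  obtain ⟨p1, p2, p3⟩ := fq_heat hGa hDa hS.d0 hr
  obtain ⟨s1, s2, s3⟩ := fq_heat hGa hDa hS.ηp p1
  have hco := hS.co m hm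
  have hJ : Den (M' * (1 + 12 * (d * Cb))) (Jt d (lam m) (b m) (heat d rm)) :=
    hDj Cb c _ d M' _ _ _ hco p1
  have hfm : ∀ a, AEStronglyMeasurable (fun x => ‖fderiv ℝ (f a m) x‖ ^ 2)
      (volume : Measure E3) := fun a =>
    (((hS.f2 a m hm).cd.continuous_fderiv (by norm_num)).norm.pow 2).aestronglyMeasurable
  have hfb : ∀ a, ∀ᵐ x ∂(volume : Measure E3), ‖‖fderiv ℝ (f a m) x‖ ^ 2‖ ≤ B ^ 2 := by
    intro a
    refine Eventually.of_forall fun x => ?_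
    rw [Real.norm_of_nonneg (by positivity)]
    exact pow_le_pow_left₀ (norm_nonneg _) ((hS.f2 a m hm).b1 x) 2
  have hI1 : ∀ a, Integrable
      (fun x => Jt d (lam m) (b m) (heat d rm) x * ‖fderiv ℝ (f a m) x‖ ^ 2) :=
    fun a => fq_bdd_mul hJ (hfm a) (hfb a)
  have hI2 : ∀ a, Integrable
      (fun x => heat η (heat d rm) x * ‖fderiv ℝ (f a m) x‖ ^ 2) :=
    fun a => fq_bdd_mul s1 (hfm a) (hfb a)
  have hu : ∀ᵐ x ∂(volume : Measure E3), ‖u m x‖ ≤ B := by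
    filter_upwards [hS.uB m hm] with x hx
    rw [Real.norm_of_nonneg (hS.u0 m hm x)]
    exact hx
  refine ⟨hI1, fq_bdd_mul s1 (hS.um m hm).aestronglyMeasurable hu, ?_⟩
  have hcc := hS.cc m hm (fun x => √(heat η (heat d rm) x)) (fq_sqrt_cd s1)
    (fun x => Real.sqrt_pos.2 (s1.pos x)) (by simpa only [fq_sq s1] using s1.int)
    (by simpa only [fq_norm s1] using (fq_int s1).const_mul (1 / 4))
  simp only [fq_sq s1, fq_norm s1] at hcc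
  rw [integral_const_mul] at hcc
  refine hcc.trans (mul_le_mul_of_nonneg_left ?_ hS.C0)
  have e1 : (∑ a, ∫ x, heat η (heat d rm) x * ‖fderiv ℝ (f a m) x‖ ^ 2) ≤
      5 * ∑ a, ∫ x, Jt d (lam m) (b m) (heat d rm) x * ‖fderiv ℝ (f a m) x‖ ^ 2 := by
    rw [Finset.mul_sum]
    refine Finset.sum_le_sum fun a _ => ?_
    rw [← integral_const_mul]
    refine integral_mono (hI2 a) ((hI1 a).const_mul 5) fun x => ?_
    have h1 := hCm Cb c _ d M' η _ _ _ hco p1 hMd hS.ηp hη x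
    have h2 : (0:ℝ) ≤ ‖fderiv ℝ (f a m) x‖ ^ 2 := by positivity
    simp only
    rw [← mul_assoc]
    exact mul_le_mul_of_nonneg_right h1 h2
  have e2 : A ^ 2 * (1 / 4 * ∫ x, ‖fderiv ℝ (heat η (heat d rm)) x‖ ^ 2 / heat η (heat d rm) x) ≤
      A ^ 2 * (fi rm / 4) := by
    refine mul_le_mul_of_nonneg_left ?_ (sq_nonneg _)
    have h1 : fi (heat η (heat d rm)) ≤ fi rm := s3.trans p3
    unfold fi at h1 ⊢
    linarith
  have e3 : L ^ 2 * ∫ x, heat η (heat d rm) x ≤ 2 * L ^ 2 := by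
    rw [s2, p2]
    have h1 := sq_nonneg L
    nlinarith
  linarith

end Pool.Agent.TF.S2
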