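import Pool.Agent.TF.S2.FiQ
import Pool.Agent.TP.Cv

/-!
# Block S2, row Fi: the sources
-/

set_option autoImplicit false

namespace Pool.Agent.TF.S2

open MeasureTheory Set Filter Topology Pool.Agent.TO Pool.Agent.TB
open scoped ENNReal NNReal Real InnerProductSpace

theorem fs_bdd {σ B : ℝ} (hσ : 0 < σ) {u : E3 → ℝ} (h : ∀ᵐ x, ‖u x‖ ≤ B) (x : E3) :
    ‖heat σ u x‖ ≤ B := by
  have hp := isProb_gam hσ
  rw [heat_eq hσ]
  have h1 : ∀ᵐ y ∂(TB.gam σ), ‖u (x - y)‖ ≤ B :=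
    (withDensity_absolutelyContinuous (volume : Measure E3) _).ae_le (TP.ae_shift h x)
  have h2 := norm_integral_le_of_norm_le_const h1
  simpa using h2

/-- the sources are bounded by the energy density of the velocity -/
theorem fiS (hAv : StAv) (hGa : StGa) (hDa : StDa) {ι : Type} [Fintype ι]
    {Cb c A B L C₁ η d s0 M' : ℝ} {n : ℕ} {lam : ℕ → E3 → ℝ} {b : ℕ → E3 → E3}
    {f s : ι → ℕ → E3 → ℝ} {u : ℕ → E3 → ℝ} (hS : Sys ι Cb c A B L C₁ η d s0 n lam b f s u)
    {m : ℕ} (hm : m < n) (a : ι) {rm : E3 → ℝ} (hr : Den M' rm) :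
    Integrable (fun x => heat d rm x * |s a m x|) ∧
    Integrable (fun x => heat d rm x * heat η (u m) x) ∧
    ∫ x, heat d rm x * |s a m x| ≤ ∫ x, heat η (heat d rm) x * u m x := by
  obtain ⟨p1, p2, p3⟩ := fq_heat hGa hDa hS.d0 hr
  have hu : ∀ᵐ x ∂(volume : Measure E3), ‖u m x‖ ≤ B := by
    filter_upwards [hS.uB m hm] with x hx
    rw [Real.norm_of_nonneg (hS.u0 m hm x)]
    exact hx
  have hI1 : Integrable (fun x => heat d rm x * |s a m x|) := by
    refine fq_bdd_mul (B := B) p1 (hS.s2 a m hm).cd.continuous.abs.aestronglyMeasurable ?_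
    refine Eventually.of_forall fun x => ?_
    rw [Real.norm_of_nonneg (abs_nonneg _)]
    exact (hS.s2 a m hm).b0 x
  have hI2 : Integrable (fun x => heat d rm x * heat η (u m) x) :=
    fq_bdd_mul (B := B) p1
      (stronglyMeasurable_heat hS.ηp (hS.um m hm).stronglyMeasurable).aestronglyMeasurable
      (Eventually.of_forall fun x => fs_bdd hS.ηp hu x)
  refine ⟨hI1, hI2, ?_⟩
  have h1 : ∫ x, heat d rm x * |s a m x| ≤ ∫ x, heat d rm x * heat η (u m) x := by
    refine integral_mono hI1 hI2 fun x => ?_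
    exact mul_le_mul_of_nonneg_left (hS.src a m hm x) (p1.pos x).le
  refine h1.trans (le_of_eq ?_)
  obtain ⟨g1, g2⟩ := hGa η hS.ηp
  have h2 := (hAv _ g1).2.2 (heat d rm) (u m) B p1.cd.continuous p1.int (hS.um m hm) hu
  rw [g2 (u m), g2 (heat d rm)]
  exact h2

end Pool.Agent.TF.S2
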