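import Pool.Agent.TF.S2.Def2
import Pool.Agent.TF.E.Dk3
import Pool.Agent.TF.E.Src

/-!
# Block S2, row Rn: components of the scheme
-/

set_option autoImplicit false

namespace Pool.Agent.TF.S2

open MeasureTheory Set Filter Topology Pool.Agent.TO Pool.Agent.TB Pool.Agent.TC Pool.Agent.TP
open scoped ENNReal NNReal Real InnerProductSpace

section gen

variable {F : Type} [NormedAddCommGroup F] [NormedSpace ℝ F]

theorem rn_c2 {f : E3 → F} {a : ℝ} (h : ContDiff ℝ 2 f) (h0 : ∀ x, ‖f x‖ ≤ a)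
    (h1 : ∀ i x, ‖pd i f x‖ ≤ a) (h2 : ∀ i j x, ‖pd i (pd j f) x‖ ≤ a) : C2 (9 * a) f := by
  have ha : 0 ≤ a := (norm_nonneg _).trans (h0 0)
  refine ⟨h, fun x => (h0 x).trans (by linarith), fun x => ?_, fun x => ?_⟩
  · exact (norm_fderiv_le_pd fun i => h1 i x).trans (by linarith)
  · have hd : ContDiff ℝ 1 (fderiv ℝ f) :=
      ((contDiff_succ_iff_fderiv (n := (1 : WithTop ℕ∞))).1 (by exact_mod_cast h)).2.2
    have h3 : ‖fderiv ℝ (fderiv ℝ f) x‖ ≤ 3 * (3 * a) := by
      refine opNorm_le_pd (by positivity) fun j => ?_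
      refine opNorm_le_pd ha fun i => ?_
      have e : fderiv ℝ (fderiv ℝ f) x (ee j) (ee i) = pd j (pd i f) x := by
        unfold pd
        have hh : DifferentiableAt ℝ (fderiv ℝ f) x := hd.differentiable one_ne_zero x
        have := fderiv_clm_apply hh (differentiableAt_const (ee i : E3))
        rw [this]
        simp
      rw [e]
      exact h2 j i x
    linarith

theorem C2.mono {f : E3 → F} {B B' : ℝ} (h : C2 B f) (hB : B ≤ B') : C2 B' f :=
  ⟨h.cd, fun x => (h.b0 x).trans hB, fun x => (h.b1 x).trans hB, fun x => (h.b2 x).trans hB⟩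

theorem C2.add {f g : E3 → F} {B B' : ℝ} (hf : C2 B f) (hg : C2 B' g) :
    C2 (B + B') (fun x => f x + g x) := by
  have df : Differentiable ℝ f := hf.cd.differentiable two_ne_zero
  have dg : Differentiable ℝ g := hg.cd.differentiable two_ne_zero
  have e1 : fderiv ℝ (fun x => f x + g x) = fun x => fderiv ℝ f x + fderiv ℝ g x := by
    funext x
    exact fderiv_fun_add (df x) (dg x)
  have df1 : Differentiable ℝ (fderiv ℝ f) :=
    ((contDiff_succ_iff_fderiv (n := (1 : WithTop ℕ∞))).1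
      (by exact_mod_cast hf.cd)).2.2.differentiable one_ne_zero
  have dg1 : Differentiable ℝ (fderiv ℝ g) :=
    ((contDiff_succ_iff_fderiv (n := (1 : WithTop ℕ∞))).1
      (by exact_mod_cast hg.cd)).2.2.differentiable one_ne_zero
  refine ⟨hf.cd.add hg.cd, fun x => (norm_add_le _ _).trans (add_le_add (hf.b0 x) (hg.b0 x)),
    fun x => ?_, fun x => ?_⟩
  · rw [e1]
    exact (norm_add_le _ _).trans (add_le_add (hf.b1 x) (hg.b1 x))
  · rw [e1, fderiv_fun_add (df1 x) (dg1 x)]
    have hB : 0 ≤ B := (norm_nonneg _).trans (hf.b0 0)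
    have hB' : 0 ≤ B' := (norm_nonneg _).trans (hg.b0 0)
    refine ContinuousLinearMap.opNorm_le_bound _ (add_nonneg hB hB') fun v => ?_
    have h1 := ((fderiv ℝ (fderiv ℝ f) x).le_opNorm v).trans
      (mul_le_mul_of_nonneg_right (hf.b2 x) (norm_nonneg v))
    have h2 := ((fderiv ℝ (fderiv ℝ g) x).le_opNorm v).trans
      (mul_le_mul_of_nonneg_right (hg.b2 x) (norm_nonneg v))
    have h3 := norm_add_le (fderiv ℝ (fderiv ℝ f) x v) (fderiv ℝ (fderiv ℝ g) x v)
    rw [add_mul]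
    exact h3.trans (add_le_add h1 h2)

theorem C2.smul {f : E3 → F} {B : ℝ} (c : ℝ) (hf : C2 B f) :
    C2 (|c| * B) (fun x => c • f x) := by
  have df : Differentiable ℝ f := hf.cd.differentiable two_ne_zero
  have e1 : fderiv ℝ (fun x => c • f x) = fun x => c • fderiv ℝ f x := by
    funext x
    exact fderiv_fun_const_smul (df x) c
  have df1 : Differentiable ℝ (fderiv ℝ f) :=
    ((contDiff_succ_iff_fderiv (n := (1 : WithTop ℕ∞))).1
      (by exact_mod_cast hf.cd)).2.2.differentiable one_ne_zero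
  refine ⟨contDiff_const.smul hf.cd, fun x => ?_, fun x => ?_, fun x => ?_⟩
  · rw [norm_smul, Real.norm_eq_abs]
    exact mul_le_mul_of_nonneg_left (hf.b0 x) (abs_nonneg c)
  · rw [e1, norm_smul, Real.norm_eq_abs]
    exact mul_le_mul_of_nonneg_left (hf.b1 x) (abs_nonneg c)
  · have hB : 0 ≤ B := (norm_nonneg _).trans (hf.b0 0)
    rw [e1, fderiv_fun_const_smul (df1 x) c]
    refine ContinuousLinearMap.opNorm_le_bound _ (by positivity) fun v => ?_
    have h1 := ((fderiv ℝ (fderiv ℝ f) x).le_opNorm v).trans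
      (mul_le_mul_of_nonneg_right (hf.b2 x) (norm_nonneg v))
    have h3 : ‖c • (fderiv ℝ (fderiv ℝ f) x v)‖ ≤ |c| * (B * ‖v‖) := by
      rw [norm_smul, Real.norm_eq_abs]
      exact mul_le_mul_of_nonneg_left h1 (abs_nonneg c)
    rw [mul_assoc]
    exact h3

theorem C2.zero {B : ℝ} (hB : 0 ≤ B) : C2 B (fun _ : E3 => (0 : F)) := by
  have e1 : fderiv ℝ (fun _ : E3 => (0 : F)) = fun _ => 0 := by
    funext x
    exact (hasFDerivAt_const (0 : F) x).fderiv
  refine ⟨contDiff_const, fun x => by simpa using hB, fun x => ?_, fun x => ?_⟩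
  · rw [e1]; simpa using hB
  · rw [e1]
    have : fderiv ℝ (fun _ : E3 => (0 : E3 →L[ℝ] F)) x = 0 :=
      (hasFDerivAt_const (0 : E3 →L[ℝ] F) x).fderiv
    rw [this]
    refine ContinuousLinearMap.opNorm_le_bound _ hB fun v => ?_
    rw [ContinuousLinearMap.zero_apply, norm_zero]
    positivity

end gen

/-- the `i`-th coordinate -/
noncomputable def pj (i : Fin 3) : E3 →L[ℝ] ℝ := EuclideanSpace.proj i

theorem pj_apply (i : Fin 3) (v : E3) : pj i v = v i := rfl

theorem norm_pj_le (i : Fin 3) : ‖pj i‖ ≤ 1 := by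
  refine ContinuousLinearMap.opNorm_le_bound _ zero_le_one fun x => ?_
  rw [pj_apply, one_mul, Real.norm_eq_abs]
  exact abs_coord_le x i

theorem C2.coord {f : E3 → E3} {B : ℝ} (hf : C2 B f) (i : Fin 3) : C2 B (fun x => f x i) := by
  have hB : 0 ≤ B := (norm_nonneg _).trans (hf.b0 0)
  have df : Differentiable ℝ f := hf.cd.differentiable two_ne_zero
  have df1 : Differentiable ℝ (fderiv ℝ f) :=
    ((contDiff_succ_iff_fderiv (n := (1 : WithTop ℕ∞))).1
      (by exact_mod_cast hf.cd)).2.2.differentiable one_ne_zero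
  have e0 : (fun x => f x i) = fun x => pj i (f x) := rfl
  have e1 : fderiv ℝ (fun x => pj i (f x)) = fun x => (pj i).comp (fderiv ℝ f x) := by
    funext x
    exact ((pj i).hasFDerivAt.comp x (df x).hasFDerivAt).fderiv
  have e2 : ∀ x, fderiv ℝ (fun x => (pj i).comp (fderiv ℝ f x)) x =
      ((ContinuousLinearMap.compL ℝ E3 E3 ℝ) (pj i)).comp (fderiv ℝ (fderiv ℝ f) x) := by
    intro x
    exact (((ContinuousLinearMap.compL ℝ E3 E3 ℝ) (pj i)).hasFDerivAt.comp x
      (df1 x).hasFDerivAt).fderiv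
  rw [e0]
  refine ⟨(pj i).contDiff.comp hf.cd, fun x => ?_, fun x => ?_, fun x => ?_⟩
  · rw [pj_apply, Real.norm_eq_abs]
    exact (abs_coord_le _ i).trans (hf.b0 x)
  · rw [e1]
    refine (ContinuousLinearMap.opNorm_comp_le _ _).trans ?_
    calc ‖pj i‖ * ‖fderiv ℝ f x‖ ≤ 1 * B :=
          mul_le_mul (norm_pj_le i) (hf.b1 x) (norm_nonneg _) zero_le_one
      _ = B := one_mul _
  · rw [e1, e2]
    refine ContinuousLinearMap.opNorm_le_bound _ hB fun v => ?_
    have h1 : ‖(fderiv ℝ (fderiv ℝ f) x) v‖ ≤ B * ‖v‖ :=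
      ((fderiv ℝ (fderiv ℝ f) x).le_opNorm v).trans
        (mul_le_mul_of_nonneg_right (hf.b2 x) (norm_nonneg _))
    calc ‖(((ContinuousLinearMap.compL ℝ E3 E3 ℝ) (pj i)).comp (fderiv ℝ (fderiv ℝ f) x)) v‖
        = ‖(pj i).comp ((fderiv ℝ (fderiv ℝ f) x) v)‖ := rfl
      _ ≤ ‖pj i‖ * ‖(fderiv ℝ (fderiv ℝ f) x) v‖ := ContinuousLinearMap.opNorm_comp_le _ _
      _ ≤ 1 * (B * ‖v‖) := mul_le_mul (norm_pj_le i) h1 (norm_nonneg _) zero_le_one
      _ = B * ‖v‖ := one_mul _

/-- heat commutes with coordinates -/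
theorem heat_coord {s : ℝ} {f : E3 → E3} {x : E3}
    (h : Integrable (fun y => hk s y • f (x - y)) (volume : Measure E3)) (i : Fin 3) :
    (heat s f x) i = heat s (fun y => f y i) x := by
  have h1 := (pj i).integral_comp_comm h
  unfold heat
  rw [← pj_apply, ← h1]
  congr 1

theorem heat_coord_c {s : ℝ} (hs : 0 < s) {f : E3 → E3} (hf : Continuous f) {C : ℝ}
    (hb : ∀ x, ‖f x‖ ≤ C) (i : Fin 3) (x : E3) :
    (heat s f x) i = heat s (fun y => f y i) x :=
  heat_coord (integrable_cvf_bdd (integrable_hk hs) hf hb x) i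

end Pool.Agent.TF.S2
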