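import Pool.Agent.TF.S2.RnA
import Pool.Agent.TF.E.NcC

/-!
# Block S2, row Rn: the scalar potentials of the scheme
-/

set_option autoImplicit false

namespace Pool.Agent.TF.S2

open MeasureTheory Set Filter Topology Pool.Agent.TO Pool.Agent.TB Pool.Agent.TC Pool.Agent.TP
open scoped ENNReal NNReal Real InnerProductSpace

variable {R : Fin 3 → V3 →L[ℝ] V3}

/-- the scalar sources -/
noncomputable def so (R : Fin 3 → V3 →L[ℝ] V3) (η : ℝ) (σ : Sta) : Ix → E3 → ℝ
  | Sum.inl _ => fun _ => 0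
  | Sum.inr (k, i) => fun x => src R η σ k x i

/-- bounds of one source -/
theorem src_c2 {η M : ℝ} (hη : 0 < η) (hM : 0 ≤ M) {σ : Sta} (hU : Bd (Hh R σ) M) (k : Fin 3) :
    C2 (9 * ((1 + kC (hk η)) * M ^ 2)) (src R η σ k) := by
  have h := src_bounds hη hM hU k
  have hk0 := kC_nonneg (hk η)
  have hM2 : 0 ≤ M ^ 2 := sq_nonneg M
  have h1 : C2 (9 * ((1 + kC (hk η)) * M ^ 2)) (heat η (tens k (Hh R σ) (Hh R σ) : V3)) := by
    refine rn_c2 h.nc.c2 (fun x => (h.s0 x).trans ?_) (fun i x => (h.s1 i x).trans ?_)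
      (fun i j x => (h.s2 i j x).trans ?_) <;> nlinarith
  have h2 := h1.smul (-1)
  rw [abs_neg, abs_one, one_mul] at h2
  have e : src R η σ k = fun x => (-1 : ℝ) • heat η (tens k (Hh R σ) (Hh R σ) : V3) x := by
    funext x
    unfold src
    rw [neg_smul, one_smul]
  rw [e]
  exact h2

theorem so_c2 {η M : ℝ} (hη : 0 < η) (hM : 0 ≤ M) {σ : Sta} (hU : Bd (Hh R σ) M) (a : Ix) :
    C2 (9 * ((1 + kC (hk η)) * M ^ 2)) (so R η σ a) := by
  have hk0 := kC_nonneg (hk η)
  have hM2 : 0 ≤ M ^ 2 := sq_nonneg M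
  rcases a with ⟨k, j, i⟩ | ⟨k, i⟩
  · exact C2.zero (by positivity)
  · exact (src_c2 hη hM hU k).coord i

theorem so_le {η M : ℝ} (hη : 0 < η) {σ : Sta} (hU : Bd (Hh R σ) M) (a : Ix) (x : E3) :
    |so R η σ a x| ≤ heat η (fun y => ‖(Hh R σ : V3) y‖ ^ 2) x := by
  have hM : 0 ≤ M := by
    obtain ⟨y, hy⟩ := hU.exists
    exact (norm_nonneg _).trans hy
  have hint : Integrable (fun y => hk η y • ‖(Hh R σ : V3) (x - y)‖ ^ 2)
      (volume : Measure E3) := by
    refine Integrable.mono' ((integrable_hk hη).mul_const (M ^ 2)) ?_ ?_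
    · have hsm : StronglyMeasurable fun y => (Hh R σ : V3) (x - y) :=
        (Lp.stronglyMeasurable (Hh R σ)).comp_measurable (measurable_const.sub measurable_id)
      exact (integrable_hk hη).aestronglyMeasurable.smul (hsm.norm.pow 2).aestronglyMeasurable
    · filter_upwards [ae_shift hU x] with y hy
      rw [norm_smul, Real.norm_eq_abs, Real.norm_eq_abs, abs_of_pos (hk_pos hη y),
        abs_of_nonneg (sq_nonneg _)]
      exact mul_le_mul_of_nonneg_left (pow_le_pow_left₀ (norm_nonneg _) hy 2) (hk_pos hη y).le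
  rcases a with ⟨k, j, i⟩ | ⟨k, i⟩
  · show |(0:ℝ)| ≤ _
    rw [abs_zero]
    exact integral_nonneg fun y => mul_nonneg (hk_pos hη y).le (sq_nonneg _)
  · show |(src R η σ k x) i| ≤ _
    refine (abs_coord_le _ i).trans ?_
    unfold src heat
    rw [norm_neg]
    refine norm_integral_le_of_norm_le hint ?_
    filter_upwards [ae_shift (coe_tens_left k hU (Hh R σ)) x] with y hy
    rw [hy, norm_smul, norm_smul, Real.norm_eq_abs, abs_of_pos (hk_pos hη y), smul_eq_mul, sq]
    refine mul_le_mul_of_nonneg_left ?_ (hk_pos hη y).le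
    refine mul_le_mul_of_nonneg_right ?_ (norm_nonneg _)
    rw [Real.norm_eq_abs]
    exact abs_coord_le _ k

/-- the recursion of the scalar potentials -/
theorem pot_step {η d : ℝ} (hη : 0 < η) (hd : 0 < d) {b : E3 → E3} {lam : E3 → ℝ} {M La : ℝ}
    (hb : Continuous b) (hl : Continuous lam) (hlb : ∀ x, |1 - d * lam x| ≤ La)
    {σ : Sta} (hσ : NcS σ) (hM : 0 ≤ M) (hU : Bd (Hh R σ) M) (a : Ix) :
    pot (nxt R η d b lam σ) a =
      heat d (fun x => J d lam b (pot σ a) x + d * so R η σ a x) := by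
  have hLa : 0 ≤ La := (abs_nonneg _).trans (hlb 0)
  have hj : ∀ f : E3 → E3, Nc f → Continuous (Jst d b lam f) ∧ ∃ C, ∀ x, ‖Jst d b lam f x‖ ≤ C := by
    intro f hf
    obtain ⟨C, hC⟩ := hf.b0
    refine ⟨?_, La * C, fun x => ?_⟩
    · unfold Jst
      exact (continuous_const.sub (continuous_const.mul hl)).smul
        (hf.cont.comp (continuous_id.sub (hb.const_smul d)))
    · unfold Jst
      rw [norm_smul, Real.norm_eq_abs]
      exact mul_le_mul (hlb x) (hC _) (norm_nonneg _) hLa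
  rcases a with ⟨k, j, i⟩ | ⟨k, i⟩
  · funext x
    obtain ⟨hc, C, hC⟩ := hj _ (hσ.1 k j)
    show (heat d (Jst d b lam (σ.g k j)) x) i = _
    rw [heat_coord_c hd hc hC]
    congr 1
    funext y
    show _ = J d lam b (fun x => σ.g k j x i) y + d * 0
    unfold J Jst
    rw [PiLp.smul_apply, smul_eq_mul, mul_zero, add_zero]
  · funext x
    obtain ⟨hc, C, hC⟩ := hj _ (hσ.2 k)
    have hs := src_c2 hη hM hU k
    show (heat d (fun x => Jst d b lam (σ.h k) x + d • src R η σ k x) x) i = _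
    have h1 : Continuous fun x => Jst d b lam (σ.h k) x + d • src R η σ k x :=
      hc.add (hs.cd.continuous.const_smul d)
    have h2 : ∀ x, ‖Jst d b lam (σ.h k) x + d • src R η σ k x‖ ≤
        C + d * (9 * ((1 + kC (hk η)) * M ^ 2)) := by
      intro x
      refine (norm_add_le _ _).trans (add_le_add (hC x) ?_)
      rw [norm_smul, Real.norm_eq_abs, abs_of_pos hd]
      exact mul_le_mul_of_nonneg_left (hs.b0 x) hd.le
    rw [heat_coord_c hd h1 h2]
    congr 1

/-- bounds of the initial potentials -/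
theorem ini_c2 {Ci A₀ L s : ℝ} (hCi : 0 < Ci) (hA : 0 < A₀) (hs : 0 < s) (hs1 : s < 1) {σ : Sta}
    (h : Ini Ci A₀ L s σ) (a : Ix) : C2 (9 * (A₀ + Ci * A₀ / s)) (pot σ a) := by
  have h1 : Ci * A₀ / √s ≤ Ci * A₀ / s := by
    have hss : s ≤ √s := by
      refine Real.le_sqrt_of_sq_le ?_
      nlinarith
    gcongr
  have h2 : 0 ≤ Ci * A₀ / s := by positivity
  rcases a with ⟨k, j, i⟩ | ⟨k, i⟩
  · refine C2.coord (f := σ.g k j) ?_ i
    refine rn_c2 (h.nc.1 k j).c2 (fun x => (h.g0 k j x).trans ?_)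
      (fun i x => (h.g1 k j i x).trans ?_) (fun i i' x => (h.g2 k j i i' x).trans ?_) <;> linarith
  · have e : pot σ (Sum.inr (k, i)) = fun _ => 0 := by
      funext x
      show (σ.h k x) i = 0
      rw [h.h0 k x]
      rfl
    rw [e]
    exact C2.zero (by positivity)

end Pool.Agent.TF.S2
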